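import Mathlib
import Pool.Agent.W350.Edge2

/-!
Powers of Dirichlet polynomials over primes in mean square over an interval of length one.
-/

set_option autoImplicit false

open MeasureTheory Filter Topology Finset
open Pool.Agent.W350.Edge (lg lg_le lt_lg cheb schur_row gauss_mean CC CC_pos)

namespace Run7.h113.LE

/-- tuples -/
def Ix : ℕ → Type
  | 0 => Unit
  | k + 1 => ℕ × Ix k

/-- tuples of elements of a set -/
def Fk (F : Finset ℕ) : (k : ℕ) → Finset (Ix k)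
  | 0 => ({()} : Finset Unit)
  | k + 1 => F ×ˢ Fk F k

/-- products of coefficients -/
def cf {R : Type} [CommSemiring R] (c : ℕ → R) : (k : ℕ) → Ix k → R
  | 0, _ => 1
  | k + 1, x => c x.1 * cf c k x.2

/-- sums of frequencies -/
def fr {R : Type} [AddCommMonoid R] (u : ℕ → R) : (k : ℕ) → Ix k → R
  | 0, _ => 0
  | k + 1, x => u x.1 + fr u k x.2

lemma sum_zero {R : Type} [AddCommMonoid R] (F : Finset ℕ) (h : Ix 0 → R) : ∑ x ∈ Fk F 0, h x = h () :=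
  Finset.sum_singleton (ι := Unit) h ()

lemma sum_succ {R : Type} [AddCommMonoid R] (F : Finset ℕ) (k : ℕ) (h : Ix (k + 1) → R) :
    ∑ x ∈ Fk F (k + 1), h x = ∑ p ∈ F, ∑ x ∈ Fk F k, h (p, x) :=
  Finset.sum_product (γ := ℕ) (α := Ix k) F (Fk F k) h

/-- the power of a sum of exponentials -/
lemma pow_exp (F : Finset ℕ) (c : ℕ → ℂ) (u : ℕ → ℝ) (τ : ℝ) (k : ℕ) :
    (∑ p ∈ F, c p * Complex.exp (-(τ * u p) * Complex.I)) ^ k =
      ∑ x ∈ Fk F k, cf c k x * Complex.exp (-(τ * (fr u k x : ℝ)) * Complex.I) := by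
  induction k with
  | zero =>
    rw [sum_zero]
    simp [cf, fr]
  | succ k ih =>
    rw [pow_succ', ih, sum_succ, Finset.sum_mul]
    refine Finset.sum_congr rfl fun p _ => ?_
    rw [Finset.mul_sum]
    refine Finset.sum_congr rfl fun x _ => ?_
    show _ = (c p * cf c k x) * Complex.exp (-(τ * ((u p + fr u k x : ℝ) : ℂ)) * Complex.I)
    have : Complex.exp (-(τ * ((u p + fr u k x : ℝ) : ℂ)) * Complex.I) =
        Complex.exp (-(τ * u p) * Complex.I) * Complex.exp (-(τ * (fr u k x : ℝ)) * Complex.I) := by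
      rw [← Complex.exp_add]
      congr 1
      push_cast
      ring
    rw [this]
    ring

lemma cf_norm {c : ℕ → ℂ} {F : Finset ℕ} {M : ℝ} (hM : 0 ≤ M) (hc : ∀ p ∈ F, ‖c p‖ ≤ M * (1 / (p:ℝ))) (k : ℕ) :
    ∀ x ∈ Fk F k, ‖cf c k x‖ ≤ M ^ k * cf (fun p => 1 / (p:ℝ)) k x := by
  induction k with
  | zero =>
    intro x _
    simp [cf]
  | succ k ih =>
    rintro ⟨p, x⟩ hx
    have hx' : (p, x) ∈ F ×ˢ Fk F k := hx
    rw [Finset.mem_product] at hx'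
    obtain ⟨h1, h2⟩ := hx'
    show ‖c p * cf c k x‖ ≤ M ^ (k + 1) * ((1 / (p:ℝ)) * cf (fun p => 1 / (p:ℝ)) k x)
    rw [norm_mul]
    have h3 := hc p h1
    have h4 := ih x h2
    calc ‖c p‖ * ‖cf c k x‖ ≤ (M * (1 / (p:ℝ))) * (M ^ k * cf (fun p => 1 / (p:ℝ)) k x) :=
          mul_le_mul h3 h4 (norm_nonneg _) (by positivity)
      _ = _ := by ring

lemma cf_nonneg (k : ℕ) : ∀ x : Ix k, 0 ≤ cf (fun p : ℕ => 1 / (p:ℝ)) k x := by
  induction k with
  | zero => intro x; simp [cf]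
  | succ k ih =>
    rintro ⟨p, x⟩
    exact mul_nonneg (by positivity) (ih x)

/-- size of the sums of logarithms -/
lemma fr_lg {F : Finset ℕ} (hF : ∀ p ∈ F, p.Prime) (k : ℕ) : ∀ x ∈ Fk F k,
    ((fr lg k x : ℕ) : ℝ) ≤ fr (fun p : ℕ => Real.log p) k x ∧
      fr (fun p : ℕ => Real.log p) k x ≤ ((fr lg k x : ℕ) : ℝ) + k := by
  induction k with
  | zero => intro x _; simp [fr]
  | succ k ih =>
    rintro ⟨p, x⟩ hx
    have hx' : (p, x) ∈ F ×ˢ Fk F k := hx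
    rw [Finset.mem_product] at hx'
    obtain ⟨h1, h2⟩ := hx'
    obtain ⟨h3, h4⟩ := ih x h2
    have h5 := lg_le (hF p h1).one_le
    have h6 := lt_lg p
    show (((lg p + fr lg k x : ℕ)) : ℝ) ≤ Real.log p + fr (fun p : ℕ => Real.log p) k x ∧
      Real.log p + fr (fun p : ℕ => Real.log p) k x ≤ ((lg p + fr lg k x : ℕ) : ℝ) + ((k + 1 : ℕ) : ℝ)
    push_cast
    constructor <;> linarith

lemma fr_lg_ge {F : Finset ℕ} {L : ℕ} (hF : ∀ p ∈ F, L ≤ lg p) (k : ℕ) : ∀ x ∈ Fk F (k + 1), L ≤ fr lg (k + 1) x := by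
  rintro ⟨p, x⟩ hx
  have hx' : (p, x) ∈ F ×ˢ Fk F k := hx
  rw [Finset.mem_product] at hx'
  show L ≤ lg p + fr lg k x
  have := hF p hx'.1
  omega

/-- the density of the sums of logarithms -/
noncomputable def bb (k s : ℕ) : ℝ := (2 * CC) ^ (k + 1) * (1 + Real.log s) ^ k / s

lemma bb_nonneg (k s : ℕ) : 0 ≤ bb k s := by
  unfold bb
  have := CC_pos
  have h1 : 0 ≤ Real.log (s:ℝ) := Real.log_natCast_nonneg s
  positivity

lemma harm_le (n : ℕ) (hn : 1 ≤ n) : ∑ l ∈ Ico 1 n, 1 / (l:ℝ) ≤ 1 + Real.log n := by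
  have h1 := harmonic_le_one_add_log (n - 1)
  have h2 : ((harmonic (n - 1) : ℚ) : ℝ) = ∑ l ∈ Ico 1 n, 1 / (l:ℝ) := by
    unfold harmonic
    push_cast
    rw [Finset.sum_Ico_eq_sum_range]
    refine Finset.sum_congr rfl fun i _ => ?_
    push_cast
    rw [one_div, add_comm]
  rw [← h2]
  refine h1.trans ?_
  have : Real.log ((n - 1 : ℕ) : ℝ) ≤ Real.log n := by
    rcases Nat.eq_zero_or_pos (n - 1) with h | h
    · rw [h]
      simp only [Nat.cast_zero, Real.log_zero]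
      exact Real.log_natCast_nonneg n
    · apply Real.log_le_log
      · exact_mod_cast h
      · exact_mod_cast Nat.sub_le n 1
  linarith

/-- convolution of the densities -/
lemma conv_le (k u : ℕ) : ∑ l ∈ Ico 1 u, CC / l * bb k (u - l) ≤ bb (k + 1) u := by
  rcases Nat.lt_or_ge u 2 with hu | hu
  · have : Ico 1 u = ∅ := by
      rw [Finset.Ico_eq_empty_iff]
      omega
    rw [this, Finset.sum_empty]
    exact bb_nonneg _ _
  have hC := CC_pos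
  have hu0 : (0:ℝ) < u := by
    have : 0 < u := by omega
    exact_mod_cast this
  have h1 : ∀ l ∈ Ico 1 u, CC / l * bb k (u - l) ≤
      CC * (2 * CC) ^ (k + 1) * (1 + Real.log u) ^ k / u * (1 / (l:ℝ) + 1 / ((u - l : ℕ) : ℝ)) := by
    intro l hl
    rw [mem_Ico] at hl
    have hl0 : (0:ℝ) < l := by
      have : 0 < l := by omega
      exact_mod_cast this
    have hul : (0:ℝ) < ((u - l : ℕ) : ℝ) := by
      have : 0 < u - l := by omega
      exact_mod_cast this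
    have e1 : (u:ℝ) = l + ((u - l : ℕ) : ℝ) := by
      rw [← Nat.cast_add]
      congr 1
      omega
    have h2 : Real.log ((u - l : ℕ) : ℝ) ≤ Real.log u := Real.log_le_log hul (by linarith)
    have h3 : 0 ≤ Real.log ((u - l : ℕ) : ℝ) := Real.log_natCast_nonneg _
    have h4 : (1 + Real.log ((u - l : ℕ) : ℝ)) ^ k ≤ (1 + Real.log u) ^ k :=
      pow_le_pow_left₀ (by linarith) (by linarith) k
    unfold bb
    calc CC / l * ((2 * CC) ^ (k + 1) * (1 + Real.log ((u - l : ℕ) : ℝ)) ^ k / ((u - l : ℕ) : ℝ))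
        ≤ CC / l * ((2 * CC) ^ (k + 1) * (1 + Real.log u) ^ k / ((u - l : ℕ) : ℝ)) := by
          gcongr
      _ = _ := by
          generalize Real.log (u:ℝ) = lu at *
          generalize ((u - l : ℕ) : ℝ) = w at *
          rw [e1]
          field_simp
          ring
  refine (Finset.sum_le_sum h1).trans ?_
  rw [← Finset.mul_sum, Finset.sum_add_distrib]
  have h5 : ∑ l ∈ Ico 1 u, 1 / ((u - l : ℕ) : ℝ) = ∑ l ∈ Ico 1 u, 1 / (l:ℝ) := by
    have h6 := Finset.sum_Ico_reflect (fun l => 1 / (l:ℝ)) 1 (m := u) (n := u) (by omega)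
    have e2 : u + 1 - u = 1 := by omega
    have e3 : u + 1 - 1 = u := by omega
    rw [e2, e3] at h6
    exact h6
  rw [h5]
  have h6 := harm_le u (by omega)
  have h7 : 0 ≤ Real.log (u:ℝ) := Real.log_natCast_nonneg u
  calc CC * (2 * CC) ^ (k + 1) * (1 + Real.log u) ^ k / u * (∑ l ∈ Ico 1 u, 1 / (l:ℝ) + ∑ l ∈ Ico 1 u, 1 / (l:ℝ))
      ≤ CC * (2 * CC) ^ (k + 1) * (1 + Real.log u) ^ k / u * ((1 + Real.log u) + (1 + Real.log u)) := by
        gcongr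
    _ = bb (k + 1) u := by
        unfold bb
        rw [pow_succ (2 * CC) (k + 1), pow_succ (1 + Real.log (u:ℝ)) k]
        ring

/-- grouping of the primes by the size of the logarithm -/
lemma fib {F : Finset ℕ} {S0 : ℕ} (hF : ∀ p ∈ F, p.Prime ∧ 1 ≤ lg p ∧ lg p < S0) (g : ℕ → ℝ) (hg : ∀ l, 0 ≤ g l) :
    ∑ p ∈ F, 1 / (p:ℝ) * g (lg p) ≤ ∑ l ∈ Ico 1 S0, CC / l * g l := by
  have hmaps : ∀ p ∈ F, lg p ∈ Ico 1 S0 := fun p hp => mem_Ico.2 (hF p hp).2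
  rw [← sum_fiberwise_of_maps_to hmaps]
  refine sum_le_sum fun l hl => ?_
  have h1 : ∑ p ∈ F with lg p = l, 1 / (p : ℝ) * g (lg p) = (∑ p ∈ F with lg p = l, (1 : ℝ) / p) * g l := by
    rw [sum_mul]
    refine sum_congr rfl fun p hp => ?_
    rw [(mem_filter.1 hp).2]
  rw [h1]
  refine mul_le_mul_of_nonneg_right ?_ (hg l)
  exact cheb _ l (mem_Ico.1 hl).1 fun p hp => by
    rw [mem_filter] at hp
    exact ⟨(hF p hp.1).1, hp.2⟩

/-- the density estimate -/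
lemma dens {F : Finset ℕ} {S0 : ℕ} (hF : ∀ p ∈ F, p.Prime ∧ 1 ≤ lg p ∧ lg p < S0) (k : ℕ) :
    ∀ g : ℕ → ℝ, (∀ l, 0 ≤ g l) →
    ∑ x ∈ Fk F (k + 1), cf (fun p : ℕ => 1 / (p:ℝ)) (k + 1) x * g (fr lg (k + 1) x) ≤
      ∑ s ∈ Ico 1 ((k + 1) * S0), bb k s * g s := by
  induction k with
  | zero =>
    intro g hg
    rw [sum_succ]
    have h1 : ∀ p ∈ F, ∑ x ∈ Fk F 0, cf (fun p : ℕ => 1 / (p:ℝ)) (0 + 1) (p, x) * g (fr lg (0 + 1) (p, x)) =
        1 / (p:ℝ) * g (lg p) := by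
      intro p _
      rw [sum_zero]
      show (1 / (p:ℝ) * 1) * g (lg p + 0) = _
      rw [mul_one, add_zero]
    rw [Finset.sum_congr rfl h1]
    refine (fib hF g hg).trans ?_
    rw [zero_add, one_mul]
    refine Finset.sum_le_sum fun l hl => mul_le_mul_of_nonneg_right ?_ (hg l)
    unfold bb
    have := CC_pos
    rw [zero_add, pow_one, pow_zero, mul_one]
    apply div_le_div_of_nonneg_right _ (Nat.cast_nonneg _)
    linarith
  | succ k ih =>
    intro g hg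
    rw [sum_succ]
    have hC := CC_pos
    have h1 : ∀ p ∈ F, ∑ x ∈ Fk F (k + 1), cf (fun p : ℕ => 1 / (p:ℝ)) (k + 1 + 1) (p, x) *
        g (fr lg (k + 1 + 1) (p, x)) ≤ 1 / (p:ℝ) * ∑ s ∈ Ico 1 ((k + 1) * S0), bb k s * g (lg p + s) := by
      intro p _
      have h2 := ih (fun l => g (lg p + l)) (fun l => hg _)
      have h3 : ∑ x ∈ Fk F (k + 1), cf (fun p : ℕ => 1 / (p:ℝ)) (k + 1 + 1) (p, x) *
          g (fr lg (k + 1 + 1) (p, x)) = 1 / (p:ℝ) * ∑ x ∈ Fk F (k + 1), cf (fun p : ℕ => 1 / (p:ℝ)) (k + 1) x *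
            g (lg p + fr lg (k + 1) x) := by
        rw [Finset.mul_sum]
        refine Finset.sum_congr rfl fun x _ => ?_
        show (1 / (p:ℝ) * cf (fun p : ℕ => 1 / (p:ℝ)) (k + 1) x) * g (lg p + fr lg (k + 1) x) = _
        ring
      rw [h3]
      exact mul_le_mul_of_nonneg_left h2 (by positivity)
    refine (Finset.sum_le_sum h1).trans ?_
    -- group the primes
    have h4 := fib hF (fun l => ∑ s ∈ Ico 1 ((k + 1) * S0), bb k s * g (l + s))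
      (fun l => Finset.sum_nonneg fun s _ => mul_nonneg (bb_nonneg _ _) (hg _))
    refine h4.trans ?_
    -- the double sum
    have h5 : ∑ l ∈ Ico 1 S0, CC / l * ∑ s ∈ Ico 1 ((k + 1) * S0), bb k s * g (l + s) =
        ∑ q ∈ Ico 1 S0 ×ˢ Ico 1 ((k + 1) * S0), CC / q.1 * bb k q.2 * g (q.1 + q.2) := by
      rw [Finset.sum_product]
      refine Finset.sum_congr rfl fun l _ => ?_
      rw [Finset.mul_sum]
      refine Finset.sum_congr rfl fun s _ => ?_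
      ring
    rw [h5]
    have hmaps : ∀ q ∈ Ico 1 S0 ×ˢ Ico 1 ((k + 1) * S0), q.1 + q.2 ∈ Ico 1 ((k + 1 + 1) * S0) := by
      intro q hq
      rw [Finset.mem_product, mem_Ico, mem_Ico] at hq
      rw [mem_Ico]
      have e1 : (k + 1 + 1) * S0 = (k + 1) * S0 + S0 := by ring
      omega
    rw [← sum_fiberwise_of_maps_to hmaps]
    refine Finset.sum_le_sum fun u _ => ?_
    have h6 : ∑ q ∈ Ico 1 S0 ×ˢ Ico 1 ((k + 1) * S0) with q.1 + q.2 = u, CC / q.1 * bb k q.2 * g (q.1 + q.2) ≤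
        ∑ l ∈ Ico 1 u, CC / l * bb k (u - l) * g u := by
      have h7 : ∑ q ∈ Ico 1 S0 ×ˢ Ico 1 ((k + 1) * S0) with q.1 + q.2 = u, CC / q.1 * bb k q.2 * g (q.1 + q.2) =
          ∑ q ∈ Ico 1 S0 ×ˢ Ico 1 ((k + 1) * S0) with q.1 + q.2 = u, CC / q.1 * bb k (u - q.1) * g u := by
        refine Finset.sum_congr rfl fun q hq => ?_
        rw [mem_filter] at hq
        rw [hq.2]
        congr 3
        omega
      rw [h7]
      have hinj : Set.InjOn Prod.fst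
          (((Ico 1 S0 ×ˢ Ico 1 ((k + 1) * S0)).filter fun q => q.1 + q.2 = u : Finset (ℕ × ℕ)) : Set (ℕ × ℕ)) := by
        intro q hq r hr hqr
        rw [Finset.mem_coe, mem_filter] at hq hr
        apply Prod.ext hqr
        omega
      rw [← Finset.sum_image (f := fun l : ℕ => CC / (l:ℝ) * bb k (u - l) * g u) hinj]
      apply Finset.sum_le_sum_of_subset_of_nonneg
      · intro l hl
        rw [Finset.mem_image] at hl
        obtain ⟨q, hq, rfl⟩ := hl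
        rw [mem_filter, Finset.mem_product, mem_Ico, mem_Ico] at hq
        rw [mem_Ico]
        omega
      · intro l _ _
        exact mul_nonneg (mul_nonneg (by positivity) (bb_nonneg _ _)) (hg _)
    refine h6.trans ?_
    rw [← Finset.sum_mul]
    exact mul_le_mul_of_nonneg_right (conv_le k u) (hg u)

/-- the tail of the square sum -/
noncomputable def dl (k L : ℕ) : ℝ := ∑' s : ℕ, (bb k (s + L)) ^ 2

lemma bb_summable (k : ℕ) : Summable fun s : ℕ => (bb k s) ^ 2 := by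
  have hC := CC_pos
  have h1 : Summable fun s : ℕ => (2 * CC) ^ (2 * (k + 1)) * (4 * (k + 1)) ^ (2 * k) * (1 / (s:ℝ) ^ (3/2 : ℝ)) :=
    (Real.summable_one_div_nat_rpow.2 (by norm_num)).mul_left _
  refine Summable.of_nonneg_of_le (fun s => sq_nonneg _) (fun s => ?_) h1
  rcases Nat.eq_zero_or_pos s with hs | hs
  · subst hs
    unfold bb
    simp
  have hs1 : (1:ℝ) ≤ s := by exact_mod_cast hs
  have hs0 : (0:ℝ) < s := by linarith
  -- the logarithm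
  have h2 : 1 + Real.log s ≤ 4 * (k + 1) * (s:ℝ) ^ (1 / (4 * ((k:ℝ) + 1))) := by
    have h3 := Real.add_one_le_exp (Real.log s / (4 * ((k:ℝ) + 1)))
    have h4 : Real.exp (Real.log s / (4 * ((k:ℝ) + 1))) = (s:ℝ) ^ (1 / (4 * ((k:ℝ) + 1))) := by
      rw [Real.rpow_def_of_pos hs0]
      congr 1
      ring
    rw [h4] at h3
    have h5 : 0 < 4 * ((k:ℝ) + 1) := by positivity
    have h6 : 4 * ((k:ℝ) + 1) * (Real.log s / (4 * ((k:ℝ) + 1)) + 1) = Real.log s + 4 * ((k:ℝ) + 1) := by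
      field_simp
    have h7 := mul_le_mul_of_nonneg_left h3 h5.le
    rw [h6] at h7
    have hk : (0:ℝ) ≤ k := Nat.cast_nonneg k
    linarith
  have h8 : 0 ≤ Real.log (s:ℝ) := Real.log_natCast_nonneg s
  have h9 : ((1 + Real.log (s:ℝ)) ^ k) ^ 2 ≤ (4 * (k + 1)) ^ (2 * k) * (s:ℝ) ^ (1/2:ℝ) := by
    calc ((1 + Real.log (s:ℝ)) ^ k) ^ 2 = (1 + Real.log (s:ℝ)) ^ (2 * k) := by rw [← pow_mul, mul_comm]
      _ ≤ (4 * (k + 1) * (s:ℝ) ^ (1 / (4 * ((k:ℝ) + 1)))) ^ (2 * k) := pow_le_pow_left₀ (by linarith) h2 _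
      _ = (4 * (k + 1)) ^ (2 * k) * ((s:ℝ) ^ (1 / (4 * ((k:ℝ) + 1)))) ^ (2 * k) := mul_pow _ _ _
      _ ≤ _ := by
          apply mul_le_mul_of_nonneg_left _ (by positivity)
          rw [← Real.rpow_natCast, ← Real.rpow_mul hs0.le]
          apply Real.rpow_le_rpow_of_exponent_le hs1
          push_cast
          have hk : (0:ℝ) ≤ k := Nat.cast_nonneg k
          rw [div_mul_eq_mul_div, div_le_iff₀ (by positivity)]
          linarith
  unfold bb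
  rw [div_pow, mul_pow]
  calc ((2 * CC) ^ (k + 1)) ^ 2 * ((1 + Real.log (s:ℝ)) ^ k) ^ 2 / (s:ℝ) ^ 2
      ≤ ((2 * CC) ^ (k + 1)) ^ 2 * ((4 * (k + 1)) ^ (2 * k) * (s:ℝ) ^ (1/2:ℝ)) / (s:ℝ) ^ 2 := by gcongr
    _ = (2 * CC) ^ (2 * (k + 1)) * (4 * (k + 1)) ^ (2 * k) * ((s:ℝ) ^ (1/2:ℝ) / (s:ℝ) ^ 2) := by
        rw [← pow_mul, mul_comm (k + 1) 2]; ring
    _ = _ := by
        congr 1
        rw [← Real.rpow_natCast (s:ℝ) 2, ← Real.rpow_sub hs0, one_div ((s:ℝ) ^ (3/2:ℝ)), ← Real.rpow_neg hs0.le]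
        congr 1
        norm_num

lemma dl_tendsto (k : ℕ) : Tendsto (dl k) atTop (𝓝 0) := by
  have h := tendsto_sum_nat_add (fun s : ℕ => (bb k s) ^ 2)
  exact h

lemma sum_le_dl (k L S : ℕ) : ∑ s ∈ Ico L S, (bb k s) ^ 2 ≤ dl k L := by
  unfold dl
  have h1 : Summable fun s : ℕ => (bb k (s + L)) ^ 2 := (summable_nat_add_iff L).2 (bb_summable k)
  have h2 : ∑ s ∈ Ico L S, (bb k s) ^ 2 = ∑ s ∈ Finset.range (S - L), (bb k (s + L)) ^ 2 := by
    rw [Finset.sum_Ico_eq_sum_range]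
    refine Finset.sum_congr rfl fun s _ => ?_
    rw [add_comm]
  rw [h2]
  exact h1.sum_le_tsum _ fun s _ => sq_nonneg _

/-- Schur's test -/
lemma schur2 (b : ℕ → ℝ) (G : Finset ℕ) :
    ∑ s ∈ G, b s * ∑ s' ∈ G, b s' * Real.exp (1 - |(s:ℝ) - s'|) ≤ 12 * ∑ s ∈ G, (b s) ^ 2 := by
  have h1 : ∑ s ∈ G, b s * ∑ s' ∈ G, b s' * Real.exp (1 - |(s:ℝ) - s'|) ≤
      ∑ s ∈ G, ∑ s' ∈ G, ((b s) ^ 2 / 2 + (b s') ^ 2 / 2) * Real.exp (1 - |(s:ℝ) - s'|) := by
    refine Finset.sum_le_sum fun s _ => ?_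
    rw [Finset.mul_sum]
    refine Finset.sum_le_sum fun s' _ => ?_
    have h2 : b s * b s' ≤ (b s) ^ 2 / 2 + (b s') ^ 2 / 2 := by nlinarith [sq_nonneg (b s - b s')]
    have h3 := mul_le_mul_of_nonneg_right h2 (Real.exp_pos (1 - |(s:ℝ) - s'|)).le
    linarith
  have h4 : ∑ s ∈ G, ∑ s' ∈ G, ((b s) ^ 2 / 2 + (b s') ^ 2 / 2) * Real.exp (1 - |(s:ℝ) - s'|) =
      ∑ s ∈ G, (b s) ^ 2 * ∑ s' ∈ G, Real.exp (1 - |(s:ℝ) - s'|) := by
    have h5 : ∑ s ∈ G, ∑ s' ∈ G, ((b s) ^ 2 / 2 + (b s') ^ 2 / 2) * Real.exp (1 - |(s:ℝ) - s'|) =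
        ∑ s ∈ G, ∑ s' ∈ G, (b s) ^ 2 / 2 * Real.exp (1 - |(s:ℝ) - s'|) +
        ∑ s ∈ G, ∑ s' ∈ G, (b s') ^ 2 / 2 * Real.exp (1 - |(s:ℝ) - s'|) := by
      rw [← Finset.sum_add_distrib]
      refine Finset.sum_congr rfl fun s _ => ?_
      rw [← Finset.sum_add_distrib]
      refine Finset.sum_congr rfl fun s' _ => ?_
      ring
    have h6 : ∑ s ∈ G, ∑ s' ∈ G, (b s') ^ 2 / 2 * Real.exp (1 - |(s:ℝ) - s'|) =
        ∑ s ∈ G, ∑ s' ∈ G, (b s) ^ 2 / 2 * Real.exp (1 - |(s:ℝ) - s'|) := by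
      rw [Finset.sum_comm]
      refine Finset.sum_congr rfl fun s _ => Finset.sum_congr rfl fun s' _ => ?_
      rw [abs_sub_comm]
    rw [h5, h6, ← Finset.sum_add_distrib]
    refine Finset.sum_congr rfl fun s _ => ?_
    rw [← Finset.sum_add_distrib, Finset.mul_sum]
    refine Finset.sum_congr rfl fun s' _ => ?_
    ring
  rw [h4] at h1
  refine h1.trans ?_
  rw [Finset.mul_sum]
  refine Finset.sum_le_sum fun s _ => ?_
  have := schur_row G s
  nlinarith [sq_nonneg (b s)]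

/-- **mean value of an even power over an interval of length one** -/
theorem mean_pow (k : ℕ) {F : Finset ℕ} {L : ℕ} (hL : 1 ≤ L) (hF : ∀ p ∈ F, p.Prime ∧ L ≤ lg p) (c : ℕ → ℂ) {M : ℝ}
    (hM : 0 ≤ M) (hc : ∀ p ∈ F, ‖c p‖ ≤ M * (1 / (p:ℝ))) :
    ∫ τ in (0 : ℝ)..1, ‖∑ p ∈ F, c p * Complex.exp (-(τ * Real.log p) * Complex.I)‖ ^ (2 * (k + 1)) ≤
      72 * Real.exp (k + 1) * M ^ (2 * (k + 1)) * dl k L := by
  obtain ⟨S0, hS0⟩ : ∃ S0 : ℕ, ∀ p ∈ F, lg p < S0 := by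
    refine ⟨(F.sup lg) + 1, fun p hp => ?_⟩
    have := Finset.le_sup (f := lg) hp
    omega
  have hF1 : ∀ p ∈ F, p.Prime ∧ 1 ≤ lg p ∧ lg p < S0 := fun p hp => ⟨(hF p hp).1, by have := (hF p hp).2; omega, hS0 p hp⟩
  have hpow : ∀ τ : ℝ, ‖∑ p ∈ F, c p * Complex.exp (-(τ * Real.log p) * Complex.I)‖ ^ (2 * (k + 1)) =
      ‖∑ x ∈ Fk F (k + 1), cf c (k + 1) x *
        Complex.exp (-(τ * (fr (fun p : ℕ => Real.log p) (k + 1) x : ℝ)) * Complex.I)‖ ^ 2 := by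
    intro τ
    rw [← pow_exp F c (fun p : ℕ => Real.log p) τ (k + 1), norm_pow, ← pow_mul, mul_comm]
  simp_rw [hpow]
  refine (gauss_mean (Fk F (k + 1)) (cf c (k + 1)) (fr (fun p : ℕ => Real.log p) (k + 1))).trans ?_
  set nf := cf (fun p : ℕ => 1 / (p:ℝ)) (k + 1) with hnf
  have hnf0 : ∀ x, 0 ≤ nf x := cf_nonneg (k + 1)
  have h1 : ∑ x ∈ Fk F (k + 1), ∑ y ∈ Fk F (k + 1), ‖cf c (k + 1) x‖ * ‖cf c (k + 1) y‖ *
      Real.exp (-(fr (fun p : ℕ => Real.log p) (k + 1) x - fr (fun p : ℕ => Real.log p) (k + 1) y) ^ 2) ≤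
      M ^ (2 * (k + 1)) * Real.exp (k + 1) * ∑ x ∈ Fk F (k + 1), nf x * ∑ y ∈ Fk F (k + 1), nf y *
        Real.exp (1 - |((fr lg (k + 1) x : ℕ) : ℝ) - ((fr lg (k + 1) y : ℕ) : ℝ)|) := by
    rw [Finset.mul_sum]
    refine Finset.sum_le_sum fun x hx => ?_
    rw [Finset.mul_sum, Finset.mul_sum]
    refine Finset.sum_le_sum fun y hy => ?_
    have h2 := cf_norm hM hc (k + 1) x hx
    have h3 := cf_norm hM hc (k + 1) y hy
    obtain ⟨h4, h5⟩ := fr_lg (fun p hp => (hF p hp).1) (k + 1) x hx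
    obtain ⟨h6, h7⟩ := fr_lg (fun p hp => (hF p hp).1) (k + 1) y hy
    set Δ := fr (fun p : ℕ => Real.log p) (k + 1) x - fr (fun p : ℕ => Real.log p) (k + 1) y with hΔ
    have h8 : |((fr lg (k + 1) x : ℕ) : ℝ) - ((fr lg (k + 1) y : ℕ) : ℝ)| ≤ |Δ| + (k + 1) := by
      push_cast at h5 h7
      rw [abs_le]
      have := neg_abs_le Δ
      have := le_abs_self Δ
      constructor <;> linarith
    have h9 : Real.exp (-Δ ^ 2) ≤ Real.exp (k + 1) *
        Real.exp (1 - |((fr lg (k + 1) x : ℕ) : ℝ) - ((fr lg (k + 1) y : ℕ) : ℝ)|) := by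
      rw [← Real.exp_add]
      apply Real.exp_le_exp.2
      have h10 : |Δ| ≤ 1 + Δ ^ 2 := by
        rw [← sq_abs]
        nlinarith [sq_nonneg (|Δ| - 1), abs_nonneg Δ]
      linarith
    calc ‖cf c (k + 1) x‖ * ‖cf c (k + 1) y‖ * Real.exp (-Δ ^ 2)
        ≤ (M ^ (k + 1) * nf x) * (M ^ (k + 1) * nf y) * (Real.exp (k + 1) *
          Real.exp (1 - |((fr lg (k + 1) x : ℕ) : ℝ) - ((fr lg (k + 1) y : ℕ) : ℝ)|)) := by
          apply mul_le_mul _ h9 (Real.exp_pos _).le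
          · exact mul_nonneg (mul_nonneg (by positivity) (hnf0 x)) (mul_nonneg (by positivity) (hnf0 y))
          · exact mul_le_mul h2 h3 (norm_nonneg _) (mul_nonneg (by positivity) (hnf0 x))
      _ = _ := by ring
  -- densities
  set G := Ico L ((k + 1) * S0) with hG
  have hind : ∀ g : ℕ → ℝ, (∀ l, 0 ≤ g l) →
      ∑ x ∈ Fk F (k + 1), nf x * g (fr lg (k + 1) x) ≤ ∑ s ∈ G, bb k s * g s := by
    intro g hg
    have h2 := dens hF1 k (fun l => if L ≤ l then g l else 0) (fun l => by split_ifs; exacts [hg l, le_rfl])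
    have h3 : ∑ x ∈ Fk F (k + 1), cf (fun p : ℕ => 1 / (p:ℝ)) (k + 1) x *
        (fun l => if L ≤ l then g l else 0) (fr lg (k + 1) x) = ∑ x ∈ Fk F (k + 1), nf x * g (fr lg (k + 1) x) := by
      refine Finset.sum_congr rfl fun x hx => ?_
      simp only [if_pos (fr_lg_ge (fun p hp => (hF p hp).2) k x hx), hnf]
    rw [h3] at h2
    refine h2.trans (le_of_eq ?_)
    have h4 : ∀ s ∈ Ico 1 ((k + 1) * S0), bb k s * (if L ≤ s then g s else 0) = if L ≤ s then bb k s * g s else 0 := by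
      intro s _
      split_ifs
      · rfl
      · rw [mul_zero]
    rw [Finset.sum_congr rfl h4, ← Finset.sum_filter]
    congr 1
    ext s
    rw [mem_filter, mem_Ico, hG, mem_Ico]
    omega
  have h2 : ∑ x ∈ Fk F (k + 1), nf x * ∑ y ∈ Fk F (k + 1), nf y *
      Real.exp (1 - |((fr lg (k + 1) x : ℕ) : ℝ) - ((fr lg (k + 1) y : ℕ) : ℝ)|) ≤ 12 * dl k L := by
    calc ∑ x ∈ Fk F (k + 1), nf x * ∑ y ∈ Fk F (k + 1), nf y *
          Real.exp (1 - |((fr lg (k + 1) x : ℕ) : ℝ) - ((fr lg (k + 1) y : ℕ) : ℝ)|)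
        ≤ ∑ x ∈ Fk F (k + 1), nf x * ∑ s ∈ G, bb k s * Real.exp (1 - |((fr lg (k + 1) x : ℕ) : ℝ) - (s:ℝ)|) := by
          refine Finset.sum_le_sum fun x _ => mul_le_mul_of_nonneg_left ?_ (hnf0 x)
          exact hind (fun s => Real.exp (1 - |((fr lg (k + 1) x : ℕ) : ℝ) - (s:ℝ)|)) fun _ => (Real.exp_pos _).le
      _ ≤ ∑ s' ∈ G, bb k s' * ∑ s ∈ G, bb k s * Real.exp (1 - |(s':ℝ) - (s:ℝ)|) :=
          hind (fun s' => ∑ s ∈ G, bb k s * Real.exp (1 - |(s':ℝ) - (s:ℝ)|)) fun _ =>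
            Finset.sum_nonneg fun _ _ => mul_nonneg (bb_nonneg _ _) (Real.exp_pos _).le
      _ ≤ 12 * ∑ s ∈ G, (bb k s) ^ 2 := schur2 _ _
      _ ≤ 12 * dl k L := mul_le_mul_of_nonneg_left (sum_le_dl k L _) (by norm_num)
  calc 6 * ∑ x ∈ Fk F (k + 1), ∑ y ∈ Fk F (k + 1), ‖cf c (k + 1) x‖ * ‖cf c (k + 1) y‖ *
      Real.exp (-(fr (fun p : ℕ => Real.log p) (k + 1) x - fr (fun p : ℕ => Real.log p) (k + 1) y) ^ 2)
      ≤ 6 * (M ^ (2 * (k + 1)) * Real.exp (k + 1) * (12 * dl k L)) := by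
        apply mul_le_mul_of_nonneg_left _ (by norm_num)
        exact h1.trans (mul_le_mul_of_nonneg_left h2 (by positivity))
    _ = _ := by ring

end Run7.h113.LE
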