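import Mathlib
import Pool.Agent.N534.EC.Local
import Pool.Agent.W350.EdgeEC
import Pool.Agent.Run7.h113.LE.Pow

/-!
The logarithm of the `L`-series of an elliptic curve over a number field: blocks of places.
-/

set_option autoImplicit false

open MeasureTheory Filter Topology Finset NumberField IsDedekindDomain
open Pool.Agent.H921R2.TatePole (nm two_le_nm below deg nm_eq below_le_nm card_above)
open Pool.Agent.H341R2.EC
open Pool.Agent.R433.MD (lf norm_nm_cpow lf_sub_one nm_pos)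
open Pool.Agent.N534.EC (ll ll_near ll_all trc_hasse)
open Pool.Agent.W350.EdgeV (FV mem_FV)
open Pool.Agent.W350.EdgeNF (hfin)
open Pool.Agent.W350.Edge (lg lg_le lt_lg)

namespace Run7.h113.LE

section
variable {K : Type} [Field K] [NumberField K]

lemma deg_le (v : HeightOneSpectrum (𝓞 K)) : deg v ≤ Module.finrank ℚ K := by
  obtain ⟨h1, h2, h3⟩ := nm_eq v
  have hdvd : v.asIdeal ∣ Ideal.span {(((below v : ℕ) : 𝓞 K))} := by
    rw [Ideal.dvd_iff_le, Ideal.span_singleton_le_iff_mem]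
    exact h3
  have h4 : Ideal.absNorm v.asIdeal ∣ Ideal.absNorm (Ideal.span {(((below v : ℕ) : 𝓞 K))}) :=
    map_dvd Ideal.absNorm hdvd
  rw [Ideal.absNorm_span_natCast, RingOfIntegers.rank] at h4
  have hp := (below v).prop
  have h5 := Nat.le_of_dvd (pow_pos hp.pos _) h4
  have h6 : (below v : ℕ) ^ deg v ≤ (below v : ℕ) ^ Module.finrank ℚ K := by
    rw [← h1]; exact h5
  exact (Nat.pow_le_pow_iff_right hp.one_lt).mp h6

lemma finrank_pos' : 0 < Module.finrank ℚ K := Module.finrank_pos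

lemma below_ge {v : HeightOneSpectrum (𝓞 K)} {P0 d : ℕ} (hd : Module.finrank ℚ K ≤ d) (h : P0 ^ d ≤ nm v) :
    P0 ≤ (below v : ℕ) := by
  obtain ⟨h1, h2, h3⟩ := nm_eq v
  have hp := (below v).prop
  have h4 : nm v ≤ (below v : ℕ) ^ d := by
    rw [h1]
    exact Nat.pow_le_pow_right hp.pos ((deg_le v).trans hd)
  have h5 : 0 < d := lt_of_lt_of_le (finrank_pos' (K := K)) hd
  exact (Nat.pow_le_pow_iff_left h5.ne').1 (h.trans h4)

lemma not_six {v : HeightOneSpectrum (𝓞 K)} (h : 4 ≤ (below v : ℕ)) : (6 : 𝓞 K) ∉ v.asIdeal := by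
  intro h6
  have hp := (below v).prop
  have h1 := (nm_eq v).2.2
  have hc : Nat.Coprime (below v : ℕ) 6 := by
    rw [Nat.Prime.coprime_iff_not_dvd hp]
    intro hd
    have h2 : (below v : ℕ) ∣ 2 * 3 := hd
    rcases (Nat.Prime.dvd_mul hp).1 h2 with h3 | h3
    · have := Nat.le_of_dvd (by norm_num) h3
      omega
    · have := Nat.le_of_dvd (by norm_num) h3
      omega
  have h2 : ((Nat.gcdA (below v : ℕ) 6 : ℤ) : 𝓞 K) * ((below v : ℕ) : 𝓞 K) +
      ((Nat.gcdB (below v : ℕ) 6 : ℤ) : 𝓞 K) * 6 = 1 := by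
    have h3 := Nat.gcd_eq_gcd_ab (below v : ℕ) 6
    rw [Nat.coprime_iff_gcd_eq_one.1 hc] at h3
    have h4 : (((below v : ℕ) : ℤ) * Nat.gcdA (below v : ℕ) 6 + (6:ℕ) * Nat.gcdB (below v : ℕ) 6 : ℤ) = 1 := by
      rw [← h3]; norm_num
    have h5 := congrArg (fun z : ℤ => (z : 𝓞 K)) h4
    push_cast at h5
    linear_combination h5
  have h3 : (1 : 𝓞 K) ∈ v.asIdeal := by
    rw [← h2]
    exact v.asIdeal.add_mem (v.asIdeal.mul_mem_left _ h1) (v.asIdeal.mul_mem_left _ h6)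
  exact v.isPrime.ne_top ((Ideal.eq_top_iff_one _).2 h3)

lemma sum_sq_tail {P0 : ℕ} (hP : 1 ≤ P0) (G : Finset ℕ) (hG : ∀ n ∈ G, P0 ≤ n) :
    (∑ n ∈ G, (1:ℝ) / (n:ℝ) ^ 2 : ℝ) ≤ (2:ℝ) / (P0:ℝ) := by
  have hP0 : (0:ℝ) < P0 := by exact_mod_cast hP
  have h1 : ∀ N : ℕ, P0 ≤ N → (∑ n ∈ Ico P0 N, (1:ℝ) / (n:ℝ) ^ 2 : ℝ) ≤ (2:ℝ) / (P0:ℝ) - (2:ℝ) / (N:ℝ) := by
    intro N hN
    induction N, hN using Nat.le_induction with
    | base => simp
    | succ N hN ih =>
      rw [Finset.sum_Ico_succ_top hN]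
      have hN0 : (1:ℝ) ≤ N := by
        have : 1 ≤ N := hP.trans hN
        exact_mod_cast this
      have h2 : (1:ℝ) / (N:ℝ) ^ 2 ≤ (2:ℝ) / (N:ℝ) - (2:ℝ) / ((N:ℝ) + 1) := by
        rw [div_sub_div _ _ (by positivity) (by positivity), div_le_div_iff₀ (by positivity) (by positivity)]
        nlinarith
      rw [Nat.cast_add, Nat.cast_one]
      linarith
  rcases G.eq_empty_or_nonempty with h | h
  · rw [h, Finset.sum_empty]; positivity
  have h2 : G ⊆ Ico P0 (G.sup id + 1) := by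
    intro n hn
    rw [mem_Ico]
    have := Finset.le_sup (f := id) hn
    simp only [id] at this
    exact ⟨hG n hn, by omega⟩
  have h3 : P0 ≤ G.sup id + 1 := by
    obtain ⟨n, hn⟩ := h
    have := Finset.le_sup (f := id) hn
    simp only [id] at this
    have := hG n hn
    omega
  refine (Finset.sum_le_sum_of_subset_of_nonneg h2 fun _ _ _ => by positivity).trans ((h1 _ h3).trans ?_)
  have : 0 ≤ 2 / ((G.sup id + 1 : ℕ) : ℝ) := by positivity
  linarith

lemma sum_below {P0 : ℕ} (hP : 1 ≤ P0) (G : Finset (HeightOneSpectrum (𝓞 K))) (hG : ∀ v ∈ G, P0 ≤ (below v : ℕ)) :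
    (∑ v ∈ G, (1:ℝ) / ((below v : ℕ) : ℝ) ^ 2 : ℝ) ≤ (Module.finrank ℚ K : ℝ) * ((2:ℝ) / (P0:ℝ)) := by
  classical
  have hmaps : ∀ v ∈ G, (below v : ℕ) ∈ G.image (fun v => (below v : ℕ)) := fun v hv => Finset.mem_image_of_mem _ hv
  rw [← sum_fiberwise_of_maps_to hmaps]
  have h1 : ∀ n ∈ G.image (fun v => (below v : ℕ)), ∑ v ∈ G with (below v : ℕ) = n, 1 / ((below v : ℕ) : ℝ) ^ 2 ≤
      Module.finrank ℚ K * (1 / (n:ℝ) ^ 2) := by
    intro n hn
    rw [Finset.mem_image] at hn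
    obtain ⟨w, hw, rfl⟩ := hn
    have h2 : ∀ v ∈ G.filter (fun v => (below v : ℕ) = (below w : ℕ)), 1 / ((below v : ℕ) : ℝ) ^ 2 =
        1 / ((below w : ℕ) : ℝ) ^ 2 := by
      intro v hv
      rw [(mem_filter.1 hv).2]
    rw [Finset.sum_congr rfl h2, Finset.sum_const, nsmul_eq_mul]
    apply mul_le_mul_of_nonneg_right _ (by positivity)
    have h3 := card_above (below w) (G.filter (fun v => (below v : ℕ) = (below w : ℕ))) (by
      intro v hv
      exact Subtype.ext (mem_filter.1 hv).2)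
    exact_mod_cast h3
  refine (Finset.sum_le_sum h1).trans ?_
  rw [← Finset.mul_sum]
  apply mul_le_mul_of_nonneg_left _ (Nat.cast_nonneg _)
  apply sum_sq_tail hP
  intro n hn
  rw [Finset.mem_image] at hn
  obtain ⟨w, hw, rfl⟩ := hn
  exact hG w hw

lemma card_FV (Y : ℕ) : (FV nm (hfin (K := K)) Y).card ≤ Module.finrank ℚ K * Y := by
  classical
  have hmaps : ∀ v ∈ FV nm (hfin (K := K)) Y, (below v : ℕ) ∈ Finset.range Y := by
    intro v hv
    rw [mem_FV] at hv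
    rw [Finset.mem_range]
    exact (below_le_nm v).trans_lt hv
  rw [Finset.card_eq_sum_card_fiberwise hmaps]
  have h1 : ∀ n ∈ Finset.range Y, ((FV nm (hfin (K := K)) Y).filter fun v => (below v : ℕ) = n).card ≤
      Module.finrank ℚ K := by
    intro n _
    by_cases h : ∃ w : HeightOneSpectrum (𝓞 K), (below w : ℕ) = n
    · obtain ⟨w, rfl⟩ := h
      exact card_above (below w) _ (by
        intro v hv
        exact Subtype.ext (mem_filter.1 hv).2)
    · have : (FV nm (hfin (K := K)) Y).filter (fun v => (below v : ℕ) = n) = ∅ := by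
        rw [Finset.filter_eq_empty_iff]
        intro v _ hv
        exact h ⟨v, hv⟩
      rw [this, Finset.card_empty]
      exact Nat.zero_le _
  refine (Finset.sum_le_sum h1).trans (le_of_eq ?_)
  rw [Finset.sum_const, Finset.card_range, smul_eq_mul, mul_comm]

/-- the partial sums of the logarithm of the `L`-series -/
noncomputable def Sx (V : HeightOneSpectrum (𝓞 K) → WeierstrassCurve (𝓞 K)) (x : ℕ) (u : ℂ) : ℂ :=
  ∑ v ∈ FV nm (hfin (K := K)) x, ll V u v

open Classical in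
/-- the coefficients at the primes -/
noncomputable def cc (V : HeightOneSpectrum (𝓞 K) → WeierstrassCurve (𝓞 K)) (σ : ℝ) (p : ℕ) : ℂ :=
  ∑ v ∈ (FV nm (hfin (K := K)) (p + 1)).filter (fun v => nm v = p), (trc V v : ℂ) * ((nm v : ℝ) ^ (-(3/2 + σ)) : ℝ)

lemma first_norm {V : HeightOneSpectrum (𝓞 K) → WeierstrassCurve (𝓞 K)} {v : HeightOneSpectrum (𝓞 K)}
    (h6 : (6 : 𝓞 K) ∉ v.asIdeal) {σ : ℝ} (hσ : 0 ≤ σ) :
    ‖(trc V v : ℂ) * ((nm v : ℝ) ^ (-(3/2 + σ)) : ℝ)‖ ≤ 2 * (1 / (nm v : ℝ)) := by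
  have hq : (2 : ℝ) ≤ nm v := by exact_mod_cast two_le_nm v
  rw [norm_mul, Complex.norm_real, Real.norm_of_nonneg (by positivity)]
  have e3 : ‖(trc V v : ℂ)‖ = |(trc V v : ℝ)| := by
    rw [← Complex.ofReal_intCast, Complex.norm_real, Real.norm_eq_abs]
  rw [e3]
  have h1 := trc_hasse V v h6
  have h2 : (nm v : ℝ) ^ (-(3/2 + σ)) ≤ (nm v : ℝ) ^ (-(3/2) : ℝ) :=
    Real.rpow_le_rpow_of_exponent_le (by linarith) (by linarith)
  have h3 : Real.sqrt (nm v) * (nm v : ℝ) ^ (-(3/2) : ℝ) = 1 / nm v := by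
    rw [Real.sqrt_eq_rpow, ← Real.rpow_add (by linarith), show (1/2 + -(3/2) : ℝ) = -1 by norm_num,
      Real.rpow_neg_one, one_div]
  calc |(trc V v : ℝ)| * (nm v : ℝ) ^ (-(3/2 + σ)) ≤ (2 * Real.sqrt (nm v)) * (nm v : ℝ) ^ (-(3/2) : ℝ) :=
        mul_le_mul h1 h2 (by positivity) (by positivity)
    _ = 2 * (Real.sqrt (nm v) * (nm v : ℝ) ^ (-(3/2) : ℝ)) := by ring
    _ = _ := by rw [h3]

lemma first_eq' (V : HeightOneSpectrum (𝓞 K) → WeierstrassCurve (𝓞 K)) (v : HeightOneSpectrum (𝓞 K)) (σ t : ℝ) :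
    (trc V v : ℂ) * ((nm v : ℕ) : ℂ) ^ (-((3 : ℂ) / 2 + ((σ:ℂ) + t * Complex.I))) =
      (trc V v : ℂ) * ((nm v : ℝ) ^ (-(3/2 + σ)) : ℝ) * Complex.exp (-(t * Real.log (nm v)) * Complex.I) := by
  have h0 : (0:ℝ) < nm v := by exact_mod_cast nm_pos v
  have hne : ((nm v : ℕ) : ℂ) ≠ 0 := by exact_mod_cast (nm_pos v).ne'
  rw [mul_assoc]
  congr 1
  have e1 : (-((3 : ℂ) / 2 + ((σ:ℂ) + t * Complex.I))) = ((-(3/2 + σ) : ℝ) : ℂ) + (-(t * Complex.I)) := by
    push_cast; ring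
  rw [e1, Complex.cpow_add _ _ hne]
  congr 1
  · rw [Complex.ofReal_cpow h0.le]
    push_cast
    rfl
  · rw [Complex.cpow_def_of_ne_zero hne]
    congr 1
    rw [← Complex.natCast_log]
    ring

/-- number of places of prime norm `p` -/
lemma card_nm {p : ℕ} (hp : p.Prime) (G : Finset (HeightOneSpectrum (𝓞 K))) (hG : ∀ v ∈ G, nm v = p) :
    G.card ≤ Module.finrank ℚ K := by
  refine card_above ⟨p, hp⟩ G fun v hv => ?_
  obtain ⟨h1, h2, h3⟩ := nm_eq v
  apply Subtype.ext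
  have h4 : (below v : ℕ) ∣ p := by
    rw [← hG v hv, h1]
    exact dvd_pow_self _ h2.ne'
  exact (Nat.prime_dvd_prime_iff_eq (below v).prop hp).1 h4

lemma cc_norm {V : HeightOneSpectrum (𝓞 K) → WeierstrassCurve (𝓞 K)} {σ : ℝ} (hσ : 0 ≤ σ) {p : ℕ} (hp : p.Prime)
    (hp4 : 4 ≤ p) : ‖cc V σ p‖ ≤ (2 * Module.finrank ℚ K) * (1 / (p:ℝ)) := by
  classical
  unfold cc
  set G := (FV nm (hfin (K := K)) (p + 1)).filter (fun v => nm v = p) with hG
  have hGm : ∀ v ∈ G, nm v = p := fun v hv => (mem_filter.1 hv).2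
  have h1 : ∀ v ∈ G, ‖(trc V v : ℂ) * ((nm v : ℝ) ^ (-(3/2 + σ)) : ℝ)‖ ≤ 2 * (1 / (p:ℝ)) := by
    intro v hv
    have h2 := hGm v hv
    obtain ⟨h3, h4, h5⟩ := nm_eq v
    have h6 : (below v : ℕ) = p := by
      have h7 : (below v : ℕ) ∣ p := by
        rw [← h2, h3]
        exact dvd_pow_self _ h4.ne'
      exact (Nat.prime_dvd_prime_iff_eq (below v).prop hp).1 h7
    have h8 := first_norm (V := V) (v := v) (not_six (by omega)) hσ
    rwa [h2] at h8 ⊢
  refine (norm_sum_le_of_le _ h1).trans ?_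
  rw [Finset.sum_const, nsmul_eq_mul]
  have h9 : (G.card : ℝ) ≤ Module.finrank ℚ K := by exact_mod_cast card_nm hp G hGm
  calc (G.card : ℝ) * (2 * (1 / (p:ℝ))) ≤ Module.finrank ℚ K * (2 * (1 / (p:ℝ))) :=
        mul_le_mul_of_nonneg_right h9 (by positivity)
    _ = _ := by ring

/-- **decomposition of a block** -/
theorem decomp (V : HeightOneSpectrum (𝓞 K) → WeierstrassCurve (𝓞 K)) {d P0 : ℕ} (hd : Module.finrank ℚ K ≤ d)
    (hP : 4 ≤ P0) {x : ℕ} (hx : P0 ^ d ≤ x) {σ : ℝ} (hσ : 0 ≤ σ) (t : ℝ) :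
    ‖(Sx V x ((σ:ℂ) + t * Complex.I) - Sx V (P0 ^ d) ((σ:ℂ) + t * Complex.I)) -
      ∑ p ∈ (Ico (P0 ^ d) x).filter Nat.Prime, cc V σ p * Complex.exp (-(t * Real.log p) * Complex.I)‖ ≤
      24 * d / P0 := by
  classical
  set u : ℂ := (σ:ℂ) + t * Complex.I with hu
  have hure : u.re = σ := by simp [hu]
  set G := (FV nm (hfin (K := K)) x).filter (fun v => P0 ^ d ≤ nm v) with hG
  have hGm : ∀ v ∈ G, P0 ^ d ≤ nm v ∧ nm v < x := by
    intro v hv
    rw [hG, mem_filter, mem_FV] at hv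
    exact ⟨hv.2, hv.1⟩
  have hGb : ∀ v ∈ G, P0 ≤ (below v : ℕ) := fun v hv => below_ge hd (hGm v hv).1
  have hG6 : ∀ v ∈ G, (6 : 𝓞 K) ∉ v.asIdeal := fun v hv => not_six (hP.trans (hGb v hv))
  have hdiff : Sx V x u - Sx V (P0 ^ d) u = ∑ v ∈ G, ll V u v := by
    unfold Sx
    rw [sub_eq_iff_eq_add, ← Finset.sum_filter_add_sum_filter_not (FV nm (hfin (K := K)) x) (fun v => P0 ^ d ≤ nm v)]
    congr 1
    apply Finset.sum_congr _ fun _ _ => rfl
    ext v
    rw [mem_filter, mem_FV, mem_FV]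
    omega
  set f : HeightOneSpectrum (𝓞 K) → ℂ := fun v => (trc V v : ℂ) * ((nm v : ℕ) : ℂ) ^ (-((3 : ℂ) / 2 + u)) with hf
  have hmain : ∑ v ∈ G with (nm v).Prime, f v =
      ∑ p ∈ (Ico (P0 ^ d) x).filter Nat.Prime, cc V σ p * Complex.exp (-(t * Real.log p) * Complex.I) := by
    have hmaps : ∀ v ∈ G.filter (fun v => (nm v).Prime), nm v ∈ (Ico (P0 ^ d) x).filter Nat.Prime := by
      intro v hv
      rw [mem_filter] at hv
      rw [mem_filter, mem_Ico]
      exact ⟨hGm v hv.1, hv.2⟩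
    rw [← sum_fiberwise_of_maps_to hmaps]
    refine Finset.sum_congr rfl fun p hp => ?_
    rw [mem_filter, mem_Ico] at hp
    unfold cc
    rw [Finset.sum_mul]
    apply Finset.sum_congr
    · ext v
      rw [hG]
      simp only [mem_filter, mem_FV]
      constructor
      · rintro ⟨⟨⟨h1, h2⟩, h3⟩, h4⟩
        exact ⟨by omega, h4⟩
      · rintro ⟨h1, h2⟩
        exact ⟨⟨⟨by omega, by omega⟩, by rw [h2]; exact hp.2⟩, h2⟩
    · intro v hv
      rw [mem_filter] at hv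
      rw [hf]
      simp only [hu]
      rw [first_eq', hv.2]
  rw [← hmain, hdiff]
  have e1 : ∑ v ∈ G, ll V u v - ∑ v ∈ G with (nm v).Prime, f v =
      ∑ v ∈ G, (ll V u v - f v) + ∑ v ∈ G with ¬ (nm v).Prime, f v := by
    rw [Finset.sum_sub_distrib, ← Finset.sum_filter_add_sum_filter_not G (fun v => (nm v).Prime) f]
    ring
  rw [e1]
  have hd0 : (0:ℝ) ≤ d := Nat.cast_nonneg d
  have hP0 : (0:ℝ) < P0 := by
    have : 0 < P0 := by omega
    exact_mod_cast this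
  have hdr : (Module.finrank ℚ K : ℝ) ≤ d := by exact_mod_cast hd
  have hb1 : ‖∑ v ∈ G, (ll V u v - f v)‖ ≤ 10 * (d * (2 / P0)) := by
    have h1 : ∀ v ∈ G, ‖ll V u v - f v‖ ≤ 10 * (1 / ((below v : ℕ) : ℝ) ^ 2) := by
      intro v hv
      refine (ll_near V v (hG6 v hv) u (by rw [hure]; exact hσ)).trans ?_
      apply mul_le_mul_of_nonneg_left _ (by norm_num)
      have h2 : ((below v : ℕ) : ℝ) ≤ nm v := by exact_mod_cast below_le_nm v
      have h3 : (0:ℝ) < ((below v : ℕ) : ℝ) := by exact_mod_cast (below v).prop.pos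
      exact one_div_le_one_div_of_le (by positivity) (pow_le_pow_left₀ h3.le h2 2)
    refine (norm_sum_le_of_le _ h1).trans ?_
    rw [← Finset.mul_sum]
    apply mul_le_mul_of_nonneg_left _ (by norm_num)
    refine (sum_below (by omega) G hGb).trans ?_
    exact mul_le_mul_of_nonneg_right hdr (by positivity)
  have hb2 : ‖∑ v ∈ G with ¬ (nm v).Prime, f v‖ ≤ 2 * (d * (2 / P0)) := by
    have h1 : ∀ v ∈ G.filter (fun v => ¬ (nm v).Prime), ‖f v‖ ≤ 2 * (1 / ((below v : ℕ) : ℝ) ^ 2) := by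
      intro v hv
      rw [mem_filter] at hv
      rw [hf]
      simp only [hu]
      rw [first_eq', norm_mul]
      have h2 : ‖Complex.exp (-(t * Real.log (nm v)) * Complex.I)‖ = 1 := by
        rw [show (-((t:ℂ) * (Real.log (nm v) : ℝ)) * Complex.I) = ((-(t * Real.log (nm v)) : ℝ) : ℂ) * Complex.I by
          push_cast; ring, Complex.norm_exp_ofReal_mul_I]
      rw [h2, mul_one]
      refine (first_norm (hG6 v hv.1) hσ).trans ?_
      apply mul_le_mul_of_nonneg_left _ (by norm_num)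
      obtain ⟨h3, h4, h5⟩ := nm_eq v
      have h6 : 2 ≤ deg v := by
        by_contra h7
        have h8 : deg v = 1 := by omega
        rw [h8, pow_one] at h3
        exact hv.2 (by rw [h3]; exact (below v).prop)
      have h7 : (below v : ℕ) ^ 2 ≤ nm v := by
        rw [h3]
        exact Nat.pow_le_pow_right (below v).prop.pos h6
      have h8 : (0:ℝ) < ((below v : ℕ) : ℝ) := by exact_mod_cast (below v).prop.pos
      exact one_div_le_one_div_of_le (by positivity) (by exact_mod_cast h7)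
    refine (norm_sum_le_of_le _ h1).trans ?_
    rw [← Finset.mul_sum]
    apply mul_le_mul_of_nonneg_left _ (by norm_num)
    refine (sum_below (P0 := P0) (by omega) _ fun v hv => hGb v (mem_filter.1 hv).1).trans ?_
    exact mul_le_mul_of_nonneg_right hdr (by positivity)
  refine (norm_add_le _ _).trans ((add_le_add hb1 hb2).trans (le_of_eq ?_))
  ring

end

end Run7.h113.LE
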