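import Mathlib
import Pool.Agent.Run7.h113.LE.Pl

/-!
Stepanov norms of the tails of the logarithm of the `L`-series.
-/

set_option autoImplicit false

open MeasureTheory Filter Topology Finset NumberField IsDedekindDomain
open scoped ENNReal
open Pool.Agent.H921R2.TatePole (nm two_le_nm below deg nm_eq below_le_nm card_above)
open Pool.Agent.H341R2.EC
open Pool.Agent.R433.MD (lf norm_nm_cpow lf_sub_one nm_pos)
open Pool.Agent.N534.EC (ll ll_near ll_all trc_hasse)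
open Pool.Agent.W350.EdgeV (FV mem_FV)
open Pool.Agent.W350.EdgeNF (hfin)
open Pool.Agent.W350.Edge (lg lg_le lt_lg)

namespace Run7.h113.LE

/-- the measure on a unit window -/
noncomputable def mu (T : ℝ) : Measure ℝ := volume.restrict (Set.Icc T (T + 1))

instance (T : ℝ) : IsProbabilityMeasure (mu T) := by
  constructor
  unfold mu
  rw [Measure.restrict_apply_univ, Real.volume_Icc]
  simp

lemma eLp_of_int {f : ℝ → ℂ} (hf : Continuous f) (T : ℝ) (m : ℕ) (hm : 0 < m) {ε : ℝ} (hε : 0 ≤ ε)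
    (h : ∫ t in T..(T + 1), ‖f t‖ ^ m ≤ ε ^ m) : eLpNorm f (m : ℝ≥0∞) (mu T) ≤ ENNReal.ofReal ε := by
  have hm0 : (m : ℝ≥0∞) ≠ 0 := by exact_mod_cast hm.ne'
  rw [eLpNorm_eq_lintegral_rpow_enorm_toReal hm0 (ENNReal.natCast_ne_top m)]
  have e1 : ((m : ℝ≥0∞)).toReal = (m:ℝ) := by simp
  rw [e1]
  have hmr : (0:ℝ) < m := by exact_mod_cast hm
  have h1 : ∫⁻ t, ‖f t‖ₑ ^ (m:ℝ) ∂(mu T) ≤ (ENNReal.ofReal ε) ^ (m:ℝ) := by
    have h2 : ∀ t, ‖f t‖ₑ ^ (m:ℝ) = ENNReal.ofReal (‖f t‖ ^ m) := by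
      intro t
      rw [ENNReal.rpow_natCast, ← ofReal_norm, ENNReal.ofReal_pow (norm_nonneg _)]
    simp_rw [h2]
    rw [← ofReal_integral_eq_lintegral_ofReal]
    · rw [ENNReal.rpow_natCast, ← ENNReal.ofReal_pow hε]
      apply ENNReal.ofReal_le_ofReal
      unfold mu
      rw [integral_Icc_eq_integral_Ioc, ← intervalIntegral.integral_of_le (by linarith)]
      exact h
    · exact ((hf.norm.pow m).integrableOn_Icc)
    · exact Eventually.of_forall fun t => by positivity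
  calc (∫⁻ t, ‖f t‖ₑ ^ (m:ℝ) ∂(mu T)) ^ (1 / (m:ℝ)) ≤ ((ENNReal.ofReal ε) ^ (m:ℝ)) ^ (1 / (m:ℝ)) :=
        ENNReal.rpow_le_rpow h1 (by positivity)
    _ = ENNReal.ofReal ε := by
        rw [← ENNReal.rpow_mul, mul_one_div_cancel hmr.ne', ENNReal.rpow_one]

lemma eLp_bdd {f : ℝ → ℂ} (T : ℝ) (p : ℝ≥0∞) {C : ℝ} (h : ∀ t, ‖f t‖ ≤ C) :
    eLpNorm f p (mu T) ≤ ENNReal.ofReal C := by
  refine (eLpNorm_le_of_ae_bound (Eventually.of_forall h)).trans (le_of_eq ?_)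
  rw [measure_univ, ENNReal.one_rpow, one_mul]

/-- the main part -/
lemma main_int (k : ℕ) {F : Finset ℕ} {L : ℕ} (hL : 1 ≤ L) (hF : ∀ p ∈ F, p.Prime ∧ L ≤ lg p) (c : ℕ → ℂ) {M : ℝ}
    (hM : 0 ≤ M) (hc : ∀ p ∈ F, ‖c p‖ ≤ M * (1 / (p:ℝ))) (T : ℝ) :
    ∫ t in T..(T + 1), ‖∑ p ∈ F, c p * Complex.exp (-(t * Real.log p) * Complex.I)‖ ^ (2 * (k + 1)) ≤
      72 * Real.exp (k + 1) * M ^ (2 * (k + 1)) * dl k L := by
  have h1 := mean_pow k hL hF (fun p => c p * Complex.exp (-(T * Real.log p) * Complex.I)) hM (fun p hp => by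
    rw [norm_mul, show (-((T:ℂ) * (Real.log p : ℝ)) * Complex.I) = ((-(T * Real.log p) : ℝ) : ℂ) * Complex.I by
      push_cast; ring, Complex.norm_exp_ofReal_mul_I, mul_one]
    exact hc p hp)
  refine le_trans (le_of_eq ?_) h1
  have h2 := intervalIntegral.integral_comp_add_right (a := 0) (b := 1)
    (fun t : ℝ => ‖∑ p ∈ F, c p * Complex.exp (-(t * Real.log p) * Complex.I)‖ ^ (2 * (k + 1))) T
  rw [zero_add, add_comm 1 T] at h2
  rw [← h2]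
  apply intervalIntegral.integral_congr
  intro τ _
  simp only
  congr 2
  apply Finset.sum_congr rfl
  intro p _
  rw [mul_assoc, ← Complex.exp_add]
  congr 2
  push_cast
  ring

section
variable {K : Type} [Field K] [NumberField K]

lemma lf_ball (V : HeightOneSpectrum (𝓞 K) → WeierstrassCurve (𝓞 K)) (v : HeightOneSpectrum (𝓞 K))
    (u : ℂ) (hu : 0 ≤ u.re) : ‖lf V (3 / 2 + u) v - 1‖ ≤ 96 / 100 := by
  have hq : (2 : ℝ) ≤ nm v := by exact_mod_cast two_le_nm v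
  have h0 := trc_le V v
  have h0' : |(trc V v : ℝ)| ≤ (nm v : ℝ) := by exact_mod_cast h0
  have h1 := lf_sub_one V (3 / 2 + u) v h0'
  rw [Pool.Agent.N534.EC.re_s] at h1
  have e1 : (nm v : ℝ) * (nm v : ℝ) ^ (-(3 / 2 + u.re)) = (nm v : ℝ) ^ (-(1 / 2) - u.re) := by
    rw [← Real.rpow_one_add' (by linarith) (by linarith)]
    congr 1
    ring
  rw [e1] at h1
  set w := (nm v : ℝ) ^ (-(1 / 2) - u.re) with hw
  have hw0 : 0 < w := by positivity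
  have h3 : (nm v : ℝ) ^ (1 - 2 * (3 / 2 + u.re)) ≤ 1 / 4 := by
    calc _ ≤ (nm v : ℝ) ^ (-(2 : ℝ)) := Real.rpow_le_rpow_of_exponent_le (by linarith) (by linarith)
      _ ≤ (2 : ℝ) ^ (-(2 : ℝ)) := Real.rpow_le_rpow_of_nonpos (by norm_num) hq (by norm_num)
      _ = 1 / 4 := by
          rw [Real.rpow_neg (by norm_num)]
          norm_num
  have h4 : w ≤ 71 / 100 := by
    have h5 : w ≤ (2 : ℝ) ^ (-(1 / 2) : ℝ) := by
      calc w ≤ (nm v : ℝ) ^ (-(1 / 2) : ℝ) :=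
            Real.rpow_le_rpow_of_exponent_le (by linarith) (by linarith)
        _ ≤ _ := Real.rpow_le_rpow_of_nonpos (by norm_num) hq (by norm_num)
    have h7 : ((2 : ℝ) ^ (-(1 / 2) : ℝ)) ^ 2 = 1 / 2 := by
      rw [← Real.rpow_natCast, ← Real.rpow_mul (by norm_num)]
      norm_num
    have h8 : (0 : ℝ) ≤ (2 : ℝ) ^ (-(1 / 2) : ℝ) := by positivity
    nlinarith
  linarith

lemma log_lip {z z' : ℂ} (hz : ‖z - 1‖ ≤ 96 / 100) (hz' : ‖z' - 1‖ ≤ 96 / 100) :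
    ‖Complex.log z - Complex.log z'‖ ≤ 25 * ‖z - z'‖ := by
  have hball : ∀ w ∈ Metric.closedBall (1:ℂ) (96 / 100), w ∈ Complex.slitPlane ∧ ‖w⁻¹‖ ≤ 25 := by
    intro w hw
    rw [mem_closedBall_iff_norm] at hw
    have h1 : 4 / 100 ≤ w.re := by
      have := Complex.abs_re_le_norm (w - 1)
      rw [Complex.sub_re, Complex.one_re, abs_le] at this
      linarith [this.1]
    refine ⟨Or.inl (by linarith), ?_⟩
    rw [norm_inv]
    have h2 : 4 / 100 ≤ ‖w‖ := h1.trans (Complex.re_le_norm w)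
    rw [inv_le_comm₀ (by linarith) (by norm_num)]
    linarith
  have h := Convex.norm_image_sub_le_of_norm_deriv_le (𝕜 := ℂ) (f := Complex.log)
    (s := Metric.closedBall (1:ℂ) (96 / 100)) (x := z') (y := z) (C := 25)
    (fun w hw => (Complex.differentiableAt_log (hball w hw).1))
    (fun w hw => by
      rw [(Complex.hasDerivAt_log (hball w hw).1).deriv]
      exact (hball w hw).2)
    (convex_closedBall _ _) (mem_closedBall_iff_norm.2 hz') (mem_closedBall_iff_norm.2 hz)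
  exact h

lemma lf_cont (V : HeightOneSpectrum (𝓞 K) → WeierstrassCurve (𝓞 K)) (v : HeightOneSpectrum (𝓞 K)) :
    Continuous fun s : ℂ => lf V s v := by
  have hne : ((nm v : ℕ) : ℂ) ≠ 0 := by exact_mod_cast (nm_pos v).ne'
  unfold lf
  exact (continuous_const.sub (continuous_const.mul (continuous_neg.const_cpow (Or.inl hne)))).add
    (continuous_const.mul ((continuous_const.sub (continuous_const.mul continuous_id)).const_cpow (Or.inl hne)))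

lemma ll_cont (V : HeightOneSpectrum (𝓞 K) → WeierstrassCurve (𝓞 K)) (v : HeightOneSpectrum (𝓞 K)) {σ : ℝ}
    (hσ : 0 ≤ σ) : Continuous fun t : ℝ => ll V ((σ:ℂ) + t * Complex.I) v := by
  unfold ll
  have h1 : Continuous fun t : ℝ => lf V (3 / 2 + ((σ:ℂ) + t * Complex.I)) v :=
    (lf_cont V v).comp (by fun_prop)
  refine (Continuous.clog h1 fun t => ?_).neg
  have h2 := lf_ball V v ((σ:ℂ) + t * Complex.I) (by simp [hσ])
  refine Or.inl ?_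
  have h3 := Complex.abs_re_le_norm (lf V (3 / 2 + ((σ:ℂ) + t * Complex.I)) v - 1)
  rw [Complex.sub_re, Complex.one_re, abs_le] at h3
  linarith [h3.1]

lemma Sx_cont (V : HeightOneSpectrum (𝓞 K) → WeierstrassCurve (𝓞 K)) (x : ℕ) {σ : ℝ}
    (hσ : 0 ≤ σ) : Continuous fun t : ℝ => Sx V x ((σ:ℂ) + t * Complex.I) := by
  unfold Sx
  exact continuous_finsetSum _ fun v _ => ll_cont V v hσ

/-- translation -/
lemma ll_shift (V : HeightOneSpectrum (𝓞 K) → WeierstrassCurve (𝓞 K)) (v : HeightOneSpectrum (𝓞 K)) {σ : ℝ}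
    (hσ : 0 ≤ σ) (t τ : ℝ) :
    ‖ll V ((σ:ℂ) + ((t + τ : ℝ) : ℂ) * Complex.I) v - ll V ((σ:ℂ) + t * Complex.I) v‖ ≤
      75 * ‖((nm v : ℕ) : ℂ) ^ (-((τ:ℂ) * Complex.I)) - 1‖ := by
  have hne : ((nm v : ℕ) : ℂ) ≠ 0 := by exact_mod_cast (nm_pos v).ne'
  have hq : (2 : ℝ) ≤ nm v := by exact_mod_cast two_le_nm v
  have h1 := lf_ball V v ((σ:ℂ) + t * Complex.I) (by simp [hσ])
  have h2 := lf_ball V v ((σ:ℂ) + ((t + τ : ℝ) : ℂ) * Complex.I) (by simp [hσ])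
  unfold ll
  rw [neg_sub_neg, norm_sub_rev]
  refine (log_lip h2 h1).trans ?_
  set w : ℂ := ((nm v : ℕ) : ℂ) ^ (-((τ:ℂ) * Complex.I)) with hw
  have hwn : ‖w‖ = 1 := by
    rw [hw, norm_nm_cpow]
    simp
  have e1 : ((nm v : ℕ) : ℂ) ^ (-((3:ℂ) / 2 + ((σ:ℂ) + ((t + τ : ℝ) : ℂ) * Complex.I))) =
      ((nm v : ℕ) : ℂ) ^ (-((3:ℂ) / 2 + ((σ:ℂ) + t * Complex.I))) * w := by
    rw [hw, ← Complex.cpow_add _ _ hne]
    congr 1
    push_cast
    ring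
  have e2 : ((nm v : ℕ) : ℂ) ^ (1 - 2 * ((3:ℂ) / 2 + ((σ:ℂ) + ((t + τ : ℝ) : ℂ) * Complex.I))) =
      ((nm v : ℕ) : ℂ) ^ (1 - 2 * ((3:ℂ) / 2 + ((σ:ℂ) + t * Complex.I))) * w ^ 2 := by
    rw [hw, sq, ← Complex.cpow_add _ _ hne, ← Complex.cpow_add _ _ hne]
    congr 1
    push_cast
    ring
  have e3 : lf V (3 / 2 + ((σ:ℂ) + ((t + τ : ℝ) : ℂ) * Complex.I)) v - lf V (3 / 2 + ((σ:ℂ) + t * Complex.I)) v =
      (-((trc V v : ℂ) * ((nm v : ℕ) : ℂ) ^ (-((3:ℂ) / 2 + ((σ:ℂ) + t * Complex.I)))) +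
        dlt V v * ((nm v : ℕ) : ℂ) ^ (1 - 2 * ((3:ℂ) / 2 + ((σ:ℂ) + t * Complex.I))) * (w + 1)) * (w - 1) := by
    unfold lf
    rw [e1, e2]
    ring
  rw [e3, norm_mul]
  have h0 := trc_le V v
  have h0' : |(trc V v : ℝ)| ≤ (nm v : ℝ) := by exact_mod_cast h0
  have e4 : ‖(trc V v : ℂ)‖ = |(trc V v : ℝ)| := by
    rw [← Complex.ofReal_intCast, Complex.norm_real, Real.norm_eq_abs]
  have h3 : ‖(trc V v : ℂ) * ((nm v : ℕ) : ℂ) ^ (-((3:ℂ) / 2 + ((σ:ℂ) + t * Complex.I)))‖ ≤ 1 := by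
    rw [norm_mul, norm_nm_cpow, e4]
    have e5 : (-((3:ℂ) / 2 + ((σ:ℂ) + t * Complex.I))).re = -(3/2 + σ) := by simp
    rw [e5]
    have h4 : (nm v : ℝ) ^ (-(3/2 + σ)) ≤ (nm v : ℝ) ^ (-1 : ℝ) :=
      Real.rpow_le_rpow_of_exponent_le (by linarith) (by linarith)
    calc |(trc V v : ℝ)| * (nm v : ℝ) ^ (-(3/2 + σ)) ≤ (nm v : ℝ) * (nm v : ℝ) ^ (-1 : ℝ) :=
          mul_le_mul h0' h4 (by positivity) (by positivity)
      _ = 1 := by rw [Real.rpow_neg_one, mul_inv_cancel₀ (by linarith)]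
  have h5 : ‖dlt V v * ((nm v : ℕ) : ℂ) ^ (1 - 2 * ((3:ℂ) / 2 + ((σ:ℂ) + t * Complex.I))) * (w + 1)‖ ≤ 2 := by
    rw [norm_mul, norm_mul, norm_nm_cpow]
    have e5 : (1 - 2 * ((3:ℂ) / 2 + ((σ:ℂ) + t * Complex.I))).re = -2 - 2 * σ := by
      simp
      ring
    rw [e5]
    have h6 : (nm v : ℝ) ^ (-2 - 2 * σ) ≤ 1 := Real.rpow_le_one_of_one_le_of_nonpos (by linarith) (by linarith)
    have h7 := Pool.Agent.R433.MD.dlt_le V v
    have h8 : ‖w + 1‖ ≤ 2 := by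
      refine (norm_add_le _ _).trans ?_
      rw [hwn, norm_one]
      norm_num
    have h9 : 0 ≤ (nm v : ℝ) ^ (-2 - 2 * σ) := by positivity
    calc ‖dlt V v‖ * (nm v : ℝ) ^ (-2 - 2 * σ) * ‖w + 1‖ ≤ 1 * 1 * 2 := by
          apply mul_le_mul _ h8 (norm_nonneg _) (by norm_num)
          exact mul_le_mul h7 h6 h9 (by norm_num)
      _ = 2 := by norm_num
  have h6 : ‖-((trc V v : ℂ) * ((nm v : ℕ) : ℂ) ^ (-((3:ℂ) / 2 + ((σ:ℂ) + t * Complex.I)))) +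
        dlt V v * ((nm v : ℕ) : ℂ) ^ (1 - 2 * ((3:ℂ) / 2 + ((σ:ℂ) + t * Complex.I))) * (w + 1)‖ ≤ 3 := by
    refine (norm_add_le _ _).trans ?_
    rw [norm_neg]
    linarith
  nlinarith [norm_nonneg (w - 1)]

end

/-- **uniform approximation by the partial sums** -/
theorem unif (d k : ℕ) {ε : ℝ} (hε : 0 < ε) : ∃ P0 : ℕ, 4 ≤ P0 ∧ ∀ (K : Type) [Field K] [NumberField K],
    Module.finrank ℚ K ≤ d → ∀ (V : HeightOneSpectrum (𝓞 K) → WeierstrassCurve (𝓞 K)) (σ : ℝ), 0 ≤ σ → ∀ (T : ℝ) (x : ℕ),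
      P0 ^ d ≤ x → eLpNorm (fun t : ℝ => Sx V x ((σ:ℂ) + t * Complex.I) - Sx V (P0 ^ d) ((σ:ℂ) + t * Complex.I))
        ((2 * (k + 1) : ℕ) : ℝ≥0∞) (mu T) ≤ ENNReal.ofReal ε := by
  -- the size of the main part
  have h1 : Tendsto (fun L : ℕ => 72 * Real.exp (k + 1) * (2 * (d:ℝ)) ^ (2 * (k + 1)) * dl k L) atTop (𝓝 0) := by
    have := (dl_tendsto k).const_mul (72 * Real.exp (k + 1) * (2 * (d:ℝ)) ^ (2 * (k + 1)))
    rwa [mul_zero] at this
  have h2 : ∀ᶠ L : ℕ in atTop, 72 * Real.exp (k + 1) * (2 * (d:ℝ)) ^ (2 * (k + 1)) * dl k L ≤ (ε / 2) ^ (2 * (k + 1)) :=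
    (h1.eventually (gt_mem_nhds (by positivity))).mono fun L hL => le_of_lt hL
  have h3 : ∀ᶠ P0 : ℕ in atTop, 24 * (d:ℝ) / P0 ≤ ε / 2 := by
    have : Tendsto (fun P0 : ℕ => 24 * (d:ℝ) / (P0:ℝ)) atTop (𝓝 0) :=
      tendsto_const_nhds.div_atTop tendsto_natCast_atTop_atTop
    exact (this.eventually (gt_mem_nhds (by positivity))).mono fun L hL => le_of_lt hL
  have h4 : Tendsto lg atTop atTop := by
    unfold Pool.Agent.W350.Edge.lg
    exact tendsto_nat_floor_atTop.comp (Real.tendsto_log_atTop.comp tendsto_natCast_atTop_atTop)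
  obtain ⟨P0, ⟨h5, h6⟩, h7, h8⟩ := (((h4.eventually (h2.and (eventually_ge_atTop 1))).and
    (h3.and (eventually_ge_atTop 4))).exists)
  refine ⟨P0, h8, ?_⟩
  intro K _ _ hd V σ hσ T x hx
  have hd1 : 0 < d := lt_of_lt_of_le (finrank_pos' (K := K)) hd
  set L := lg P0 with hL
  set F := (Ico (P0 ^ d) x).filter Nat.Prime with hF
  have hFp : ∀ p ∈ F, p.Prime ∧ L ≤ lg p ∧ 4 ≤ p := by
    intro p hp
    rw [hF, mem_filter, mem_Ico] at hp
    have h9 : P0 ≤ p := (Nat.le_self_pow hd1.ne' P0).trans hp.1.1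
    refine ⟨hp.2, ?_, by omega⟩
    rw [hL]
    unfold Pool.Agent.W350.Edge.lg
    apply Nat.floor_le_floor
    apply Real.log_le_log
    · have : 0 < P0 := by omega
      exact_mod_cast this
    · exact_mod_cast h9
  have hdr : (Module.finrank ℚ K : ℝ) ≤ d := by exact_mod_cast hd
  have hmain := main_int k (F := F) (L := L) h6 (fun p hp => ⟨(hFp p hp).1, (hFp p hp).2.1⟩) (cc V σ)
    (M := 2 * (d:ℝ)) (by positivity) (fun p hp => by
      refine (cc_norm hσ (hFp p hp).1 (hFp p hp).2.2).trans ?_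
      apply mul_le_mul_of_nonneg_right _ (by positivity)
      linarith) T
  set A : ℝ → ℂ := fun t => ∑ p ∈ F, cc V σ p * Complex.exp (-(t * Real.log p) * Complex.I) with hA
  have hAc : Continuous A := by
    rw [hA]
    fun_prop
  have hDc : Continuous fun t : ℝ => Sx V x ((σ:ℂ) + t * Complex.I) - Sx V (P0 ^ d) ((σ:ℂ) + t * Complex.I) :=
    (Sx_cont V x hσ).sub (Sx_cont V _ hσ)
  have e1 : (fun t : ℝ => Sx V x ((σ:ℂ) + t * Complex.I) - Sx V (P0 ^ d) ((σ:ℂ) + t * Complex.I)) =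
      A + fun t : ℝ => (Sx V x ((σ:ℂ) + t * Complex.I) - Sx V (P0 ^ d) ((σ:ℂ) + t * Complex.I)) - A t := by
    funext t
    simp only [Pi.add_apply]
    ring
  rw [e1]
  have hp1 : (1:ℝ≥0∞) ≤ ((2 * (k + 1) : ℕ) : ℝ≥0∞) := by
    have : 1 ≤ 2 * (k + 1) := by omega
    exact_mod_cast this
  refine (eLpNorm_add_le hAc.aestronglyMeasurable (hDc.sub hAc).aestronglyMeasurable hp1).trans ?_
  have h9 : eLpNorm A ((2 * (k + 1) : ℕ) : ℝ≥0∞) (mu T) ≤ ENNReal.ofReal (ε / 2) :=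
    eLp_of_int hAc T _ (by omega) (by positivity) (hmain.trans h5)
  have h10 : eLpNorm (fun t : ℝ => (Sx V x ((σ:ℂ) + t * Complex.I) - Sx V (P0 ^ d) ((σ:ℂ) + t * Complex.I)) - A t)
      ((2 * (k + 1) : ℕ) : ℝ≥0∞) (mu T) ≤ ENNReal.ofReal (ε / 2) :=
    eLp_bdd T _ fun t => (decomp V hd h8 hx hσ t).trans h7
  refine (add_le_add h9 h10).trans (le_of_eq ?_)
  rw [← ENNReal.ofReal_add (by positivity) (by positivity)]
  congr 1
  ring

end Run7.h113.LE
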