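import Mathlib
import Pool.Agent.Run7.h113.LE.St

/-!
The boundary values of the logarithm of the `L`-series.
-/

set_option autoImplicit false

open MeasureTheory Filter Topology Finset NumberField IsDedekindDomain
open scoped ENNReal
open Pool.Agent.H921R2.TatePole (nm two_le_nm below deg nm_eq below_le_nm card_above)
open Pool.Agent.H341R2.EC
open Pool.Agent.R433.MD (lf norm_nm_cpow lf_sub_one nm_pos)
open Pool.Agent.N534.EC (ll ll_near ll_all trc_hasse)
open Pool.Agent.W350.EdgeV (FV mem_FV tendsto_FV abel_V sum_grp grp)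
open Pool.Agent.W350.EdgeNF (hfin below_sq_summable hpow)
open Pool.Agent.W350.Edge (lg lg_le lt_lg ps term divSet dimH_divSet)

namespace Run7.h113.LE

lemma vol_zero {S : Set ℝ} (h : dimH S = 0) : volume S = 0 := by
  have h1 : dimH S < ((1 : NNReal) : ℝ≥0∞) := by rw [h]; exact_mod_cast zero_lt_one
  have h2 := hausdorffMeasure_of_dimH_lt h1
  rw [NNReal.coe_one, hausdorffMeasure_real] at h2
  exact h2

section
variable {K : Type} [Field K] [NumberField K]

/-- the first order term -/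
noncomputable def f1 (V : HeightOneSpectrum (𝓞 K) → WeierstrassCurve (𝓞 K)) (u : ℂ) (v : HeightOneSpectrum (𝓞 K)) : ℂ :=
  (trc V v : ℂ) * ((nm v : ℕ) : ℂ) ^ (-((3 : ℂ) / 2 + u))

/-- the remainder -/
noncomputable def rm (V : HeightOneSpectrum (𝓞 K) → WeierstrassCurve (𝓞 K)) (u : ℂ) (v : HeightOneSpectrum (𝓞 K)) : ℂ :=
  ll V u v - f1 V u v

lemma f1_triv (V : HeightOneSpectrum (𝓞 K) → WeierstrassCurve (𝓞 K)) {u : ℂ} (hu : 0 ≤ u.re)
    (v : HeightOneSpectrum (𝓞 K)) : ‖f1 V u v‖ ≤ 1 := by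
  have hq : (2 : ℝ) ≤ nm v := by exact_mod_cast two_le_nm v
  unfold f1
  have h0 := trc_le V v
  have h0' : |(trc V v : ℝ)| ≤ (nm v : ℝ) := by exact_mod_cast h0
  have e4 : ‖(trc V v : ℂ)‖ = |(trc V v : ℝ)| := by
    rw [← Complex.ofReal_intCast, Complex.norm_real, Real.norm_eq_abs]
  rw [norm_mul, norm_nm_cpow, e4]
  have e5 : (-((3:ℂ) / 2 + u)).re = -(3/2 + u.re) := by simp
  rw [e5]
  have h4 : (nm v : ℝ) ^ (-(3/2 + u.re)) ≤ (nm v : ℝ) ^ (-1 : ℝ) :=
    Real.rpow_le_rpow_of_exponent_le (by linarith) (by linarith)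
  calc |(trc V v : ℝ)| * (nm v : ℝ) ^ (-(3/2 + u.re)) ≤ (nm v : ℝ) * (nm v : ℝ) ^ (-1 : ℝ) :=
        mul_le_mul h0' h4 (by positivity) (by positivity)
    _ = 1 := by rw [Real.rpow_neg_one, mul_inv_cancel₀ (by linarith)]

lemma f1_norm (V : HeightOneSpectrum (𝓞 K) → WeierstrassCurve (𝓞 K)) {u : ℂ} (hu : 0 ≤ u.re)
    {v : HeightOneSpectrum (𝓞 K)} (h6 : (6 : 𝓞 K) ∉ v.asIdeal) : ‖f1 V u v‖ ≤ 2 * (nm v : ℝ) ^ (-(1 + u.re)) := by
  have hq : (2 : ℝ) ≤ nm v := by exact_mod_cast two_le_nm v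
  unfold f1
  have e4 : ‖(trc V v : ℂ)‖ = |(trc V v : ℝ)| := by
    rw [← Complex.ofReal_intCast, Complex.norm_real, Real.norm_eq_abs]
  rw [norm_mul, norm_nm_cpow, e4]
  have e5 : (-((3:ℂ) / 2 + u)).re = -(3/2 + u.re) := by simp
  rw [e5]
  have h1 := trc_hasse V v h6
  have h3 : Real.sqrt (nm v) * (nm v : ℝ) ^ (-(3/2 + u.re)) = (nm v : ℝ) ^ (-(1 + u.re)) := by
    rw [Real.sqrt_eq_rpow, ← Real.rpow_add (by linarith)]
    congr 1; ring
  calc |(trc V v : ℝ)| * (nm v : ℝ) ^ (-(3/2 + u.re)) ≤ (2 * Real.sqrt (nm v)) * (nm v : ℝ) ^ (-(3/2 + u.re)) :=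
        mul_le_mul_of_nonneg_right h1 (by positivity)
    _ = 2 * (Real.sqrt (nm v) * (nm v : ℝ) ^ (-(3/2 + u.re))) := by ring
    _ = _ := by rw [h3]

lemma below_inv (v : HeightOneSpectrum (𝓞 K)) : ((below v : ℕ) : ℝ) ^ (-(2:ℝ)) = 1 / ((below v : ℕ) : ℝ) ^ 2 := by
  have hp : (0 : ℝ) < ((below v : ℕ) : ℝ) := by exact_mod_cast (below v).2.pos
  rw [Real.rpow_neg hp.le, one_div]
  norm_cast

lemma below_small {v : HeightOneSpectrum (𝓞 K)} (h : (below v : ℕ) < 4) : 1 ≤ 9 * ((below v : ℕ) : ℝ) ^ (-(2:ℝ)) := by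
  have hp : (0 : ℝ) < ((below v : ℕ) : ℝ) := by exact_mod_cast (below v).2.pos
  rw [below_inv, mul_one_div, le_div_iff₀ (by positivity), one_mul]
  have h1 : ((below v : ℕ) : ℝ) ≤ 3 := by exact_mod_cast (by omega : (below v : ℕ) ≤ 3)
  nlinarith

lemma ll_triv (V : HeightOneSpectrum (𝓞 K) → WeierstrassCurve (𝓞 K)) {u : ℂ} (hu : 0 ≤ u.re)
    (v : HeightOneSpectrum (𝓞 K)) : ‖ll V u v‖ ≤ 100 := by
  have hq : (2 : ℝ) ≤ nm v := by exact_mod_cast two_le_nm v
  refine (ll_all V v u hu).trans ?_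
  have : (nm v : ℝ) ^ (-(1 / 2) - u.re) ≤ 1 := Real.rpow_le_one_of_one_le_of_nonpos (by linarith) (by linarith)
  linarith

/-- the remainders are summable, uniformly -/
lemma rm_norm (V : HeightOneSpectrum (𝓞 K) → WeierstrassCurve (𝓞 K)) {u : ℂ} (hu : 0 ≤ u.re)
    (v : HeightOneSpectrum (𝓞 K)) : ‖rm V u v‖ ≤ 1000 * ((below v : ℕ) : ℝ) ^ (-(2:ℝ)) := by
  rcases Nat.lt_or_ge (below v : ℕ) 4 with h | h
  · have h1 := below_small h
    have h2 : ‖rm V u v‖ ≤ 101 := by
      unfold rm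
      refine (norm_sub_le _ _).trans ?_
      have := ll_triv V hu v
      have := f1_triv V hu v
      linarith
    linarith
  · have h1 := ll_near V v (not_six h) u hu
    have h2 : ((below v : ℕ) : ℝ) ≤ nm v := by exact_mod_cast below_le_nm v
    have h3 : (0:ℝ) < ((below v : ℕ) : ℝ) := by exact_mod_cast (below v).prop.pos
    have h4 : 1 / (nm v : ℝ) ^ 2 ≤ ((below v : ℕ) : ℝ) ^ (-(2:ℝ)) := by
      rw [below_inv]
      exact one_div_le_one_div_of_le (by positivity) (pow_le_pow_left₀ h3.le h2 2)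
    unfold rm f1
    have h5 : 0 ≤ ((below v : ℕ) : ℝ) ^ (-(2:ℝ)) := by positivity
    linarith

lemma rm_summable (V : HeightOneSpectrum (𝓞 K) → WeierstrassCurve (𝓞 K)) {u : ℂ} (hu : 0 ≤ u.re) :
    Summable (rm V u) :=
  Summable.of_norm_bounded (below_sq_summable.mul_left 1000) fun v => rm_norm V hu v

/-- summability of the first order terms to the right of the edge -/
lemma f1_summable (V : HeightOneSpectrum (𝓞 K) → WeierstrassCurve (𝓞 K)) {u : ℂ} (hu : 0 < u.re) :
    Summable (f1 V u) := by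
  have h1 : Summable fun v : HeightOneSpectrum (𝓞 K) => 2 * (nm v : ℝ) ^ (-(1 + u.re)) +
      9 * ((below v : ℕ) : ℝ) ^ (-(2:ℝ)) :=
    ((hpow (1 + u.re) (by linarith)).mul_left 2).add (below_sq_summable.mul_left 9)
  refine Summable.of_norm_bounded h1 fun v => ?_
  have h2 : 0 ≤ (nm v : ℝ) ^ (-(1 + u.re)) := by positivity
  have h3 : 0 ≤ ((below v : ℕ) : ℝ) ^ (-(2:ℝ)) := by positivity
  rcases Nat.lt_or_ge (below v : ℕ) 4 with h | h
  · have := below_small h
    have := f1_triv V hu.le v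
    linarith
  · have := f1_norm V hu.le (not_six h)
    linarith

lemma ll_summable (V : HeightOneSpectrum (𝓞 K) → WeierstrassCurve (𝓞 K)) {u : ℂ} (hu : 0 < u.re) :
    Summable (ll V u) := by
  have h1 := (f1_summable V hu).add (rm_summable V hu.le)
  refine h1.congr fun v => ?_
  unfold rm
  ring

/-- the coefficients of the sum over the primes -/
noncomputable def ac (V : HeightOneSpectrum (𝓞 K) → WeierstrassCurve (𝓞 K)) (p : ℕ) : ℂ :=
  if p.Prime ∧ 4 ≤ p then p * cc V 0 p else 0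

lemma ac_norm (V : HeightOneSpectrum (𝓞 K) → WeierstrassCurve (𝓞 K)) (p : ℕ) :
    ‖ac V p‖ ≤ 2 * Module.finrank ℚ K := by
  unfold ac
  split_ifs with h
  · have h1 := cc_norm (V := V) le_rfl h.1 h.2
    have hp0 : (0:ℝ) < p := by exact_mod_cast h.1.pos
    rw [norm_mul, Complex.norm_natCast]
    calc (p:ℝ) * ‖cc V 0 p‖ ≤ p * ((2 * Module.finrank ℚ K) * (1 / (p:ℝ))) :=
          mul_le_mul_of_nonneg_left h1 hp0.le
      _ = _ := by field_simp
  · simp

/-- the exceptional set -/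
noncomputable def Ex (V : HeightOneSpectrum (𝓞 K) → WeierstrassCurve (𝓞 K)) : Set ℝ := divSet (ac V)

lemma Ex_null (V : HeightOneSpectrum (𝓞 K) → WeierstrassCurve (𝓞 K)) : volume (Ex V) = 0 :=
  vol_zero (dimH_divSet _ _ (ac_norm V))

/-- the part of the first order terms that is absolutely summable on the edge -/
noncomputable def f2 (V : HeightOneSpectrum (𝓞 K) → WeierstrassCurve (𝓞 K)) (t : ℝ) (v : HeightOneSpectrum (𝓞 K)) : ℂ :=
  if (nm v).Prime ∧ 4 ≤ nm v then 0 else f1 V (((0:ℝ):ℂ) + t * Complex.I) v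

lemma f2_summable (V : HeightOneSpectrum (𝓞 K) → WeierstrassCurve (𝓞 K)) (t : ℝ) : Summable (f2 V t) := by
  refine Summable.of_norm_bounded (below_sq_summable.mul_left 9) fun v => ?_
  have hre : (((0:ℝ):ℂ) + t * Complex.I).re = 0 := by simp
  unfold f2
  split_ifs with h
  · rw [norm_zero]; positivity
  · rcases Nat.lt_or_ge (below v : ℕ) 4 with h4 | h4
    · have := below_small h4
      have := f1_triv V (u := ((0:ℝ):ℂ) + t * Complex.I) (by rw [hre]) v
      linarith
    · have h5 := f1_norm V (u := ((0:ℝ):ℂ) + t * Complex.I) (by rw [hre]) (not_six h4)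
      rw [hre, add_zero] at h5
      have h6 : (nm v : ℝ) ^ (-(1:ℝ)) ≤ ((below v : ℕ) : ℝ) ^ (-(2:ℝ)) := by
        obtain ⟨h7, h8, h9⟩ := nm_eq v
        have h10 : 2 ≤ deg v := by
          by_contra h11
          have h12 : deg v = 1 := by omega
          rw [h12, pow_one] at h7
          exact h ⟨by rw [h7]; exact (below v).prop, by rw [h7]; exact h4⟩
        have h11 : (below v : ℕ) ^ 2 ≤ nm v := by
          rw [h7]
          exact Nat.pow_le_pow_right (below v).prop.pos h10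
        have h12 : (0:ℝ) < ((below v : ℕ) : ℝ) := by exact_mod_cast (below v).prop.pos
        rw [below_inv, Real.rpow_neg_one, ← one_div]
        exact one_div_le_one_div_of_le (by positivity) (by exact_mod_cast h11)
      have h7 : 0 ≤ ((below v : ℕ) : ℝ) ^ (-(2:ℝ)) := by positivity
      linarith

/-- the sum over the primes -/
lemma ps_eq (V : HeightOneSpectrum (𝓞 K) → WeierstrassCurve (𝓞 K)) (t : ℝ) (x : ℕ) :
    ps (ac V) t x = ∑ v ∈ FV nm (hfin (K := K)) x,
      if (nm v).Prime ∧ 4 ≤ nm v then f1 V (((0:ℝ):ℂ) + t * Complex.I) v else 0 := by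
  classical
  have hmaps : ∀ v ∈ FV nm (hfin (K := K)) x, nm v ∈ range x := fun v hv => mem_range.2 (mem_FV.1 hv)
  rw [← sum_fiberwise_of_maps_to hmaps]
  unfold ps
  refine Finset.sum_congr rfl fun p hp => ?_
  rw [mem_range] at hp
  unfold term
  split_ifs with h
  · unfold ac
    split_ifs with h4
    · have hp0 : (p:ℂ) ≠ 0 := by exact_mod_cast h.ne_zero
      rw [mul_div_cancel_left₀ _ hp0]
      unfold cc
      rw [Finset.sum_mul]
      apply Finset.sum_congr
      · ext v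
        simp only [mem_filter, mem_FV]
        constructor
        · rintro ⟨h1, h2⟩
          exact ⟨by omega, h2⟩
        · rintro ⟨h1, h2⟩
          exact ⟨by omega, h2⟩
      · intro v hv
        rw [mem_filter] at hv
        rw [if_pos (by rw [hv.2]; exact h4)]
        unfold f1
        rw [first_eq', hv.2]
    · rw [zero_div, zero_mul]
      symm
      apply Finset.sum_eq_zero
      intro v hv
      rw [mem_filter] at hv
      rw [if_neg (by rw [hv.2]; exact h4)]
  · symm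
    apply Finset.sum_eq_zero
    intro v hv
    rw [mem_filter] at hv
    rw [if_neg (by rw [hv.2]; exact fun h4 => h h4.1)]

/-- convergence of the first order terms on the edge -/
lemma f1_conv (V : HeightOneSpectrum (𝓞 K) → WeierstrassCurve (𝓞 K)) {t : ℝ} (ht : t ∉ Ex V) :
    ∃ l, Tendsto (fun x => ∑ v ∈ FV nm (hfin (K := K)) x, f1 V (((0:ℝ):ℂ) + t * Complex.I) v) atTop (𝓝 l) := by
  unfold Ex divSet at ht
  simp only [Set.mem_ofPred_eq, not_not] at ht
  obtain ⟨l, hl⟩ := ht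
  have h1 := (f2_summable V t).hasSum.comp (tendsto_FV (hfin (K := K)))
  refine ⟨l + ∑' v, f2 V t v, (hl.add h1).congr fun x => ?_⟩
  rw [ps_eq]
  simp only [Function.comp_apply]
  rw [← Finset.sum_add_distrib]
  refine Finset.sum_congr rfl fun v _ => ?_
  unfold f2
  split_ifs <;> simp

/-- the logarithm of the `L`-series to the right of the edge -/
noncomputable def LL (V : HeightOneSpectrum (𝓞 K) → WeierstrassCurve (𝓞 K)) (u : ℂ) : ℂ := ∑' v, ll V u v

/-- the boundary values -/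
noncomputable def Lam (V : HeightOneSpectrum (𝓞 K) → WeierstrassCurve (𝓞 K)) (t : ℝ) : ℂ :=
  limUnder atTop (fun x => Sx V x (((0:ℝ):ℂ) + t * Complex.I))

/-- **convergence on the edge** -/
theorem Lam_tendsto (V : HeightOneSpectrum (𝓞 K) → WeierstrassCurve (𝓞 K)) {t : ℝ} (ht : t ∉ Ex V) :
    Tendsto (fun x => Sx V x (((0:ℝ):ℂ) + t * Complex.I)) atTop (𝓝 (Lam V t)) := by
  obtain ⟨l, hl⟩ := f1_conv V ht
  have h1 := (rm_summable V (u := ((0:ℝ):ℂ) + t * Complex.I) (by simp)).hasSum.comp (tendsto_FV (hfin (K := K)))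
  have h2 : Tendsto (fun x => Sx V x (((0:ℝ):ℂ) + t * Complex.I)) atTop
      (𝓝 (l + ∑' v, rm V (((0:ℝ):ℂ) + t * Complex.I) v)) := by
    refine (hl.add h1).congr fun x => ?_
    simp only [Function.comp_apply]
    rw [← Finset.sum_add_distrib]
    unfold Sx
    refine Finset.sum_congr rfl fun v _ => ?_
    unfold rm
    ring
  unfold Lam
  exact tendsto_nhds_limUnder ⟨_, h2⟩

lemma rm_contAt (V : HeightOneSpectrum (𝓞 K) → WeierstrassCurve (𝓞 K)) (v : HeightOneSpectrum (𝓞 K)) {u₀ : ℂ}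
    (hu : 0 ≤ u₀.re) : ContinuousAt (fun u => rm V u v) u₀ := by
  have hne : ((nm v : ℕ) : ℂ) ≠ 0 := by exact_mod_cast (nm_pos v).ne'
  unfold rm ll f1
  have h1 : Continuous fun u : ℂ => lf V (3 / 2 + u) v := (lf_cont V v).comp (by fun_prop)
  have h2 := lf_ball V v u₀ hu
  have h3 : lf V (3 / 2 + u₀) v ∈ Complex.slitPlane := by
    refine Or.inl ?_
    have h3 := Complex.abs_re_le_norm (lf V (3 / 2 + u₀) v - 1)
    rw [Complex.sub_re, Complex.one_re, abs_le] at h3
    linarith [h3.1]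
  have h4 : Continuous fun u : ℂ => ((nm v : ℕ) : ℂ) ^ (-((3 : ℂ) / 2 + u)) :=
    (by fun_prop : Continuous fun u : ℂ => (-((3 : ℂ) / 2 + u))).const_cpow (Or.inl hne)
  exact ((h1.continuousAt.clog h3).neg).sub (continuous_const.mul h4).continuousAt

/-- **boundary values in every angle** -/
theorem LL_angle (V : HeightOneSpectrum (𝓞 K) → WeierstrassCurve (𝓞 K)) {t : ℝ} (ht : t ∉ Ex V) (C : ℝ) :
    Tendsto (LL V) (𝓝[{u : ℂ | 0 < u.re ∧ ‖u - t * Complex.I‖ ≤ C * u.re}] (t * Complex.I)) (𝓝 (Lam V t)) := by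
  obtain ⟨l, hl⟩ := f1_conv V ht
  set u₀ : ℂ := ((0:ℝ):ℂ) + t * Complex.I with hu₀
  have hu₀' : u₀ = t * Complex.I := by rw [hu₀]; simp
  have hre0 : u₀.re = 0 := by rw [hu₀]; simp
  -- the first order terms
  have hexp : ∀ z : ℂ, ∀ v : HeightOneSpectrum (𝓞 K), Complex.exp (-z * Real.log (nm v)) * f1 V u₀ v = f1 V (u₀ + z) v := by
    intro z v
    have hne : ((nm v : ℕ) : ℂ) ≠ 0 := by exact_mod_cast (nm_pos v).ne'
    unfold f1
    have e1 : Complex.exp (-z * Real.log (nm v)) = ((nm v : ℕ) : ℂ) ^ (-z) := by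
      rw [Complex.cpow_def_of_ne_zero hne, ← Complex.natCast_log]
      congr 1
      ring
    rw [e1, mul_left_comm, ← Complex.cpow_add _ _ hne]
    congr 2
    ring
  have h1 := abel_V (hfin (K := K)) (f1 V u₀) l hl (fun z hz => by
    simp only [hexp]
    exact f1_summable V (by rw [Complex.add_re, hre0, zero_add]; exact hz)) C
  simp only [hexp] at h1
  -- translate
  have hmap : Tendsto (fun u : ℂ => u - u₀) (𝓝[{u : ℂ | 0 < u.re ∧ ‖u - t * Complex.I‖ ≤ C * u.re}] u₀)
      (𝓝[{z : ℂ | 0 < z.re ∧ ‖z‖ ≤ C * z.re}] 0) := by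
    apply tendsto_nhdsWithin_of_tendsto_nhds_of_eventually_within
    · have : Tendsto (fun u : ℂ => u - u₀) (𝓝 u₀) (𝓝 (u₀ - u₀)) := (continuous_id.sub continuous_const).tendsto _
      rw [sub_self] at this
      exact this.mono_left nhdsWithin_le_nhds
    · filter_upwards [self_mem_nhdsWithin] with u hu
      have e1 : (u - u₀).re = u.re := by rw [Complex.sub_re, hre0, sub_zero]
      refine ⟨by rw [e1]; exact hu.1, ?_⟩
      rw [e1, hu₀']
      exact hu.2
  have h2 := h1.comp hmap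
  have h3 : ((fun z : ℂ => ∑' v, f1 V (u₀ + z) v) ∘ fun u : ℂ => u - u₀) = fun u => ∑' v, f1 V u v := by
    funext u
    simp
  rw [h3] at h2
  -- the remainders
  have h4 : Tendsto (fun u => ∑' v, rm V u v) (𝓝[{u : ℂ | 0 < u.re ∧ ‖u - t * Complex.I‖ ≤ C * u.re}] u₀)
      (𝓝 (∑' v, rm V u₀ v)) := by
    refine tendsto_tsum_of_dominated_convergence (below_sq_summable.mul_left 1000) (fun v => ?_) ?_
    · exact (rm_contAt V v (by rw [hre0])).tendsto.mono_left nhdsWithin_le_nhds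
    · filter_upwards [self_mem_nhdsWithin] with u hu v
      exact rm_norm V hu.1.le v
  have h5 := h2.add h4
  -- identify the limit
  have h6 : Lam V t = l + ∑' v, rm V u₀ v := by
    have h7 := (rm_summable V (u := u₀) (by rw [hre0])).hasSum.comp (tendsto_FV (hfin (K := K)))
    have h8 : Tendsto (fun x => Sx V x u₀) atTop (𝓝 (l + ∑' v, rm V u₀ v)) := by
      refine (hl.add h7).congr fun x => ?_
      simp only [Function.comp_apply]
      rw [← Finset.sum_add_distrib]
      unfold Sx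
      refine Finset.sum_congr rfl fun v _ => ?_
      unfold rm
      ring
    exact tendsto_nhds_unique (Lam_tendsto V ht) h8
  rw [h6, ← hu₀']
  simp only [← hu₀'] at h5
  refine h5.congr' ?_
  filter_upwards [self_mem_nhdsWithin] with u hu
  unfold LL
  rw [← (f1_summable V hu.1).tsum_add (rm_summable V hu.1.le)]
  refine tsum_congr fun v => ?_
  unfold rm
  ring

end

end Run7.h113.LE
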