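import Mathlib
import Pool.Agent.Run7.h113.LE.Edge

/-!
Simultaneous almost periods.
-/

set_option autoImplicit false

open MeasureTheory Filter Topology Finset NumberField IsDedekindDomain
open scoped ENNReal
open Pool.Agent.H921R2.TatePole (nm two_le_nm below deg nm_eq below_le_nm card_above)
open Pool.Agent.H341R2.EC
open Pool.Agent.R433.MD (lf norm_nm_cpow lf_sub_one nm_pos)
open Pool.Agent.N534.EC (ll ll_near ll_all trc_hasse)
open Pool.Agent.W350.EdgeV (FV mem_FV tendsto_FV)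
open Pool.Agent.W350.EdgeNF (hfin below_sq_summable hpow)

namespace Run7.h113.LE

/-- relatively dense sets of real numbers -/
def RelDense (S : Set ℝ) : Prop := ∃ ℓ : ℝ, 0 < ℓ ∧ ∀ s : ℝ, ∃ τ ∈ S, s ≤ τ ∧ τ ≤ s + ℓ

/-- the set of the common almost periods of the functions `n ^ (- i t)` -/
def Per (N : ℕ) (η : ℝ) : Set ℝ := {τ : ℝ | ∀ n : ℕ, 1 ≤ n → n < N → ‖(n : ℂ) ^ (-((τ:ℂ) * Complex.I)) - 1‖ ≤ η}

lemma norm_nat_cpow {n : ℕ} (hn : 1 ≤ n) (τ : ℝ) : ‖(n : ℂ) ^ (-((τ:ℂ) * Complex.I))‖ = 1 := by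
  rw [Complex.norm_natCast_cpow_of_pos hn]
  simp

theorem relDense_Per (N : ℕ) {η : ℝ} (hη : 0 < η) : RelDense (Per N η) := by
  classical
  set Φ : ℝ → (Fin N → ℂ) := fun τ i => ((i : ℕ) + 1 : ℕ) ^ (-((τ:ℂ) * Complex.I)) with hΦ
  have hb : Set.range Φ ⊆ Metric.closedBall 0 1 := by
    rintro _ ⟨τ, rfl⟩
    rw [mem_closedBall_zero_iff, pi_norm_le_iff_of_nonneg zero_le_one]
    intro i
    exact (norm_nat_cpow (by omega) τ).le
  have htb : TotallyBounded (Set.range Φ) :=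
    (isCompact_closedBall (0 : Fin N → ℂ) 1).totallyBounded.subset hb
  obtain ⟨t, ht, htf, hcov⟩ := Metric.finite_approx_of_totallyBounded htb η hη
  -- choose parameters
  have hch : ∀ y : t, ∃ τ : ℝ, Φ τ = y := fun y => ht y.2
  choose g hg using hch
  have : Fintype t := htf.fintype
  obtain ⟨B, hB⟩ : ∃ B : ℝ, ∀ y : t, |g y| ≤ B := by
    refine ⟨∑ y : t, |g y|, fun y => ?_⟩
    exact Finset.single_le_sum (f := fun y => |g y|) (fun _ _ => abs_nonneg _) (Finset.mem_univ y)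
  refine ⟨2 * |B| + 1, by positivity, fun s => ?_⟩
  have h1 : Φ (s + |B|) ∈ ⋃ y ∈ t, Metric.ball y η := hcov ⟨_, rfl⟩
  simp only [Set.mem_iUnion] at h1
  obtain ⟨y, hy, h2⟩ := h1
  have h3 := hB ⟨y, hy⟩
  have h4 := hg ⟨y, hy⟩
  have h5 : |g ⟨y, hy⟩| ≤ |B| := h3.trans (le_abs_self B)
  rw [abs_le] at h5
  refine ⟨s + |B| - g ⟨y, hy⟩, ?_, by linarith, by linarith⟩
  intro n hn hnN
  rw [Metric.mem_ball, dist_eq_norm] at h2
  have h6 : ‖(Φ (s + |B|) - y) ⟨n - 1, by omega⟩‖ ≤ η := (norm_le_pi_norm _ _).trans h2.le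
  have h4' : Φ (g ⟨y, hy⟩) = y := h4
  rw [← h4', Pi.sub_apply] at h6
  simp only [hΦ] at h6
  have e0 : n - 1 + 1 = n := by omega
  rw [e0] at h6
  have hn0 : (n:ℂ) ≠ 0 := by
    have : n ≠ 0 := by omega
    exact_mod_cast this
  have e1 : (n : ℂ) ^ (-(((s + |B| - g ⟨y, hy⟩ : ℝ) : ℂ) * Complex.I)) - 1 =
      ((n : ℂ) ^ (-(((s + |B| : ℝ) : ℂ) * Complex.I)) - (n : ℂ) ^ (-((g ⟨y, hy⟩ : ℂ) * Complex.I))) *
        (n : ℂ) ^ (-(((-g ⟨y, hy⟩ : ℝ) : ℂ) * Complex.I)) := by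
    rw [sub_mul, ← Complex.cpow_add _ _ hn0, ← Complex.cpow_add _ _ hn0]
    congr 1
    · congr 1
      push_cast
      ring
    · have : -((g ⟨y, hy⟩ : ℂ) * Complex.I) + -(((-g ⟨y, hy⟩ : ℝ) : ℂ) * Complex.I) = 0 := by
        push_cast
        ring
      rw [this, Complex.cpow_zero]
  rw [e1, norm_mul, norm_nat_cpow hn, mul_one]
  exact h6

section
variable {K : Type} [Field K] [NumberField K]

lemma Ex_ae (V : HeightOneSpectrum (𝓞 K) → WeierstrassCurve (𝓞 K)) : ∀ᵐ t : ℝ, t ∉ Ex V :=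
  measure_eq_zero_iff_ae_notMem.1 (Ex_null V)

lemma mu_ac (T : ℝ) : mu T ≪ volume := Measure.absolutelyContinuous_of_le Measure.restrict_le_self

lemma Lam_lim (V : HeightOneSpectrum (𝓞 K) → WeierstrassCurve (𝓞 K)) :
    ∀ᵐ t : ℝ, Tendsto (fun x => Sx V x (((0:ℝ):ℂ) + t * Complex.I)) atTop (𝓝 (Lam V t)) := by
  filter_upwards [Ex_ae V] with t ht
  exact Lam_tendsto V ht

lemma LL_lim (V : HeightOneSpectrum (𝓞 K) → WeierstrassCurve (𝓞 K)) {σ : ℝ} (hσ : 0 < σ) (t : ℝ) :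
    Tendsto (fun x => Sx V x ((σ:ℂ) + t * Complex.I)) atTop (𝓝 (LL V ((σ:ℂ) + t * Complex.I))) :=
  (ll_summable V (u := (σ:ℂ) + t * Complex.I) (by simpa using hσ)).hasSum.comp (tendsto_FV (hfin (K := K)))

/-- the limit functions -/
def IsLim (V : HeightOneSpectrum (𝓞 K) → WeierstrassCurve (𝓞 K)) (σ : ℝ) (g : ℝ → ℂ) : Prop :=
  ∀ᵐ t : ℝ, Tendsto (fun x => Sx V x ((σ:ℂ) + t * Complex.I)) atTop (𝓝 (g t))

lemma IsLim.aesm {V : HeightOneSpectrum (𝓞 K) → WeierstrassCurve (𝓞 K)} {σ : ℝ} (hσ : 0 ≤ σ) {g : ℝ → ℂ}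
    (hg : IsLim V σ g) : AEStronglyMeasurable g volume :=
  aestronglyMeasurable_of_tendsto_ae (u := atTop)
    (f := fun (x : ℕ) (t : ℝ) => Sx V x ((σ:ℂ) + t * Complex.I)) (fun x => (Sx_cont V x hσ).aestronglyMeasurable) hg

/-- the tail -/
lemma IsLim.tail {V : HeightOneSpectrum (𝓞 K) → WeierstrassCurve (𝓞 K)} {σ : ℝ} (hσ : 0 ≤ σ) {g : ℝ → ℂ}
    (hg : IsLim V σ g) {Y : ℕ} {q : ℝ≥0∞} {T : ℝ} {δ : ℝ≥0∞}
    (h : ∀ x : ℕ, Y ≤ x → eLpNorm (fun t : ℝ => Sx V x ((σ:ℂ) + t * Complex.I) - Sx V Y ((σ:ℂ) + t * Complex.I)) q (mu T) ≤ δ) :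
    eLpNorm (fun t : ℝ => g t - Sx V Y ((σ:ℂ) + t * Complex.I)) q (mu T) ≤ δ := by
  refine (Lp.eLpNorm_lim_le_liminf_eLpNorm
    (f := fun (x : ℕ) (t : ℝ) => Sx V x ((σ:ℂ) + t * Complex.I) - Sx V Y ((σ:ℂ) + t * Complex.I))
    (fun x => ((Sx_cont V x hσ).sub (Sx_cont V Y hσ)).aestronglyMeasurable) _ ?_).trans ?_
  · apply (mu_ac T).ae_le
    filter_upwards [hg] with t ht
    exact ht.sub_const _
  · apply Filter.liminf_le_of_frequently_le'
    apply Eventually.frequently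
    filter_upwards [eventually_ge_atTop Y] with x hx
    exact h x hx

lemma mp_shift (T τ : ℝ) : MeasurePreserving (fun t : ℝ => t + τ) (mu T) (mu (T + τ)) := by
  have h := (measurePreserving_add_right (volume : Measure ℝ) τ).restrict_preimage
    (s := Set.Icc (T + τ) (T + τ + 1)) measurableSet_Icc
  have e : (fun t : ℝ => t + τ) ⁻¹' Set.Icc (T + τ) (T + τ + 1) = Set.Icc T (T + 1) := by
    ext t
    simp only [Set.mem_preimage, Set.mem_Icc]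
    constructor <;> rintro ⟨h1, h2⟩ <;> constructor <;> linarith
  rw [e] at h
  exact h

lemma eLp_shift {f : ℝ → ℂ} (hf : AEStronglyMeasurable f volume) (q : ℝ≥0∞) (T τ : ℝ) :
    eLpNorm (fun t => f (t + τ)) q (mu T) = eLpNorm f q (mu (T + τ)) :=
  eLpNorm_comp_measurePreserving (g := f) (hf.mono_ac (mu_ac _)) (mp_shift T τ)

lemma Sx_shift (V : HeightOneSpectrum (𝓞 K) → WeierstrassCurve (𝓞 K)) {d : ℕ} (hd : Module.finrank ℚ K ≤ d) {σ : ℝ}
    (hσ : 0 ≤ σ) (Y : ℕ) {η : ℝ} (hη : 0 ≤ η) {τ : ℝ} (hτ : τ ∈ Per Y η) (t : ℝ) :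
    ‖Sx V Y ((σ:ℂ) + ((t + τ : ℝ) : ℂ) * Complex.I) - Sx V Y ((σ:ℂ) + t * Complex.I)‖ ≤ 75 * (d * Y * η) := by
  unfold Sx
  rw [← Finset.sum_sub_distrib]
  have h1 : ∀ v ∈ FV nm (hfin (K := K)) Y, ‖ll V ((σ:ℂ) + ((t + τ : ℝ) : ℂ) * Complex.I) v -
      ll V ((σ:ℂ) + t * Complex.I) v‖ ≤ 75 * η := by
    intro v hv
    rw [mem_FV] at hv
    refine (ll_shift V v hσ t τ).trans ?_
    apply mul_le_mul_of_nonneg_left _ (by norm_num)
    exact hτ (nm v) (nm_pos v) hv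
  refine (norm_sum_le_of_le _ h1).trans ?_
  rw [Finset.sum_const, nsmul_eq_mul]
  have h2 : ((FV nm (hfin (K := K)) Y).card : ℝ) ≤ d * Y := by
    have := card_FV (K := K) Y
    have h3 : (FV nm (hfin (K := K)) Y).card ≤ d * Y := this.trans (Nat.mul_le_mul_right _ hd)
    exact_mod_cast h3
  calc ((FV nm (hfin (K := K)) Y).card : ℝ) * (75 * η) ≤ (d * Y) * (75 * η) :=
        mul_le_mul_of_nonneg_right h2 (by positivity)
    _ = _ := by ring

end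

/-- **Simultaneous almost periods** -/
theorem ap_main (d : ℕ) {r : ℝ≥0∞} (hr : r ≠ ∞) {ε : ℝ} (hε : 0 < ε) : ∃ S : Set ℝ, RelDense S ∧
    ∀ (K : Type) [Field K] [NumberField K], Module.finrank ℚ K ≤ d →
    ∀ (V : HeightOneSpectrum (𝓞 K) → WeierstrassCurve (𝓞 K)) (σ : ℝ), 0 ≤ σ → ∀ g : ℝ → ℂ, IsLim V σ g →
    ∀ τ ∈ S, ∀ T : ℝ, eLpNorm (fun t => g (t + τ) - g t) r (mu T) ≤ ENNReal.ofReal ε := by
  obtain ⟨k, hk⟩ : ∃ k : ℕ, r ≤ (k : ℝ≥0∞) := ENNReal.exists_nat_gt hr |>.imp fun _ h => h.le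
  set q : ℝ≥0∞ := ((2 * (k + 1) : ℕ) : ℝ≥0∞) with hq
  have hrq : r ≤ q := by
    refine hk.trans ?_
    rw [hq]
    exact_mod_cast (by omega : k ≤ 2 * (k + 1))
  have hq1 : 1 ≤ q := by
    rw [hq]
    exact_mod_cast (by omega : 1 ≤ 2 * (k + 1))
  obtain ⟨P0, hP0, hunif⟩ := unif d k (ε := ε / 4) (by positivity)
  set Y := P0 ^ d with hY
  set η : ℝ := ε / (4 * 75 * (d * Y + 1)) with hη
  have hη0 : 0 < η := by positivity
  refine ⟨Per Y η, relDense_Per Y hη0, ?_⟩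
  intro K _ _ hd V σ hσ g hg τ hτ T
  have hgm := hg.aesm hσ
  have hSc := Sx_cont V Y hσ
  have hDm : AEStronglyMeasurable (fun t : ℝ => g t - Sx V Y ((σ:ℂ) + t * Complex.I)) volume :=
    hgm.sub hSc.aestronglyMeasurable
  -- decomposition
  set A : ℝ → ℂ := fun t => g (t + τ) - Sx V Y ((σ:ℂ) + ((t + τ : ℝ) : ℂ) * Complex.I) with hA
  set B : ℝ → ℂ := fun t => g t - Sx V Y ((σ:ℂ) + t * Complex.I) with hB
  set C : ℝ → ℂ := fun t => Sx V Y ((σ:ℂ) + ((t + τ : ℝ) : ℂ) * Complex.I) - Sx V Y ((σ:ℂ) + t * Complex.I) with hC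
  have e1 : (fun t => g (t + τ) - g t) = (A + C) - B := by
    funext t
    simp only [hA, hB, hC, Pi.add_apply, Pi.sub_apply]
    ring
  have hAm : AEStronglyMeasurable A (mu T) := by
    have h1 : AEStronglyMeasurable (fun t : ℝ => g t - Sx V Y ((σ:ℂ) + t * Complex.I)) (mu (T + τ)) :=
      hDm.mono_ac (mu_ac _)
    exact h1.comp_measurePreserving (mp_shift T τ)
  have hBm : AEStronglyMeasurable B (mu T) := hDm.mono_ac (mu_ac _)
  have hCm : AEStronglyMeasurable C (mu T) := by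
    apply Continuous.aestronglyMeasurable
    exact (hSc.comp (continuous_id.add continuous_const)).sub hSc
  have hA1 : eLpNorm A q (mu T) ≤ ENNReal.ofReal (ε / 4) := by
    have h1 := eLp_shift hDm q T τ
    rw [h1]
    exact hg.tail hσ fun x hx => hunif K hd V σ hσ (T + τ) x hx
  have hB1 : eLpNorm B q (mu T) ≤ ENNReal.ofReal (ε / 4) :=
    hg.tail hσ fun x hx => hunif K hd V σ hσ T x hx
  have hC1 : eLpNorm C q (mu T) ≤ ENNReal.ofReal (ε / 4) := by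
    apply eLp_bdd
    intro t
    refine (Sx_shift V hd hσ Y hη0.le hτ t).trans ?_
    rw [hη]
    have h1 : (0:ℝ) ≤ d * Y := by positivity
    rw [show 75 * ((d:ℝ) * Y * (ε / (4 * 75 * (d * Y + 1)))) = (ε / 4) * ((d * Y) / (d * Y + 1)) by
      field_simp]
    apply mul_le_of_le_one_right (by positivity)
    rw [div_le_one (by positivity)]
    linarith
  rw [e1]
  refine (eLpNorm_le_eLpNorm_of_exponent_le hrq ((hAm.add hCm).sub hBm)).trans ?_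
  refine (eLpNorm_sub_le (hAm.add hCm) hBm hq1).trans ?_
  refine (add_le_add (eLpNorm_add_le hAm hCm hq1) le_rfl).trans ?_
  refine (add_le_add (add_le_add hA1 hC1) hB1).trans ?_
  rw [← ENNReal.ofReal_add (by positivity) (by positivity), ← ENNReal.ofReal_add (by positivity) (by positivity)]
  apply ENNReal.ofReal_le_ofReal
  linarith

end Run7.h113.LE
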