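import Mathlib

/-!
The theorem of Kronecker and Weyl for continuous functions on a torus.
-/

set_option autoImplicit false

open MeasureTheory Filter Topology

namespace Run7.h113.LE

/-- the uniform measure on the unit cube -/
noncomputable def cube (ι : Type) [Fintype ι] : Measure (ι → ℝ) := Measure.pi fun _ => volume.restrict (Set.Icc (0:ℝ) 1)

instance unitIccProb : IsProbabilityMeasure ((volume : Measure ℝ).restrict (Set.Icc (0:ℝ) 1)) := by
  constructor
  rw [Measure.restrict_apply_univ, Real.volume_Icc]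
  simp

instance (ι : Type) [Fintype ι] : IsProbabilityMeasure (cube ι) := by
  unfold cube
  infer_instance

variable {ι : Type} [Fintype ι]

/-- the point of the torus -/
def pt (θ : ι → ℝ) : UnitAddTorus ι := fun i => (θ i : UnitAddCircle)

lemma pt_cont : Continuous (pt (ι := ι)) := by
  unfold pt
  exact continuous_pi fun i => (AddCircle.continuous_mk' (1:ℝ)).comp (continuous_apply i)

lemma mF_pt (n : ι → ℤ) (θ : ι → ℝ) :
    UnitAddTorus.mFourier n (pt θ) = ∏ i, Complex.exp (2 * Real.pi * Complex.I * n i * θ i) := by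
  unfold UnitAddTorus.mFourier pt
  rw [ContinuousMap.coe_mk]
  refine Finset.prod_congr rfl fun i _ => ?_
  rw [fourier_coe_apply]
  simp

/-- the mean over `[0, H]` -/
noncomputable def avg (ω : ι → ℝ) (G : C(UnitAddTorus ι, ℂ)) (H : ℕ) : ℂ :=
  (1 / (H:ℂ)) * ∫ t in (0:ℝ)..H, G (pt fun i => t * ω i)

lemma flow_cont (ω : ι → ℝ) (G : C(UnitAddTorus ι, ℂ)) : Continuous fun t : ℝ => G (pt fun i => t * ω i) :=
  G.continuous.comp (pt_cont.comp (continuous_pi fun i => continuous_id.mul continuous_const))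

lemma avg_add (ω : ι → ℝ) (G G' : C(UnitAddTorus ι, ℂ)) (H : ℕ) : avg ω (G + G') H = avg ω G H + avg ω G' H := by
  unfold avg
  simp only [ContinuousMap.add_apply]
  rw [intervalIntegral.integral_add ((flow_cont ω G).intervalIntegrable _ _) ((flow_cont ω G').intervalIntegrable _ _)]
  ring

lemma avg_smul (ω : ι → ℝ) (c : ℂ) (G : C(UnitAddTorus ι, ℂ)) (H : ℕ) : avg ω (c • G) H = c * avg ω G H := by
  unfold avg
  simp only [ContinuousMap.smul_apply, smul_eq_mul]
  rw [intervalIntegral.integral_const_mul]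
  ring

lemma avg_norm (ω : ι → ℝ) (G : C(UnitAddTorus ι, ℂ)) (H : ℕ) : ‖avg ω G H‖ ≤ ‖G‖ := by
  rcases Nat.eq_zero_or_pos H with h | h
  · subst h
    unfold avg
    simp
  have hH : (0:ℝ) < H := by exact_mod_cast h
  unfold avg
  have h1 : ‖∫ t in (0:ℝ)..H, G (pt fun i => t * ω i)‖ ≤ ‖G‖ * |(H:ℝ) - 0| :=
    intervalIntegral.norm_integral_le_of_norm_le_const fun t _ => G.norm_coe_le_norm _
  rw [norm_mul, norm_div, norm_one, Complex.norm_natCast]
  rw [sub_zero, abs_of_pos hH] at h1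
  calc 1 / (H:ℝ) * ‖∫ t in (0:ℝ)..H, G (pt fun i => t * ω i)‖ ≤ 1 / (H:ℝ) * (‖G‖ * H) :=
        mul_le_mul_of_nonneg_left h1 (by positivity)
    _ = ‖G‖ := by field_simp

lemma cube_int (G : C(UnitAddTorus ι, ℂ)) : Integrable (fun θ => G (pt θ)) (cube ι) := by
  refine Integrable.of_bound (C := ‖G‖) (G.continuous.comp pt_cont).aestronglyMeasurable ?_
  exact Eventually.of_forall fun θ => G.norm_coe_le_norm _

lemma exp_int_zero {m : ℤ} (hm : m ≠ 0) : ∫ x in Set.Icc (0:ℝ) 1, Complex.exp (2 * Real.pi * Complex.I * m * x) = 0 := by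
  rw [integral_Icc_eq_integral_Ioc, ← intervalIntegral.integral_of_le zero_le_one]
  have hc : (2 * Real.pi * Complex.I * m : ℂ) ≠ 0 := by
    have h1 : (Real.pi : ℂ) ≠ 0 := by exact_mod_cast Real.pi_ne_zero
    have h2 : (m : ℂ) ≠ 0 := by exact_mod_cast hm
    simp [h1, h2, Complex.I_ne_zero]
  rw [integral_exp_mul_complex hc]
  have h3 : Complex.exp (2 * Real.pi * Complex.I * m * ((1:ℝ):ℂ)) = 1 := by
    rw [Complex.exp_eq_one_iff]
    exact ⟨m, by push_cast; ring⟩
  rw [h3]
  simp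

/-- the theorem for the characters -/
lemma kw_char {ω : ι → ℝ} (hω : ∀ n : ι → ℤ, ∑ i, (n i : ℝ) * ω i = 0 → n = 0) (n : ι → ℤ) :
    Tendsto (fun H : ℕ => avg ω (UnitAddTorus.mFourier n) H) atTop (𝓝 (∫ θ, UnitAddTorus.mFourier n (pt θ) ∂(cube ι))) := by
  by_cases hn : n = 0
  · subst hn
    rw [UnitAddTorus.mFourier_zero]
    simp only [ContinuousMap.one_apply, integral_const, probReal_univ, one_smul]
    refine tendsto_const_nhds.congr' ?_
    filter_upwards [eventually_gt_atTop 0] with H hH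
    unfold avg
    have hH' : (H:ℂ) ≠ 0 := by exact_mod_cast hH.ne'
    simp [hH']
  · have h1 : ∫ θ, UnitAddTorus.mFourier n (pt θ) ∂(cube ι) = 0 := by
      simp_rw [mF_pt]
      unfold cube
      rw [integral_fintype_prod_eq_prod (fun i (x : ℝ) => Complex.exp (2 * Real.pi * Complex.I * n i * x))]
      obtain ⟨i, hi⟩ : ∃ i, n i ≠ 0 := by
        by_contra h
        push Not at h
        exact hn (funext h)
      exact Finset.prod_eq_zero (Finset.mem_univ i) (exp_int_zero hi)
    rw [h1]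
    set θ : ℝ := ∑ i, (n i : ℝ) * ω i with hθ
    have hθ0 : θ ≠ 0 := fun h => hn (hω n h)
    set c : ℂ := 2 * Real.pi * Complex.I * θ with hc
    have hc0 : c ≠ 0 := by
      have h1 : (Real.pi : ℂ) ≠ 0 := by exact_mod_cast Real.pi_ne_zero
      have h2 : (θ : ℂ) ≠ 0 := by exact_mod_cast hθ0
      simp [hc, h1, h2, Complex.I_ne_zero]
    have h2 : ∀ t : ℝ, UnitAddTorus.mFourier n (pt fun i => t * ω i) = Complex.exp (c * t) := by
      intro t
      rw [mF_pt, ← Complex.exp_sum]
      congr 1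
      rw [hc, hθ]
      push_cast
      rw [Finset.mul_sum, Finset.sum_mul]
      refine Finset.sum_congr rfl fun i _ => ?_
      ring
    rw [tendsto_zero_iff_norm_tendsto_zero]
    have h3 : Tendsto (fun H : ℕ => 2 / ‖c‖ / (H:ℝ)) atTop (𝓝 0) :=
      tendsto_const_nhds.div_atTop tendsto_natCast_atTop_atTop
    refine squeeze_zero (fun _ => norm_nonneg _) (fun H => ?_) h3
    unfold avg
    simp_rw [h2]
    rw [integral_exp_mul_complex hc0, norm_mul, norm_div, norm_div, norm_one, Complex.norm_natCast]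
    have h4 : ∀ t : ℝ, ‖Complex.exp (c * t)‖ = 1 := by
      intro t
      have : c * t = ((2 * Real.pi * θ * t : ℝ) : ℂ) * Complex.I := by
        rw [hc]
        push_cast
        ring
      rw [this, Complex.norm_exp_ofReal_mul_I]
    have h5 : ‖Complex.exp (c * ((H:ℝ):ℂ)) - Complex.exp (c * ((0:ℝ):ℂ))‖ ≤ 2 := by
      refine (norm_sub_le _ _).trans ?_
      rw [h4, h4]
      norm_num
    calc 1 / (H:ℝ) * (‖Complex.exp (c * ((H:ℝ):ℂ)) - Complex.exp (c * ((0:ℝ):ℂ))‖ / ‖c‖) ≤ 1 / (H:ℝ) * (2 / ‖c‖) := by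
          gcongr
      _ = _ := by ring

/-- **the theorem of Kronecker and Weyl** -/
theorem kw {ω : ι → ℝ} (hω : ∀ n : ι → ℤ, ∑ i, (n i : ℝ) * ω i = 0 → n = 0) (G : C(UnitAddTorus ι, ℂ)) :
    Tendsto (fun H : ℕ => avg ω G H) atTop (𝓝 (∫ θ, G (pt θ) ∂(cube ι))) := by
  have hspan : ∀ P ∈ Submodule.span ℂ (Set.range (UnitAddTorus.mFourier (d := ι))),
      Tendsto (fun H : ℕ => avg ω P H) atTop (𝓝 (∫ θ, P (pt θ) ∂(cube ι))) := by
    intro P hP
    induction hP using Submodule.span_induction with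
    | mem x hx =>
      obtain ⟨n, rfl⟩ := hx
      exact kw_char hω n
    | zero =>
      simp only [ContinuousMap.zero_apply, integral_zero]
      refine tendsto_const_nhds.congr fun H => ?_
      unfold avg
      simp
    | add x y _ _ hx hy =>
      simp_rw [avg_add, ContinuousMap.add_apply]
      rw [integral_add (cube_int x) (cube_int y)]
      exact hx.add hy
    | smul a x _ hx =>
      simp_rw [avg_smul, ContinuousMap.smul_apply, smul_eq_mul]
      rw [integral_const_mul]
      exact hx.const_mul a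
  have hcl : G ∈ closure (Submodule.span ℂ (Set.range (UnitAddTorus.mFourier (d := ι))) : Set C(UnitAddTorus ι, ℂ)) := by
    have := UnitAddTorus.span_mFourier_closure_eq_top (d := ι)
    rw [← Submodule.topologicalClosure_coe, this]
    trivial
  rw [Metric.mem_closure_iff] at hcl
  rw [Metric.tendsto_atTop]
  intro ε hε
  obtain ⟨P, hP, hGP⟩ := hcl (ε / 3) (by positivity)
  obtain ⟨N, hN⟩ := Metric.tendsto_atTop.1 (hspan P hP) (ε / 3) (by positivity)
  refine ⟨N, fun H hH => ?_⟩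
  have h1 := hN H hH
  rw [dist_eq_norm] at h1 hGP ⊢
  have h2 : ‖avg ω G H - avg ω P H‖ ≤ ‖G - P‖ := by
    have : avg ω G H - avg ω P H = avg ω (G - P) H := by
      have h3 := avg_add ω (G - P) P H
      rw [sub_add_cancel] at h3
      rw [h3]
      ring
    rw [this]
    exact avg_norm ω (G - P) H
  have h3 : ‖∫ θ, P (pt θ) ∂(cube ι) - ∫ θ, G (pt θ) ∂(cube ι)‖ ≤ ‖G - P‖ := by
    rw [← integral_sub (cube_int P) (cube_int G)]
    have h4 : ∀ᵐ θ ∂(cube ι), ‖P (pt θ) - G (pt θ)‖ ≤ ‖G - P‖ := Eventually.of_forall fun θ => by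
      rw [norm_sub_rev]
      exact (G - P).norm_coe_le_norm _
    refine (norm_integral_le_of_norm_le_const h4).trans (le_of_eq ?_)
    rw [probReal_univ, mul_one]
  have h4 : avg ω G H - ∫ θ, G (pt θ) ∂(cube ι) = (avg ω G H - avg ω P H) +
      (avg ω P H - ∫ θ, P (pt θ) ∂(cube ι)) + (∫ θ, P (pt θ) ∂(cube ι) - ∫ θ, G (pt θ) ∂(cube ι)) := by ring
  rw [h4]
  refine (norm_add₃_le).trans_lt ?_
  linarith

end Run7.h113.LE
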