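import Mathlib
import Pool.Agent.Run7.h113.LE.Ap

/-!
Exponential moments.
-/

set_option autoImplicit false

open MeasureTheory Filter Topology Finset NumberField IsDedekindDomain
open scoped ENNReal
open Pool.Agent.H921R2.TatePole (nm two_le_nm below deg nm_eq below_le_nm card_above)
open Pool.Agent.H341R2.EC
open Pool.Agent.R433.MD (lf norm_nm_cpow lf_sub_one nm_pos)
open Pool.Agent.N534.EC (ll ll_near ll_all trc_hasse)
open Pool.Agent.W350.EdgeV (FV mem_FV tendsto_FV)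
open Pool.Agent.W350.EdgeNF (hfin below_sq_summable hpow)
open Pool.Agent.W350.Edge (lg lg_le lt_lg cheb schur_row gauss_mean CC CC_pos)

namespace Run7.h113.LE

/-- a constant -/
noncomputable def Zc : ℝ := ∑' s : ℕ, 1 / (s:ℝ) ^ (3/2 : ℝ)

lemma Zc_nonneg : 0 ≤ Zc := tsum_nonneg fun _ => by positivity

lemma bb_sq_le (k s : ℕ) :
    (bb k s) ^ 2 ≤ (2 * CC) ^ (2 * (k + 1)) * (4 ^ k * (2 * k).factorial * 2) * (1 / (s:ℝ) ^ (3/2 : ℝ)) := by
  have hC := CC_pos
  rcases Nat.eq_zero_or_pos s with hs | hs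
  · subst hs
    unfold bb
    simp
  have hs0 : (0:ℝ) < s := by exact_mod_cast hs
  have h8 : 0 ≤ Real.log (s:ℝ) := Real.log_natCast_nonneg s
  have h1 : ((1 + Real.log (s:ℝ)) ^ k) ^ 2 ≤ 4 ^ k * (2 * k).factorial * 2 * (s:ℝ) ^ (1/2:ℝ) := by
    have h2 := Real.pow_div_factorial_le_exp ((1 + Real.log (s:ℝ)) / 2) (by positivity) (2 * k)
    rw [div_le_iff₀ (by positivity)] at h2
    have h3 : Real.exp ((1 + Real.log (s:ℝ)) / 2) = Real.exp (1 / 2) * (s:ℝ) ^ (1/2:ℝ) := by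
      rw [Real.rpow_def_of_pos hs0, ← Real.exp_add]
      congr 1
      ring
    have h4 : Real.exp (1 / 2) ≤ 2 := by
      have h5 := Real.exp_one_lt_d9
      have h6 : Real.exp (1 / 2) ^ 2 = Real.exp 1 := by
        rw [← Real.exp_nat_mul]
        congr 1
        norm_num
      have h7 := Real.exp_pos (1 / 2)
      nlinarith
    have h5 : ((1 + Real.log (s:ℝ)) ^ k) ^ 2 = 4 ^ k * ((1 + Real.log (s:ℝ)) / 2) ^ (2 * k) := by
      rw [← pow_mul, mul_comm k 2, div_pow, pow_mul 2 2 k]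
      norm_num
      field_simp
    rw [h5]
    calc 4 ^ k * ((1 + Real.log (s:ℝ)) / 2) ^ (2 * k)
        ≤ 4 ^ k * (Real.exp ((1 + Real.log (s:ℝ)) / 2) * (2 * k).factorial) := by gcongr
      _ = 4 ^ k * (2 * k).factorial * Real.exp (1 / 2) * (s:ℝ) ^ (1/2:ℝ) := by rw [h3]; ring
      _ ≤ 4 ^ k * (2 * k).factorial * 2 * (s:ℝ) ^ (1/2:ℝ) := by gcongr
  unfold bb
  rw [div_pow, mul_pow]
  calc ((2 * CC) ^ (k + 1)) ^ 2 * ((1 + Real.log (s:ℝ)) ^ k) ^ 2 / (s:ℝ) ^ 2
      ≤ ((2 * CC) ^ (k + 1)) ^ 2 * (4 ^ k * (2 * k).factorial * 2 * (s:ℝ) ^ (1/2:ℝ)) / (s:ℝ) ^ 2 := by gcongr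
    _ = (2 * CC) ^ (2 * (k + 1)) * (4 ^ k * (2 * k).factorial * 2) * ((s:ℝ) ^ (1/2:ℝ) / (s:ℝ) ^ 2) := by
        rw [← pow_mul, mul_comm (k + 1) 2]; ring
    _ = _ := by
        congr 1
        rw [← Real.rpow_natCast (s:ℝ) 2, ← Real.rpow_sub hs0, one_div ((s:ℝ) ^ (3/2:ℝ)), ← Real.rpow_neg hs0.le]
        congr 1
        norm_num

lemma dl_le (k L : ℕ) : dl k L ≤ (2 * CC) ^ (2 * (k + 1)) * (4 ^ k * (2 * k).factorial * 2) * Zc := by
  have h1 := (bb_summable k).sum_add_tsum_nat_add L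
  have h2 : 0 ≤ ∑ s ∈ Finset.range L, (bb k s) ^ 2 := Finset.sum_nonneg fun _ _ => sq_nonneg _
  have h3 : dl k L ≤ ∑' s : ℕ, (bb k s) ^ 2 := by
    unfold dl
    linarith
  refine h3.trans ?_
  unfold Zc
  rw [← tsum_mul_left]
  exact (bb_summable k).tsum_le_tsum (bb_sq_le k) ((Real.summable_one_div_nat_rpow.2 (by norm_num)).mul_left _)

/-- the exponent -/
noncomputable def kap (d : ℕ) : ℝ := 1 / (64 * CC * (d + 1))

lemma kap_pos (d : ℕ) : 0 < kap d := by
  unfold kap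
  have := CC_pos
  positivity

lemma kap_sq (d k : ℕ) : kap d ^ (2 * (k + 1)) / (2 * (k + 1)).factorial *
    (72 * Real.exp (k + 1) * (2 * (d:ℝ)) ^ (2 * (k + 1)) * dl k 1) ≤ (1 + 36 * Zc) * (1 / 4) ^ (k + 1) ∧
    ∀ L, kap d ^ (2 * (k + 1)) / (2 * (k + 1)).factorial *
    (72 * Real.exp (k + 1) * (2 * (d:ℝ)) ^ (2 * (k + 1)) * dl k L) ≤ (1 + 36 * Zc) * (1 / 4) ^ (k + 1) := by
  have hC := CC_pos
  have hk := kap_pos d
  have hZ := Zc_nonneg
  have key : ∀ L, kap d ^ (2 * (k + 1)) / (2 * (k + 1)).factorial *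
    (72 * Real.exp (k + 1) * (2 * (d:ℝ)) ^ (2 * (k + 1)) * dl k L) ≤ (1 + 36 * Zc) * (1 / 4) ^ (k + 1) := by
    intro L
    have h1 := dl_le k L
    have hfac : ((2 * k).factorial : ℝ) ≤ (2 * (k + 1)).factorial := by
      exact_mod_cast Nat.factorial_le (by omega)
    have hfpos : (0:ℝ) < (2 * (k + 1)).factorial := by exact_mod_cast Nat.factorial_pos _
    have he : Real.exp ((k:ℝ) + 1) ≤ 4 ^ (k + 1) := by
      have h2 : Real.exp ((k:ℝ) + 1) = Real.exp 1 ^ (k + 1) := by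
        rw [← Real.exp_nat_mul]
        congr 1
        push_cast
        ring
      rw [h2]
      have := Real.exp_one_lt_d9
      exact pow_le_pow_left₀ (Real.exp_pos 1).le (by linarith) _
    calc kap d ^ (2 * (k + 1)) / (2 * (k + 1)).factorial *
        (72 * Real.exp (k + 1) * (2 * (d:ℝ)) ^ (2 * (k + 1)) * dl k L)
        ≤ kap d ^ (2 * (k + 1)) / (2 * (k + 1)).factorial *
        (72 * 4 ^ (k + 1) * (2 * (d:ℝ)) ^ (2 * (k + 1)) *
          ((2 * CC) ^ (2 * (k + 1)) * (4 ^ k * (2 * (k + 1)).factorial * 2) * Zc)) := by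
          apply mul_le_mul_of_nonneg_left _ (by positivity)
          apply mul_le_mul _ _ _ (by positivity)
          · gcongr
          · refine h1.trans ?_
            gcongr
          · unfold dl
            exact tsum_nonneg fun _ => sq_nonneg _
      _ = 36 * Zc * ((kap d) ^ 2 * 4 * (2 * (d:ℝ)) ^ 2 * (2 * CC) ^ 2 * 4) ^ (k + 1) := by
          rw [pow_mul (kap d), pow_mul (2 * (d:ℝ)), pow_mul (2 * CC)]
          generalize kap d ^ 2 = X
          generalize (2 * (d:ℝ)) ^ 2 = Y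
          generalize (2 * CC) ^ 2 = W
          generalize (((2 * (k + 1)).factorial : ℕ) : ℝ) = F at hfpos
          rw [mul_pow, mul_pow, mul_pow, mul_pow]
          field_simp
          ring
      _ ≤ (1 + 36 * Zc) * (1 / 4) ^ (k + 1) := by
          have h5 : (kap d) ^ 2 * 4 * (2 * (d:ℝ)) ^ 2 * (2 * CC) ^ 2 * 4 ≤ 1 / 4 := by
            unfold kap
            have hd : (0:ℝ) ≤ d := Nat.cast_nonneg d
            have h6 : (1 / (64 * CC * ((d:ℝ) + 1))) ^ 2 * 4 * (2 * (d:ℝ)) ^ 2 * (2 * CC) ^ 2 * 4 =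
                (1 / 16) * (d / (d + 1)) ^ 2 := by
              field_simp
              ring
            rw [h6]
            have h7 : (d:ℝ) / (d + 1) ≤ 1 := by
              rw [div_le_one (by positivity)]
              linarith
            have h8 : 0 ≤ (d:ℝ) / (d + 1) := by positivity
            nlinarith
          have h6 : ((kap d) ^ 2 * 4 * (2 * (d:ℝ)) ^ 2 * (2 * CC) ^ 2 * 4) ^ (k + 1) ≤ (1 / 4) ^ (k + 1) :=
            pow_le_pow_left₀ (by positivity) h5 _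
          have h7 : (0:ℝ) < (1 / 4) ^ (k + 1) := by positivity
          nlinarith
  exact ⟨key 1, key⟩

/-- exponential moments of Dirichlet polynomials over primes -/
lemma exp_mom (d : ℕ) {F : Finset ℕ} {L : ℕ} (hL : 1 ≤ L) (hF : ∀ p ∈ F, p.Prime ∧ L ≤ lg p) (c : ℕ → ℂ)
    (hc : ∀ p ∈ F, ‖c p‖ ≤ (2 * (d:ℝ)) * (1 / (p:ℝ))) (T : ℝ) :
    ∫⁻ t, ENNReal.ofReal (Real.exp (kap d * ‖∑ p ∈ F, c p * Complex.exp (-(t * Real.log p) * Complex.I)‖)) ∂(mu T) ≤
      ENNReal.ofReal (3 * (1 + 36 * Zc)) := by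
  have hκ := kap_pos d
  have hZ := Zc_nonneg
  set A : ℝ → ℂ := fun t => ∑ p ∈ F, c p * Complex.exp (-(t * Real.log p) * Complex.I) with hA
  have hAc : Continuous A := by
    rw [hA]
    fun_prop
  have h1 : ∀ t, ENNReal.ofReal (Real.exp (kap d * ‖A t‖)) ≤
      2 * ∑' n : ℕ, ENNReal.ofReal ((kap d * ‖A t‖) ^ (2 * n) / (2 * n).factorial) := by
    intro t
    rw [← ENNReal.ofReal_tsum_of_nonneg (fun n => by positivity) (Real.hasSum_cosh _).summable,
      (Real.hasSum_cosh _).tsum_eq, show (2:ℝ≥0∞) = ENNReal.ofReal 2 by simp, ← ENNReal.ofReal_mul (by norm_num)]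
    apply ENNReal.ofReal_le_ofReal
    rw [Real.cosh_eq]
    have := Real.exp_pos (-(kap d * ‖A t‖))
    linarith
  have h2 : ∀ n : ℕ, ∫⁻ t, ENNReal.ofReal ((kap d * ‖A t‖) ^ (2 * n) / (2 * n).factorial) ∂(mu T) ≤
      ENNReal.ofReal ((1 + 36 * Zc) * (1 / 4) ^ n) := by
    intro n
    rcases n with _ | k
    · simp only [mul_zero, pow_zero, Nat.factorial_zero, Nat.cast_one, div_one, mul_one, ENNReal.ofReal_one,
        lintegral_const, measure_univ]
      rw [← ENNReal.ofReal_one]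
      apply ENNReal.ofReal_le_ofReal
      linarith
    · have h3 : ∀ t, (kap d * ‖A t‖) ^ (2 * (k + 1)) / (2 * (k + 1)).factorial =
          kap d ^ (2 * (k + 1)) / (2 * (k + 1)).factorial * ‖A t‖ ^ (2 * (k + 1)) := by
        intro t
        rw [mul_pow]
        ring
      simp_rw [h3]
      rw [← ofReal_integral_eq_lintegral_ofReal]
      · apply ENNReal.ofReal_le_ofReal
        unfold mu
        rw [integral_Icc_eq_integral_Ioc, ← intervalIntegral.integral_of_le (by linarith),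
          intervalIntegral.integral_const_mul]
        have h4 := main_int k (F := F) (L := L) hL hF c (M := 2 * (d:ℝ)) (by positivity) hc T
        refine le_trans (mul_le_mul_of_nonneg_left h4 (by positivity)) ?_
        exact (kap_sq d k).2 L
      · exact ((hAc.norm.pow _).const_mul _).integrableOn_Icc
      · exact Eventually.of_forall fun t => by positivity
  calc ∫⁻ t, ENNReal.ofReal (Real.exp (kap d * ‖A t‖)) ∂(mu T)
      ≤ ∫⁻ t, 2 * ∑' n : ℕ, ENNReal.ofReal ((kap d * ‖A t‖) ^ (2 * n) / (2 * n).factorial) ∂(mu T) :=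
        lintegral_mono h1
    _ = 2 * ∑' n : ℕ, ∫⁻ t, ENNReal.ofReal ((kap d * ‖A t‖) ^ (2 * n) / (2 * n).factorial) ∂(mu T) := by
        rw [lintegral_const_mul' _ _ (by simp), lintegral_tsum]
        intro n
        exact (((continuous_const.mul hAc.norm).pow _).div_const _).measurable.ennreal_ofReal.aemeasurable
    _ ≤ 2 * ∑' n : ℕ, ENNReal.ofReal ((1 + 36 * Zc) * (1 / 4) ^ n) := by
        gcongr with n
        exact h2 n
    _ = ENNReal.ofReal (2 * ((1 + 36 * Zc) * (4 / 3))) := by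
        have hs : Summable fun n : ℕ => (1 + 36 * Zc) * (1 / 4 : ℝ) ^ n :=
          (summable_geometric_of_lt_one (by norm_num) (by norm_num)).mul_left _
        rw [← ENNReal.ofReal_tsum_of_nonneg (fun n => by positivity) hs, tsum_mul_left,
          tsum_geometric_of_lt_one (by norm_num) (by norm_num), show (2:ℝ≥0∞) = ENNReal.ofReal 2 by simp,
          ← ENNReal.ofReal_mul (by norm_num)]
        norm_num
    _ ≤ _ := by
        apply ENNReal.ofReal_le_ofReal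
        nlinarith

/-- the common bound for the exponential moments -/
noncomputable def Bd (d : ℕ) : ℝ := Real.exp (kap d * (100 * (d * 4 ^ d) + 6 * d)) * (3 * (1 + 36 * Zc))

lemma Bd_nonneg (d : ℕ) : 0 ≤ Bd d := by
  unfold Bd
  have := Zc_nonneg
  positivity

lemma one_le_lg {p : ℕ} (hp : 4 ≤ p) : 1 ≤ lg p := by
  unfold Pool.Agent.W350.Edge.lg
  rw [Nat.le_floor_iff' one_ne_zero, Nat.cast_one, Real.le_log_iff_exp_le]
  · have h1 := Real.exp_one_lt_d9
    have h2 : (4:ℝ) ≤ p := by exact_mod_cast hp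
    linarith
  · have : 0 < p := by omega
    exact_mod_cast this

section
variable {K : Type} [Field K] [NumberField K]

lemma finrank_pos'' : 0 < Module.finrank ℚ K := Module.finrank_pos

lemma Sx_le (V : HeightOneSpectrum (𝓞 K) → WeierstrassCurve (𝓞 K)) {d : ℕ} (hd : Module.finrank ℚ K ≤ d) (Y : ℕ)
    {u : ℂ} (hu : 0 ≤ u.re) : ‖Sx V Y u‖ ≤ 100 * (d * Y) := by
  unfold Sx
  refine (norm_sum_le_of_le _ fun v _ => ll_triv V hu v).trans ?_
  rw [Finset.sum_const, nsmul_eq_mul]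
  have h2 : ((FV nm (hfin (K := K)) Y).card : ℝ) ≤ d * Y := by
    have := card_FV (K := K) Y
    have h3 : (FV nm (hfin (K := K)) Y).card ≤ d * Y := this.trans (Nat.mul_le_mul_right _ hd)
    exact_mod_cast h3
  linarith

/-- uniform exponential moments -/
theorem exp_Sx (V : HeightOneSpectrum (𝓞 K) → WeierstrassCurve (𝓞 K)) {d : ℕ} (hd : Module.finrank ℚ K ≤ d) {σ : ℝ}
    (hσ : 0 ≤ σ) {x : ℕ} (hx : 4 ^ d ≤ x) (T : ℝ) :
    ∫⁻ t : ℝ, ENNReal.ofReal (Real.exp (kap d * ‖Sx V x ((σ:ℂ) + t * Complex.I)‖)) ∂(mu T) ≤ ENNReal.ofReal (Bd d) := by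
  have hκ := kap_pos d
  have hd1 : 0 < d := lt_of_lt_of_le (finrank_pos'' (K := K)) hd
  have hdr : (Module.finrank ℚ K : ℝ) ≤ d := by exact_mod_cast hd
  set F := (Ico (4 ^ d) x).filter Nat.Prime with hF
  have hFp : ∀ p ∈ F, p.Prime ∧ 4 ≤ p := by
    intro p hp
    rw [hF, mem_filter, mem_Ico] at hp
    exact ⟨hp.2, (Nat.le_self_pow hd1.ne' 4).trans hp.1.1⟩
  have h1 := exp_mom d (F := F) (L := 1) le_rfl (fun p hp => ⟨(hFp p hp).1, one_le_lg (hFp p hp).2⟩) (cc V σ)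
    (fun p hp => by
      refine (cc_norm hσ (hFp p hp).1 (hFp p hp).2).trans ?_
      apply mul_le_mul_of_nonneg_right _ (by positivity)
      linarith) T
  have h2 : ∀ t : ℝ, ENNReal.ofReal (Real.exp (kap d * ‖Sx V x ((σ:ℂ) + t * Complex.I)‖)) ≤
      ENNReal.ofReal (Real.exp (kap d * (100 * (d * 4 ^ d) + 6 * d))) *
        ENNReal.ofReal (Real.exp (kap d * ‖∑ p ∈ F, cc V σ p * Complex.exp (-(t * Real.log p) * Complex.I)‖)) := by
    intro t
    rw [← ENNReal.ofReal_mul (Real.exp_pos _).le, ← Real.exp_add]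
    apply ENNReal.ofReal_le_ofReal
    apply Real.exp_le_exp.2
    rw [← mul_add]
    apply mul_le_mul_of_nonneg_left _ hκ.le
    have h3 := decomp V hd (P0 := 4) le_rfl hx hσ t
    have h4 := Sx_le V hd (4 ^ d) (u := (σ:ℂ) + t * Complex.I) (by simp [hσ])
    set a := Sx V x ((σ:ℂ) + t * Complex.I)
    set b := Sx V (4 ^ d) ((σ:ℂ) + t * Complex.I)
    set c := ∑ p ∈ F, cc V σ p * Complex.exp (-(t * Real.log p) * Complex.I)
    have h5 : ‖a‖ ≤ ‖b‖ + ‖a - b - c‖ + ‖c‖ := by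
      have e : a = b + (a - b - c) + c := by ring
      calc ‖a‖ = ‖b + (a - b - c) + c‖ := by rw [← e]
        _ ≤ _ := norm_add₃_le
    push_cast at h3 h4
    linarith
  refine (lintegral_mono h2).trans ?_
  rw [lintegral_const_mul' _ _ ENNReal.ofReal_ne_top]
  unfold Bd
  rw [ENNReal.ofReal_mul (Real.exp_pos _).le]
  exact mul_le_mul_right h1 _

/-- exponential moments of the limit functions -/
theorem exp_lim {V : HeightOneSpectrum (𝓞 K) → WeierstrassCurve (𝓞 K)} {d : ℕ} (hd : Module.finrank ℚ K ≤ d) {σ : ℝ}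
    (hσ : 0 ≤ σ) {g : ℝ → ℂ} (hg : IsLim V σ g) (T : ℝ) :
    ∫⁻ t : ℝ, ENNReal.ofReal (Real.exp (kap d * ‖g t‖)) ∂(mu T) ≤ ENNReal.ofReal (Bd d) := by
  have h1 : ∫⁻ t : ℝ, ENNReal.ofReal (Real.exp (kap d * ‖g t‖)) ∂(mu T) ≤
      ∫⁻ t : ℝ, liminf (fun x : ℕ => ENNReal.ofReal (Real.exp (kap d * ‖Sx V x ((σ:ℂ) + t * Complex.I)‖))) atTop ∂(mu T) := by
    apply lintegral_mono_ae
    apply (mu_ac T).ae_le
    filter_upwards [hg] with t ht
    have h2 : Tendsto (fun x : ℕ => ENNReal.ofReal (Real.exp (kap d * ‖Sx V x ((σ:ℂ) + t * Complex.I)‖))) atTop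
        (𝓝 (ENNReal.ofReal (Real.exp (kap d * ‖g t‖)))) := by
      apply ENNReal.tendsto_ofReal
      exact (Real.continuous_exp.tendsto _).comp (ht.norm.const_mul _)
    rw [h2.liminf_eq]
  refine h1.trans ?_
  refine (lintegral_liminf_le' fun x => ?_).trans ?_
  · exact (Real.continuous_exp.comp (continuous_const.mul (Sx_cont V x hσ).norm)).measurable.ennreal_ofReal.aemeasurable
  · apply Filter.liminf_le_of_frequently_le'
    apply Eventually.frequently
    filter_upwards [eventually_ge_atTop (4 ^ d)] with x hx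
    exact exp_Sx V hd hσ hx T

end

/-- uniform tails in the mean -/
theorem tail_one (d : ℕ) {ε : ℝ} (hε : 0 < ε) : ∃ Y0 : ℕ, ∀ (K : Type) [Field K] [NumberField K],
    Module.finrank ℚ K ≤ d → ∀ (V : HeightOneSpectrum (𝓞 K) → WeierstrassCurve (𝓞 K)) (σ : ℝ), 0 ≤ σ →
    ∀ g : ℝ → ℂ, IsLim V σ g → ∀ (T : ℝ) (Y : ℕ), Y0 ≤ Y →
      eLpNorm (fun t : ℝ => g t - Sx V Y ((σ:ℂ) + t * Complex.I)) 1 (mu T) ≤ ENNReal.ofReal ε := by
  obtain ⟨P0, hP0, h⟩ := unif d 0 (ε := ε / 2) (by positivity)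
  refine ⟨P0 ^ d, ?_⟩
  intro K _ _ hd V σ hσ g hg T Y hY
  have h2 : ((2 * (0 + 1) : ℕ) : ℝ≥0∞) = 2 := by norm_num
  have h3 : ∀ x : ℕ, Y ≤ x → eLpNorm (fun t : ℝ => Sx V x ((σ:ℂ) + t * Complex.I) - Sx V Y ((σ:ℂ) + t * Complex.I))
      2 (mu T) ≤ ENNReal.ofReal ε := by
    intro x hx
    have h4 := h K hd V σ hσ T x (hY.trans hx)
    have h5 := h K hd V σ hσ T Y hY
    rw [h2] at h4 h5
    have hm : ∀ z : ℕ, AEStronglyMeasurable (fun t : ℝ => Sx V z ((σ:ℂ) + t * Complex.I) -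
        Sx V (P0 ^ d) ((σ:ℂ) + t * Complex.I)) (mu T) :=
      fun z => ((Sx_cont V z hσ).sub (Sx_cont V _ hσ)).aestronglyMeasurable
    have e : (fun t : ℝ => Sx V x ((σ:ℂ) + t * Complex.I) - Sx V Y ((σ:ℂ) + t * Complex.I)) =
        (fun t : ℝ => Sx V x ((σ:ℂ) + t * Complex.I) - Sx V (P0 ^ d) ((σ:ℂ) + t * Complex.I)) -
        (fun t : ℝ => Sx V Y ((σ:ℂ) + t * Complex.I) - Sx V (P0 ^ d) ((σ:ℂ) + t * Complex.I)) := by
      funext t
      simp
    rw [e]
    refine (eLpNorm_sub_le (hm x) (hm Y) (by norm_num)).trans ?_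
    refine (add_le_add h4 h5).trans (le_of_eq ?_)
    rw [← ENNReal.ofReal_add (by positivity) (by positivity)]
    congr 1
    ring
  refine (eLpNorm_le_eLpNorm_of_exponent_le (q := 2) (by norm_num) ?_).trans (hg.tail hσ h3)
  exact ((hg.aesm hσ).mono_ac (mu_ac _)).sub (Sx_cont V Y hσ).aestronglyMeasurable

end Run7.h113.LE
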