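import Mathlib
import Pool.Agent.Run7.h113.LE.Ap

/-!
Mean values of functions which are almost periodic in mean.
-/

set_option autoImplicit false

open MeasureTheory Filter Topology
open scoped ENNReal

namespace Run7.h113.LE

lemma win_nat {G : ℝ → ℝ} (hloc : ∀ a b, IntervalIntegrable G volume a b) {B : ℝ}
    (hB : ∀ T, ∫ t in T..(T + 1), G t ≤ B) (T : ℝ) (n : ℕ) : ∫ t in T..(T + n), G t ≤ n * B := by
  induction n with
  | zero => simp
  | succ n ih =>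
    have h1 := intervalIntegral.integral_add_adjacent_intervals (hloc T (T + n)) (hloc (T + n) (T + n + 1))
    have h2 := hB (T + n)
    push_cast
    rw [← add_assoc T (n:ℝ) 1, ← h1]
    linarith

lemma win_real {G : ℝ → ℝ} (hloc : ∀ a b, IntervalIntegrable G volume a b) (hG : ∀ t, 0 ≤ G t) {B : ℝ}
    (hB : ∀ T, ∫ t in T..(T + 1), G t ≤ B) (T : ℝ) {H : ℝ} (hH : 0 ≤ H) :
    ∫ t in T..(T + H), G t ≤ (H + 1) * B := by
  have hB0 : 0 ≤ B := le_trans (intervalIntegral.integral_nonneg (by linarith) fun t _ => hG t) (hB 0)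
  have h1 := win_nat hloc hB T ⌈H⌉₊
  have h2 : H ≤ ⌈H⌉₊ := Nat.le_ceil H
  have h3 : (⌈H⌉₊ : ℝ) ≤ H + 1 := (Nat.ceil_lt_add_one hH).le
  have h4 : ∫ t in T..(T + H), G t ≤ ∫ t in T..(T + ⌈H⌉₊), G t := by
    rw [← intervalIntegral.integral_add_adjacent_intervals (hloc T (T + H)) (hloc (T + H) (T + ⌈H⌉₊))]
    have h5 : 0 ≤ ∫ t in (T + H)..(T + ⌈H⌉₊), G t := intervalIntegral.integral_nonneg (by linarith) fun t _ => hG t
    linarith
  calc _ ≤ (⌈H⌉₊ : ℝ) * B := h4.trans h1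
    _ ≤ (H + 1) * B := mul_le_mul_of_nonneg_right h3 hB0

/-- almost periodic in mean -/
structure APM (F : ℝ → ℝ) (B : ℝ) (ℓ : ℝ → ℝ) : Prop where
  loc : ∀ a b, IntervalIntegrable F volume a b
  bd : ∀ T, ∫ t in T..(T + 1), |F t| ≤ B
  ap : ∀ ε : ℝ, 0 < ε → ∃ S : Set ℝ, (∀ s : ℝ, ∃ τ ∈ S, s ≤ τ ∧ τ ≤ s + ℓ ε) ∧
    ∀ τ ∈ S, ∀ T : ℝ, ∫ t in T..(T + 1), |F (t + τ) - F t| ≤ ε

variable {F : ℝ → ℝ} {B : ℝ} {ℓ : ℝ → ℝ}

lemma APM.B_nonneg (h : APM F B ℓ) : 0 ≤ B :=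
  le_trans (intervalIntegral.integral_nonneg (by linarith) fun t _ => abs_nonneg _) (h.bd 0)

lemma APM.abs_int (h : APM F B ℓ) (T : ℝ) {H : ℝ} (hH : 0 ≤ H) : |∫ t in T..(T + H), F t| ≤ (H + 1) * B := by
  have h1 : |∫ t in T..(T + H), F t| ≤ ∫ t in T..(T + H), |F t| :=
    intervalIntegral.abs_integral_le_integral_abs (by linarith)
  exact h1.trans (win_real (fun a b => (h.loc a b).abs) (fun _ => abs_nonneg _) h.bd T hH)

lemma loc_shift (h : ∀ a b, IntervalIntegrable F volume a b) (τ a b : ℝ) :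
    IntervalIntegrable (fun t => F (t + τ)) volume a b := by
  have := (h (a + τ) (b + τ)).comp_add_right τ
  simpa using this

/-- comparison of two windows -/
lemma APM.window (h : APM F B ℓ) {ε : ℝ} {S : Set ℝ} {l : ℝ} (hS : ∀ s : ℝ, ∃ τ ∈ S, s ≤ τ ∧ τ ≤ s + l)
    (hap : ∀ τ ∈ S, ∀ T : ℝ, ∫ t in T..(T + 1), |F (t + τ) - F t| ≤ ε) (T : ℝ) {H : ℝ} (hH : 0 ≤ H) :
    |(∫ t in T..(T + H), F t) - ∫ t in (0:ℝ)..H, F t| ≤ ε * (H + 1) + 2 * (B * (l + 1)) := by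
  obtain ⟨τ, hτ, h1, h2⟩ := hS T
  have hB := h.B_nonneg
  -- the translated window
  have h3 : |(∫ t in τ..(τ + H), F t) - ∫ t in (0:ℝ)..H, F t| ≤ (H + 1) * ε := by
    have e1 : ∫ t in τ..(τ + H), F t = ∫ t in (0:ℝ)..H, F (t + τ) := by
      rw [intervalIntegral.integral_comp_add_right, zero_add, add_comm H τ]
    rw [e1, ← intervalIntegral.integral_sub (loc_shift h.loc τ 0 H) (h.loc 0 H)]
    have h4 : |∫ t in (0:ℝ)..H, (F (t + τ) - F t)| ≤ ∫ t in (0:ℝ)..H, |F (t + τ) - F t| :=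
      intervalIntegral.abs_integral_le_integral_abs hH
    refine h4.trans ?_
    have h5 := win_real (G := fun t => |F (t + τ) - F t|) (fun a b => ((loc_shift h.loc τ a b).sub (h.loc a b)).abs)
      (fun _ => abs_nonneg _) (hap τ hτ) 0 hH
    rw [zero_add] at h5
    exact h5
  have h4 : |∫ t in T..τ, F t| ≤ B * (l + 1) := by
    have h5 := h.abs_int T (H := τ - T) (by linarith)
    rw [add_sub_cancel] at h5
    refine h5.trans ?_
    rw [mul_comm]
    exact mul_le_mul_of_nonneg_left (by linarith) hB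
  have h5 : |∫ t in (T + H)..(τ + H), F t| ≤ B * (l + 1) := by
    have h6 := h.abs_int (T + H) (H := τ - T) (by linarith)
    have e1 : T + H + (τ - T) = τ + H := by ring
    rw [e1] at h6
    refine h6.trans ?_
    rw [mul_comm]
    exact mul_le_mul_of_nonneg_left (by linarith) hB
  have e2 : ∫ t in T..(T + H), F t = (∫ t in T..τ, F t) + (∫ t in τ..(τ + H), F t) - ∫ t in (T + H)..(τ + H), F t := by
    rw [intervalIntegral.integral_add_adjacent_intervals (h.loc _ _) (h.loc _ _),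
      ← intervalIntegral.integral_add_adjacent_intervals (h.loc T (T + H)) (h.loc (T + H) (τ + H))]
    ring
  rw [e2]
  rw [abs_le] at h3 h4 h5 ⊢
  constructor <;> linarith [h3.1, h3.2, h4.1, h4.2, h5.1, h5.2]

/-- sums of windows -/
lemma APM.windows (h : APM F B ℓ) {c E H1 : ℝ} (hc : ∀ T, |(∫ t in T..(T + H1), F t) - c| ≤ E) (T : ℝ) (n : ℕ) :
    |(∫ t in T..(T + n * H1), F t) - n * c| ≤ n * E := by
  induction n with
  | zero => simp
  | succ n ih =>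
    have h1 := intervalIntegral.integral_add_adjacent_intervals (h.loc T (T + n * H1))
      (h.loc (T + n * H1) (T + n * H1 + H1))
    have h2 := hc (T + n * H1)
    have e : T + ((n + 1 : ℕ) : ℝ) * H1 = T + n * H1 + H1 := by push_cast; ring
    rw [e, ← h1]
    push_cast
    rw [abs_le] at ih h2 ⊢
    constructor <;> linarith [ih.1, ih.2, h2.1, h2.2]

/-- the length of the basic windows -/
noncomputable def H1 (ε B : ℝ) (ℓ : ℝ → ℝ) : ℝ := 1 + (2 * (B * (ℓ (ε / 8) + 1))) / (ε / 4)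

/-- the length of the long windows -/
noncomputable def H0 (ε B : ℝ) (ℓ : ℝ → ℝ) : ℝ := 1 + (4 * (B * (H1 ε B ℓ + 1))) / (ε / 2)

lemma H1_ge {ε B : ℝ} {ℓ : ℝ → ℝ} (hε : 0 < ε) (hB : 0 ≤ B) (hl : 0 ≤ ℓ (ε / 8)) : 1 ≤ H1 ε B ℓ := by
  unfold H1
  have : 0 ≤ (2 * (B * (ℓ (ε / 8) + 1))) / (ε / 4) := by positivity
  linarith

lemma H0_ge {ε B : ℝ} {ℓ : ℝ → ℝ} (hε : 0 < ε) (hB : 0 ≤ B) (hl : 0 ≤ ℓ (ε / 8)) : 1 ≤ H0 ε B ℓ := by
  unfold H0
  have h1 := H1_ge hε hB hl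
  have : 0 ≤ (4 * (B * (H1 ε B ℓ + 1))) / (ε / 2) := by positivity
  linarith

lemma APM.l_nonneg (h : APM F B ℓ) {ε : ℝ} (hε : 0 < ε) : 0 ≤ ℓ ε := by
  obtain ⟨S, hS, _⟩ := h.ap ε hε
  obtain ⟨τ, _, h1, h2⟩ := hS 0
  linarith

lemma APM.claim (h : APM F B ℓ) {ε : ℝ} (hε : 0 < ε) : ∃ c : ℝ, ∀ H : ℝ, H0 ε B ℓ ≤ H → ∀ T : ℝ,
    |(∫ t in T..(T + H), F t) - c * H| ≤ ε * H := by
  obtain ⟨S, hS, hap⟩ := h.ap (ε / 8) (by positivity)
  have hB := h.B_nonneg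
  have hl : 0 ≤ ℓ (ε / 8) := h.l_nonneg (by positivity)
  have hH1' := H1_ge hε hB hl
  have hH0' := H0_ge hε hB hl
  have hE : ε / 8 * (H1 ε B ℓ + 1) + 2 * (B * (ℓ (ε / 8) + 1)) ≤ ε / 2 * H1 ε B ℓ := by
    have h1 : ε / 4 * H1 ε B ℓ = ε / 4 + 2 * (B * (ℓ (ε / 8) + 1)) := by
      unfold H1
      field_simp
    nlinarith
  have hlarge' : ∀ H : ℝ, H0 ε B ℓ ≤ H → 4 * (B * (H1 ε B ℓ + 1)) ≤ ε / 2 * H := by
    intro H hH
    have h1 : (4 * (B * (H1 ε B ℓ + 1))) / (ε / 2) ≤ H := by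
      unfold H0 at hH
      linarith
    rw [div_le_iff₀ (by positivity)] at h1
    linarith
  generalize H1 ε B ℓ = H1 at *
  set c1 : ℝ := ∫ t in (0:ℝ)..H1, F t with hc1
  have hwin : ∀ T, |(∫ t in T..(T + H1), F t) - c1| ≤ ε / 2 * H1 := fun T =>
    (h.window hS hap T (by linarith)).trans hE
  have hc1B : |c1| ≤ B * (H1 + 1) := by
    have := h.abs_int 0 (H := H1) (by linarith)
    rw [zero_add] at this
    rw [mul_comm]
    exact this
  refine ⟨c1 / H1, fun H hH T => ?_⟩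
  have hHpos : 0 < H := by linarith
  have hlarge := hlarge' H hH
  set n := ⌊H / H1⌋₊ with hn
  have hn1 : (n:ℝ) * H1 ≤ H := by
    have := Nat.floor_le (a := H / H1) (by positivity)
    rw [le_div_iff₀ (by linarith)] at this
    exact this
  have hn2 : H - n * H1 ≤ H1 := by
    have := Nat.lt_floor_add_one (H / H1)
    rw [div_lt_iff₀ (by linarith)] at this
    have h3 : H < ((n:ℝ) + 1) * H1 := this
    linarith
  have h1 := h.windows hwin T n
  have h2 := h.abs_int (T + n * H1) (H := H - n * H1) (by linarith)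
  have e1 : T + n * H1 + (H - n * H1) = T + H := by ring
  rw [e1] at h2
  have h3 := intervalIntegral.integral_add_adjacent_intervals (h.loc T (T + n * H1)) (h.loc (T + n * H1) (T + H))
  have h4 : (H - n * H1 + 1) * B ≤ B * (H1 + 1) := by
    rw [mul_comm]
    exact mul_le_mul_of_nonneg_left (by linarith) hB
  -- the constant
  have h5 : |n * c1 - c1 / H1 * H| ≤ B * (H1 + 1) := by
    have e2 : n * c1 - c1 / H1 * H = -(c1 / H1 * (H - n * H1)) := by
      field_simp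
      ring
    rw [e2, abs_neg, abs_mul, abs_div, abs_of_pos (show 0 < H1 by linarith), abs_of_nonneg (show 0 ≤ H - n * H1 by linarith)]
    calc |c1| / H1 * (H - n * H1) ≤ |c1| / H1 * H1 := mul_le_mul_of_nonneg_left hn2 (by positivity)
      _ = |c1| := by field_simp
      _ ≤ _ := hc1B
  have h6 : (n:ℝ) * (ε / 2 * H1) ≤ ε / 2 * H := by
    calc (n:ℝ) * (ε / 2 * H1) = ε / 2 * (n * H1) := by ring
      _ ≤ _ := mul_le_mul_of_nonneg_left hn1 (by positivity)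
  rw [← h3]
  rw [abs_le] at h1 h2 h5 ⊢
  constructor <;> linarith [h1.1, h1.2, h2.1, h2.2, h5.1, h5.2]

/-- **the mean value, uniformly in all windows** -/
theorem APM.mean (h : APM F B ℓ) : ∃ M : ℝ, ∀ ε : ℝ, 0 < ε → ∀ H : ℝ, H0 (ε / 2) B ℓ ≤ H → ∀ T : ℝ,
    |(∫ t in T..(T + H), F t) - M * H| ≤ ε * H := by
  have hcl := fun ε : {ε : ℝ // 0 < ε} => h.claim (ε := ε.1) ε.2
  choose c hc using hcl
  have hcc : ∀ a b : {ε : ℝ // 0 < ε}, |c a - c b| ≤ a.1 + b.1 := by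
    intro a b
    set H := max (H0 a.1 B ℓ) (H0 b.1 B ℓ) with hH
    have hHp : 0 < H := lt_of_lt_of_le (by linarith [H0_ge a.2 h.B_nonneg (h.l_nonneg (ε := a.1 / 8) (by linarith [a.2]))]) (le_max_left _ _)
    have h1 := hc a H (le_max_left _ _) 0
    have h2 := hc b H (le_max_right _ _) 0
    have h3 : |c a * H - c b * H| ≤ (a.1 + b.1) * H := by
      rw [abs_le] at h1 h2 ⊢
      constructor <;> linarith [h1.1, h1.2, h2.1, h2.2]
    rw [← sub_mul, abs_mul, abs_of_pos hHp] at h3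
    exact le_of_mul_le_mul_right h3 hHp
  set e : ℕ → {ε : ℝ // 0 < ε} := fun n => ⟨1 / ((n:ℝ) + 1), by positivity⟩ with he
  have hlim : Tendsto (fun n : ℕ => (e n).1) atTop (𝓝 0) := tendsto_one_div_add_atTop_nhds_zero_nat
  have hcs : CauchySeq (fun n => c (e n)) := by
    rw [Metric.cauchySeq_iff']
    intro ε hε
    obtain ⟨N, hN⟩ := eventually_atTop.1 (hlim.eventually (gt_mem_nhds (show 0 < ε / 2 by positivity)))
    refine ⟨N, fun n hn => ?_⟩
    rw [Real.dist_eq]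
    have h1 := hcc (e n) (e N)
    have h2 := hN n hn
    have h3 := hN N le_rfl
    linarith
  obtain ⟨M, hM⟩ := cauchySeq_tendsto_of_complete hcs
  refine ⟨M, fun ε hε H hH T => ?_⟩
  have hε2 : 0 < ε / 2 := by positivity
  have hcM : |c ⟨ε / 2, hε2⟩ - M| ≤ ε / 2 := by
    have h1 : Tendsto (fun n => |c ⟨ε / 2, hε2⟩ - c (e n)|) atTop (𝓝 |c ⟨ε / 2, hε2⟩ - M|) :=
      (tendsto_const_nhds.sub hM).abs
    have h2 : Tendsto (fun n => ε / 2 + (e n).1) atTop (𝓝 (ε / 2 + 0)) := tendsto_const_nhds.add hlim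
    rw [add_zero] at h2
    exact le_of_tendsto_of_tendsto' h1 h2 fun n => hcc ⟨ε / 2, hε2⟩ (e n)
  have hHp : 0 < H := by
    have := H0_ge hε2 h.B_nonneg (h.l_nonneg (ε := ε / 2 / 8) (by positivity))
    linarith
  have h3 := hc ⟨ε / 2, hε2⟩ H hH T
  have h4 : |c ⟨ε / 2, hε2⟩ * H - M * H| ≤ ε / 2 * H := by
    rw [← sub_mul, abs_mul, abs_of_pos hHp]
    exact mul_le_mul_of_nonneg_right hcM hHp.le
  simp only at h3
  rw [abs_le] at h3 h4 ⊢
  constructor <;> linarith [h3.1, h3.2, h4.1, h4.2]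

end Run7.h113.LE
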