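import Mathlib
import Pool.Agent.Run7.h113.LE.Mean
import Pool.Agent.Run7.h113.LE.Exq

/-!
Functions of the boundary values.
-/

set_option autoImplicit false

open MeasureTheory Filter Topology
open scoped ENNReal

namespace Run7.h113.LE

/-- functions with bounded exponential moments -/
structure Good (κ B : ℝ) (g : ℝ → ℂ) : Prop where
  meas : AEStronglyMeasurable g volume
  mom : ∀ T, ∫⁻ t, ENNReal.ofReal (Real.exp (κ * ‖g t‖)) ∂(mu T) ≤ ENNReal.ofReal B

/-- almost periodic in the sense of Stepanov -/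
def SAP (g : ℝ → ℂ) (ℓ : ℝ → ℝ) : Prop := ∀ ε : ℝ, 0 < ε → ∃ S : Set ℝ, (∀ s : ℝ, ∃ τ ∈ S, s ≤ τ ∧ τ ≤ s + ℓ ε) ∧
  ∀ τ ∈ S, ∀ T : ℝ, ∫ t, ‖g (t + τ) - g t‖ ∂(mu T) ≤ ε

lemma int_mu (F : ℝ → ℝ) (T : ℝ) : ∫ t in T..(T + 1), F t = ∫ t, F t ∂(mu T) := by
  unfold mu
  rw [integral_Icc_eq_integral_Ioc, ← intervalIntegral.integral_of_le (by linarith)]

variable {κ B : ℝ} {g h : ℝ → ℂ}

lemma Good.aem (hg : Good κ B g) (T : ℝ) : AEStronglyMeasurable g (mu T) := hg.meas.mono_ac (mu_ac T)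

lemma exp_aem (κ : ℝ) {g : ℝ → ℂ} {m : Measure ℝ} (hg : AEStronglyMeasurable g m) :
    AEStronglyMeasurable (fun t => Real.exp (κ * ‖g t‖)) m :=
  (Real.continuous_exp.comp_aestronglyMeasurable (hg.norm.const_mul κ))

lemma Good.intexp (hg : Good κ B g) (T : ℝ) : Integrable (fun t => Real.exp (κ * ‖g t‖)) (mu T) := by
  refine ⟨exp_aem κ (hg.aem T), ?_⟩
  have h1 : ∀ t, ‖Real.exp (κ * ‖g t‖)‖ₑ = ENNReal.ofReal (Real.exp (κ * ‖g t‖)) := fun t => by
    rw [Real.enorm_eq_ofReal (Real.exp_pos _).le]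
  unfold HasFiniteIntegral
  simp_rw [h1]
  exact (hg.mom T).trans_lt ENNReal.ofReal_lt_top

lemma Good.int_le (hg : Good κ B g) (hB : 0 ≤ B) (T : ℝ) : ∫ t, Real.exp (κ * ‖g t‖) ∂(mu T) ≤ B := by
  rw [integral_eq_lintegral_of_nonneg_ae (Eventually.of_forall fun t => (Real.exp_pos _).le) (exp_aem κ (hg.aem T))]
  exact ENNReal.toReal_le_of_le_ofReal hB (hg.mom T)

lemma Good.shift (hg : Good κ B g) (τ : ℝ) : Good κ B (fun t => g (t + τ)) := by
  refine ⟨?_, fun T => ?_⟩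
  · exact hg.meas.comp_measurePreserving (measurePreserving_add_right volume τ)
  · have h1 := (mp_shift T τ).lintegral_comp_emb (MeasurableEquiv.addRight τ).measurableEmbedding
      (fun t => ENNReal.ofReal (Real.exp (κ * ‖g t‖)))
    rw [h1]
    exact hg.mom (T + τ)

lemma Good.norm_int (hκ : 0 < κ) (hg : Good κ B g) (T : ℝ) : Integrable (fun t => ‖g t‖) (mu T) := by
  refine ((hg.intexp T).const_mul (1 / κ)).mono' (hg.aem T).norm (Eventually.of_forall fun t => ?_)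
  rw [Real.norm_of_nonneg (norm_nonneg _)]
  have := Real.add_one_le_exp (κ * ‖g t‖)
  rw [one_div, inv_mul_eq_div, le_div_iff₀ hκ]
  linarith

/-- the comparison of two values -/
lemma test_ineq {f : ℂ → ℝ} (hf : Continuous f) {C : ℝ} (hC : ∀ z, |f z| ≤ C * Real.exp (κ / 2 * ‖z‖)) (hκ : 0 < κ)
    {ε : ℝ} (hε : 0 < ε) : ∃ A : ℝ, 0 ≤ A ∧ ∀ z w : ℂ,
      |f z - f w| ≤ ε * (Real.exp (κ * ‖z‖) + Real.exp (κ * ‖w‖)) + A * ‖z - w‖ := by
  have hC0 : 0 ≤ C := by
    have := (abs_nonneg _).trans (hC 0)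
    rwa [norm_zero, mul_zero, Real.exp_zero, mul_one] at this
  -- the radius
  obtain ⟨R, hR0, hR⟩ : ∃ R : ℝ, 0 ≤ R ∧ ∀ r : ℝ, R ≤ r → C * Real.exp (κ / 2 * r) ≤ ε / 2 * Real.exp (κ * r) := by
    refine ⟨2 * C / ε * (2 / κ), by positivity, fun r hr => ?_⟩
    have h1 : Real.exp (κ * r) = Real.exp (κ / 2 * r) * Real.exp (κ / 2 * r) := by
      rw [← Real.exp_add]
      congr 1
      ring
    rw [h1, ← mul_assoc]
    apply mul_le_mul_of_nonneg_right _ (Real.exp_pos _).le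
    have h2 := Real.add_one_le_exp (κ / 2 * r)
    have h3 : 2 * C / ε ≤ κ / 2 * r := by
      calc 2 * C / ε = κ / 2 * (2 * C / ε * (2 / κ)) := by field_simp
        _ ≤ _ := mul_le_mul_of_nonneg_left hr (by positivity)
    have h4 : C = ε / 2 * (2 * C / ε) := by field_simp
    calc C = ε / 2 * (2 * C / ε) := h4
      _ ≤ ε / 2 * Real.exp (κ / 2 * r) := mul_le_mul_of_nonneg_left (by linarith) (by positivity)
  -- uniform continuity
  have huc : UniformContinuousOn f (Metric.closedBall 0 R) :=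
    (isCompact_closedBall (0:ℂ) R).uniformContinuousOn_of_continuous hf.continuousOn
  rw [Metric.uniformContinuousOn_iff] at huc
  obtain ⟨δ, hδ, hu⟩ := huc ε hε
  refine ⟨2 * (C * Real.exp (κ / 2 * R)) / δ, by positivity, fun z w => ?_⟩
  have hA : 0 ≤ 2 * (C * Real.exp (κ / 2 * R)) / δ * ‖z - w‖ := by positivity
  have hez := Real.exp_pos (κ * ‖z‖)
  have hew := Real.exp_pos (κ * ‖w‖)
  have hmono : ∀ r s : ℝ, r ≤ s → C * Real.exp (κ / 2 * r) ≤ C * Real.exp (κ / 2 * s) := by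
    intro r s hrs
    apply mul_le_mul_of_nonneg_left _ hC0
    apply Real.exp_le_exp.2
    exact mul_le_mul_of_nonneg_left hrs (by positivity)
  have htri : |f z - f w| ≤ |f z| + |f w| := abs_sub _ _
  have hz := hC z
  have hw := hC w
  rcases le_total R ‖z‖ with h1 | h1
  · have h2 := hR _ h1
    rcases le_total ‖w‖ ‖z‖ with h3 | h3
    · have h4 := hmono _ _ h3
      nlinarith
    · have h4 := hmono _ _ h3
      have h5 := hR _ (h1.trans h3)
      nlinarith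
  · rcases le_total R ‖w‖ with h3 | h3
    · have h2 := hR _ h3
      have h4 := hmono _ _ (h1.trans h3)
      nlinarith
    · rcases lt_or_ge ‖z - w‖ δ with h4 | h4
      · have h5 := hu z (mem_closedBall_zero_iff.2 h1) w (mem_closedBall_zero_iff.2 h3) (by rw [dist_eq_norm]; exact h4)
        rw [Real.dist_eq] at h5
        have h6 : 1 ≤ Real.exp (κ * ‖z‖) := Real.one_le_exp (by positivity)
        nlinarith
      · have h5 := hmono _ _ h1
        have h6 := hmono _ _ h3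
        have h7 : 2 * (C * Real.exp (κ / 2 * R)) ≤ 2 * (C * Real.exp (κ / 2 * R)) / δ * ‖z - w‖ := by
          have h8 : 0 ≤ 2 * (C * Real.exp (κ / 2 * R)) := by positivity
          generalize 2 * (C * Real.exp (κ / 2 * R)) = Q at h8
          rw [div_mul_eq_mul_div, le_div_iff₀ hδ]
          exact mul_le_mul_of_nonneg_left h4 h8
        nlinarith

lemma Good.f_int {f : ℂ → ℝ} (hf : Continuous f) {C : ℝ} (hC : ∀ z, |f z| ≤ C * Real.exp (κ / 2 * ‖z‖)) (hκ : 0 < κ)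
    (hg : Good κ B g) (T : ℝ) : Integrable (fun t => f (g t)) (mu T) := by
  have hC0 : 0 ≤ C := by
    have := (abs_nonneg _).trans (hC 0)
    rwa [norm_zero, mul_zero, Real.exp_zero, mul_one] at this
  refine ((hg.intexp T).const_mul C).mono' (hf.comp_aestronglyMeasurable (hg.aem T)) (Eventually.of_forall fun t => ?_)
  rw [Real.norm_eq_abs]
  refine (hC _).trans (mul_le_mul_of_nonneg_left ?_ hC0)
  apply Real.exp_le_exp.2
  exact mul_le_mul_of_nonneg_right (by linarith) (norm_nonneg _)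

lemma Good.f_le {f : ℂ → ℝ} (hf : Continuous f) {C : ℝ} (hC : ∀ z, |f z| ≤ C * Real.exp (κ / 2 * ‖z‖)) (hκ : 0 < κ)
    (hB : 0 ≤ B) (hg : Good κ B g) (T : ℝ) : ∫ t, |f (g t)| ∂(mu T) ≤ C * B := by
  have hC0 : 0 ≤ C := by
    have := (abs_nonneg _).trans (hC 0)
    rwa [norm_zero, mul_zero, Real.exp_zero, mul_one] at this
  refine (integral_mono (hg.f_int hf hC hκ T).abs ((hg.intexp T).const_mul C) fun t => ?_).trans ?_
  · refine (hC _).trans (mul_le_mul_of_nonneg_left ?_ hC0)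
    apply Real.exp_le_exp.2
    exact mul_le_mul_of_nonneg_right (by linarith) (norm_nonneg _)
  · rw [integral_const_mul]
    exact mul_le_mul_of_nonneg_left (hg.int_le hB T) hC0

/-- **comparison in the mean** -/
lemma Good.diff {f : ℂ → ℝ} (hf : Continuous f) {C : ℝ} (hC : ∀ z, |f z| ≤ C * Real.exp (κ / 2 * ‖z‖)) (hκ : 0 < κ)
    (hB : 0 ≤ B) (hg : Good κ B g) (hh : Good κ B h) {ε A : ℝ} (hε : 0 ≤ ε) (hA : 0 ≤ A)
    (hfA : ∀ z w : ℂ, |f z - f w| ≤ ε * (Real.exp (κ * ‖z‖) + Real.exp (κ * ‖w‖)) + A * ‖z - w‖) (T : ℝ) :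
    ∫ t, |f (g t) - f (h t)| ∂(mu T) ≤ 2 * ε * B + A * ∫ t, ‖g t - h t‖ ∂(mu T) := by
  have hd : Integrable (fun t => ‖g t - h t‖) (mu T) := by
    refine ((hg.norm_int hκ T).add (hh.norm_int hκ T)).mono' ((hg.aem T).sub (hh.aem T)).norm (Eventually.of_forall fun t => ?_)
    rw [Real.norm_of_nonneg (norm_nonneg _)]
    exact norm_sub_le _ _
  have h1 : ∫ t, |f (g t) - f (h t)| ∂(mu T) ≤
      ∫ t, (ε * (Real.exp (κ * ‖g t‖) + Real.exp (κ * ‖h t‖)) + A * ‖g t - h t‖) ∂(mu T) :=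
    integral_mono ((hg.f_int hf hC hκ T).sub (hh.f_int hf hC hκ T)).abs
      ((((hg.intexp T).add (hh.intexp T)).const_mul ε).add (hd.const_mul A)) fun t => hfA _ _
  refine h1.trans ?_
  have e1 : ∫ t, (ε * (Real.exp (κ * ‖g t‖) + Real.exp (κ * ‖h t‖)) + A * ‖g t - h t‖) ∂(mu T) =
      ε * (∫ t, Real.exp (κ * ‖g t‖) ∂(mu T) + ∫ t, Real.exp (κ * ‖h t‖) ∂(mu T)) + A * ∫ t, ‖g t - h t‖ ∂(mu T) := by
    have i1 : Integrable (fun t => ε * (Real.exp (κ * ‖g t‖) + Real.exp (κ * ‖h t‖))) (mu T) :=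
      ((hg.intexp T).add (hh.intexp T)).const_mul ε
    rw [integral_add i1 (hd.const_mul A), integral_const_mul,
      integral_const_mul, integral_add (hg.intexp T) (hh.intexp T)]
  rw [e1]
  have h2 := hg.int_le hB T
  have h3 := hh.int_le hB T
  nlinarith

/-- local integrability from the windows -/
lemma loc_of_mu {F : ℝ → ℝ} (hF : ∀ T, Integrable F (mu T)) (a b : ℝ) : IntervalIntegrable F volume a b := by
  have h1 : LocallyIntegrable F volume := by
    intro x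
    refine ⟨Set.Icc (x - 1/2) (x - 1/2 + 1), Icc_mem_nhds (by linarith) (by linarith), ?_⟩
    exact hF (x - 1/2)
  rw [intervalIntegrable_iff']
  exact h1.integrableOn_isCompact isCompact_uIcc

/-- **almost periodicity of functions of the boundary values, uniformly** -/
theorem good_APM {f : ℂ → ℝ} (hf : Continuous f) {C : ℝ} (hC : ∀ z, |f z| ≤ C * Real.exp (κ / 2 * ‖z‖)) (hκ : 0 < κ)
    (hB : 0 ≤ B) (ℓ : ℝ → ℝ) : ∃ ℓ' : ℝ → ℝ, ∀ g : ℝ → ℂ, Good κ B g → SAP g ℓ → APM (fun t => f (g t)) (C * B) ℓ' := by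
  have hA : ∀ ε : {ε : ℝ // 0 < ε}, ∃ A : ℝ, 0 ≤ A ∧ ∀ z w : ℂ,
      |f z - f w| ≤ (ε.1 / (4 * (B + 1))) * (Real.exp (κ * ‖z‖) + Real.exp (κ * ‖w‖)) + A * ‖z - w‖ := fun ε =>
    test_ineq hf hC hκ (by have := ε.2; positivity)
  choose A hA0 hA1 using hA
  refine ⟨fun ε => if hε : 0 < ε then ℓ (ε / (2 * (A ⟨ε, hε⟩ + 1))) else 0, fun g hg hs => ?_⟩
  refine ⟨loc_of_mu fun T => hg.f_int hf hC hκ T, fun T => ?_, fun ε hε => ?_⟩
  · rw [int_mu]
    exact hg.f_le hf hC hκ hB T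
  · have hAn := hA0 ⟨ε, hε⟩
    obtain ⟨S, hS1, hS2⟩ := hs (ε / (2 * (A ⟨ε, hε⟩ + 1))) (by positivity)
    refine ⟨S, ?_, fun τ hτ T => ?_⟩
    · rw [dif_pos hε]
      exact hS1
    · rw [int_mu]
      have h1 := Good.diff hf hC hκ hB (hg.shift τ) hg (ε := ε / (4 * (B + 1))) (by positivity) hAn (hA1 ⟨ε, hε⟩) T
      refine h1.trans ?_
      have h2 := hS2 τ hτ T
      have h3 : 2 * (ε / (4 * (B + 1))) * B ≤ ε / 2 := by
        have : 2 * (ε / (4 * (B + 1))) * B = ε / 2 * (B / (B + 1)) := by field_simp; ring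
        rw [this]
        apply mul_le_of_le_one_right (by positivity)
        rw [div_le_one (by positivity)]
        linarith
      have h4 : A ⟨ε, hε⟩ * ∫ t, ‖g (t + τ) - g t‖ ∂(mu T) ≤ ε / 2 := by
        calc A ⟨ε, hε⟩ * ∫ t, ‖g (t + τ) - g t‖ ∂(mu T) ≤ A ⟨ε, hε⟩ * (ε / (2 * (A ⟨ε, hε⟩ + 1))) :=
              mul_le_mul_of_nonneg_left h2 hAn
          _ = ε / 2 * (A ⟨ε, hε⟩ / (A ⟨ε, hε⟩ + 1)) := by field_simp
          _ ≤ ε / 2 := by
            apply mul_le_of_le_one_right (by positivity)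
            rw [div_le_one (by positivity)]
            linarith
      linarith

end Run7.h113.LE
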