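import Mathlib
import Pool.Agent.Run7.h113.LE.Law
import Pool.Agent.Run7.h113.LE.KW

/-!
The random Euler product.
-/

set_option autoImplicit false

open MeasureTheory Filter Topology Finset NumberField IsDedekindDomain
open scoped ENNReal
open Pool.Agent.H921R2.TatePole (nm two_le_nm below deg nm_eq below_le_nm card_above)
open Pool.Agent.H341R2.EC
open Pool.Agent.R433.MD (lf norm_nm_cpow lf_sub_one nm_pos)
open Pool.Agent.N534.EC (ll ll_near ll_all trc_hasse)
open Pool.Agent.W350.EdgeV (FV mem_FV tendsto_FV)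
open Pool.Agent.W350.EdgeNF (hfin below_sq_summable hpow)

namespace Run7.h113.LE

/-- the frequencies -/
noncomputable def om (Y : ℕ) : Nat.primesBelow Y → ℝ := fun p => -Real.log (p:ℕ) / (2 * Real.pi)

lemma prod_fac {Y : ℕ} (a : Nat.primesBelow Y → ℕ) (q : Nat.primesBelow Y) :
    (∏ p : Nat.primesBelow Y, (p:ℕ) ^ a p).factorization q = a q := by
  have hp : ∀ p : Nat.primesBelow Y, (p:ℕ).Prime := fun p => (Nat.mem_primesBelow.1 p.2).2
  rw [Nat.factorization_prod fun p _ => pow_ne_zero _ (hp p).ne_zero]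
  rw [Finsupp.finsetSum_apply]
  rw [Finset.sum_eq_single q]
  · rw [(hp q).factorization_pow, Finsupp.single_eq_same]
  · intro p _ hpq
    rw [(hp p).factorization_pow, Finsupp.single_apply, if_neg]
    intro h
    exact hpq (Subtype.ext h)
  · intro h
    exact absurd (Finset.mem_univ q) h

lemma om_indep (Y : ℕ) (n : Nat.primesBelow Y → ℤ) (h : ∑ p, (n p : ℝ) * om Y p = 0) : n = 0 := by
  have hp : ∀ p : Nat.primesBelow Y, (p:ℕ).Prime := fun p => (Nat.mem_primesBelow.1 p.2).2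
  set a : Nat.primesBelow Y → ℕ := fun p => (n p).toNat with ha
  set b : Nat.primesBelow Y → ℕ := fun p => (-n p).toNat with hb
  have hab : ∀ p, (n p : ℝ) = a p - b p := by
    intro p
    have h1 : n p = (a p : ℤ) - b p := by
      simp only [ha, hb]
      omega
    rw [h1]
    push_cast
    ring
  have h1 : ∑ p : Nat.primesBelow Y, (n p : ℝ) * Real.log (p:ℕ) = 0 := by
    have h2 : ∑ p : Nat.primesBelow Y, (n p : ℝ) * om Y p =
        -(∑ p : Nat.primesBelow Y, (n p : ℝ) * Real.log (p:ℕ)) / (2 * Real.pi) := by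
      unfold om
      rw [← Finset.sum_neg_distrib, Finset.sum_div]
      refine Finset.sum_congr rfl fun p _ => ?_
      ring
    rw [h2, div_eq_zero_iff] at h
    rcases h with h | h
    · linarith
    · exfalso
      have := Real.pi_pos
      linarith
  have h3 : ∀ c : Nat.primesBelow Y → ℕ, Real.log ((∏ p : Nat.primesBelow Y, (p:ℕ) ^ c p : ℕ) : ℝ) =
      ∑ p : Nat.primesBelow Y, (c p : ℝ) * Real.log (p:ℕ) := by
    intro c
    push_cast
    rw [Real.log_prod]
    · refine Finset.sum_congr rfl fun p _ => ?_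
      rw [Real.log_pow]
    · intro p _
      have := (hp p).ne_zero
      positivity
  have h4 : Real.log ((∏ p : Nat.primesBelow Y, (p:ℕ) ^ a p : ℕ) : ℝ) =
      Real.log ((∏ p : Nat.primesBelow Y, (p:ℕ) ^ b p : ℕ) : ℝ) := by
    rw [h3, h3, ← sub_eq_zero, ← Finset.sum_sub_distrib, ← h1]
    refine Finset.sum_congr rfl fun p _ => ?_
    rw [hab]
    ring
  have hpos : ∀ c : Nat.primesBelow Y → ℕ, (0:ℝ) < ((∏ p : Nat.primesBelow Y, (p:ℕ) ^ c p : ℕ) : ℝ) := by
    intro c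
    have : 0 < ∏ p : Nat.primesBelow Y, (p:ℕ) ^ c p := Finset.prod_pos fun p _ => pow_pos (hp p).pos _
    exact_mod_cast this
  have h5 : (∏ p : Nat.primesBelow Y, (p:ℕ) ^ a p) = ∏ p : Nat.primesBelow Y, (p:ℕ) ^ b p := by
    have := Real.log_injOn_pos (hpos a) (hpos b) h4
    exact_mod_cast this
  funext q
  have h6 := prod_fac a q
  rw [h5, prod_fac b q] at h6
  simp only [ha, hb] at h6
  simp only [Pi.zero_apply]
  omega

/-- the character belonging to the number `n` -/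
noncomputable def ch (Y n : ℕ) : Nat.primesBelow Y → ℤ := fun p => (n.factorization p : ℤ)

/-- the value of the random multiplicative function at `n` -/
noncomputable def Xn (Y n : ℕ) (x : UnitAddTorus (Nat.primesBelow Y)) : ℂ := UnitAddTorus.mFourier (ch Y n) x

lemma Xn_pt (Y n : ℕ) (θ : Nat.primesBelow Y → ℝ) :
    Xn Y n (pt θ) = Complex.exp (2 * Real.pi * Complex.I * ∑ p : Nat.primesBelow Y, (n.factorization p : ℂ) * θ p) := by
  unfold Xn
  rw [mF_pt, ← Complex.exp_sum, Finset.mul_sum]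
  congr 1
  refine Finset.sum_congr rfl fun p _ => ?_
  unfold ch
  push_cast
  ring

lemma Xn_norm (Y n : ℕ) (x : UnitAddTorus (Nat.primesBelow Y)) : ‖Xn Y n x‖ = 1 := by
  unfold Xn UnitAddTorus.mFourier
  rw [ContinuousMap.coe_mk, norm_prod]
  exact Finset.prod_eq_one fun i _ => by
    rw [fourier_apply]
    exact Circle.norm_coe _

lemma log_fac {Y n : ℕ} (hn : 1 ≤ n) (hY : n < Y) :
    Real.log n = ∑ p : Nat.primesBelow Y, (n.factorization p : ℝ) * Real.log (p:ℕ) := by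
  have h1 : ((∏ p : Nat.primesBelow Y, (p:ℕ) ^ (n.factorization p) : ℕ) : ℝ) = n := by
    have h2 := Nat.prod_factorization_pow_eq_self (n := n) (by omega)
    rw [Finsupp.prod] at h2
    have h3 : ∏ p : Nat.primesBelow Y, (p:ℕ) ^ (n.factorization p) =
        ∏ p ∈ Nat.primesBelow Y, p ^ (n.factorization p) :=
      Finset.prod_coe_sort (Nat.primesBelow Y) fun p => p ^ (n.factorization p)
    rw [h3, ← Finset.prod_subset (s₁ := n.factorization.support), h2]
    · intro p hp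
      rw [Nat.support_factorization, Nat.mem_primeFactors] at hp
      rw [Nat.mem_primesBelow]
      exact ⟨lt_of_le_of_lt (Nat.le_of_dvd (by omega) hp.2.1) hY, hp.1⟩
    · intro p _ hp
      rw [Finsupp.notMem_support_iff] at hp
      rw [hp, pow_zero]
  rw [← h1]
  push_cast
  rw [Real.log_prod]
  · refine Finset.sum_congr rfl fun p _ => ?_
    rw [Real.log_pow]
  · intro p _
    have := (Nat.mem_primesBelow.1 p.2).2.ne_zero
    positivity

lemma Xn_flow {Y n : ℕ} (hn : 1 ≤ n) (hY : n < Y) (t : ℝ) :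
    Xn Y n (pt fun p => t * om Y p) = (n : ℂ) ^ (-((t:ℂ) * Complex.I)) := by
  rw [Xn_pt]
  have hn0 : (n:ℂ) ≠ 0 := by
    have : n ≠ 0 := by omega
    exact_mod_cast this
  rw [Complex.cpow_def_of_ne_zero hn0, ← Complex.natCast_log, log_fac hn hY]
  congr 1
  unfold om
  push_cast
  rw [Finset.mul_sum, Finset.sum_mul]
  refine Finset.sum_congr rfl fun p _ => ?_
  have : (Real.pi : ℂ) ≠ 0 := by exact_mod_cast Real.pi_ne_zero
  field_simp

section
variable {K : Type} [Field K] [NumberField K]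

/-- the twisted local factor -/
noncomputable def tf (V : HeightOneSpectrum (𝓞 K) → WeierstrassCurve (𝓞 K)) (σ : ℝ) (v : HeightOneSpectrum (𝓞 K)) (z : ℂ) : ℂ :=
  1 - (trc V v : ℂ) * (((nm v : ℕ) : ℂ) ^ (-((3:ℂ) / 2 + σ)) * z) +
    dlt V v * (((nm v : ℕ) : ℂ) ^ (1 - 2 * ((3:ℂ) / 2 + σ)) * z ^ 2)

lemma tf_lf (V : HeightOneSpectrum (𝓞 K) → WeierstrassCurve (𝓞 K)) (σ : ℝ) (v : HeightOneSpectrum (𝓞 K)) (t : ℝ) :
    tf V σ v (((nm v : ℕ) : ℂ) ^ (-((t:ℂ) * Complex.I))) = lf V (3 / 2 + ((σ:ℂ) + t * Complex.I)) v := by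
  have hne : ((nm v : ℕ) : ℂ) ≠ 0 := by exact_mod_cast (nm_pos v).ne'
  unfold tf lf
  rw [sq, ← Complex.cpow_add _ _ hne, ← Complex.cpow_add _ _ hne, ← Complex.cpow_add _ _ hne]
  congr 3
  · congr 1
    ring
  · ring

lemma unit_cpow (v : HeightOneSpectrum (𝓞 K)) {z : ℂ} (hz : ‖z‖ = 1) :
    ∃ t : ℝ, z = ((nm v : ℕ) : ℂ) ^ (-((t:ℂ) * Complex.I)) := by
  have hne : ((nm v : ℕ) : ℂ) ≠ 0 := by exact_mod_cast (nm_pos v).ne'
  have hq : (2 : ℝ) ≤ nm v := by exact_mod_cast two_le_nm v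
  have hl : Real.log (nm v) ≠ 0 := (Real.log_pos (by linarith)).ne'
  refine ⟨-(Complex.arg z / Real.log (nm v)), ?_⟩
  rw [Complex.cpow_def_of_ne_zero hne, ← Complex.natCast_log]
  have hl' : ((Real.log (nm v) : ℝ) : ℂ) ≠ 0 := by exact_mod_cast hl
  have h1 : ((Real.log (nm v) : ℝ) : ℂ) * -(((-(Complex.arg z / Real.log (nm v)) : ℝ) : ℂ) * Complex.I) =
      Complex.arg z * Complex.I := by
    generalize Real.log (nm v) = L at hl hl'
    push_cast
    field_simp
  rw [h1]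
  have h2 := Complex.norm_mul_exp_arg_mul_I z
  rw [hz, Complex.ofReal_one, one_mul] at h2
  exact h2.symm

lemma tf_ball (V : HeightOneSpectrum (𝓞 K) → WeierstrassCurve (𝓞 K)) {σ : ℝ} (hσ : 0 ≤ σ) (v : HeightOneSpectrum (𝓞 K))
    {z : ℂ} (hz : ‖z‖ = 1) : ‖tf V σ v z - 1‖ ≤ 96 / 100 := by
  obtain ⟨t, rfl⟩ := unit_cpow v hz
  rw [tf_lf]
  exact lf_ball V v _ (by simp [hσ])

lemma tf_slit (V : HeightOneSpectrum (𝓞 K) → WeierstrassCurve (𝓞 K)) {σ : ℝ} (hσ : 0 ≤ σ) (v : HeightOneSpectrum (𝓞 K))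
    {z : ℂ} (hz : ‖z‖ = 1) : tf V σ v z ∈ Complex.slitPlane := by
  refine Or.inl ?_
  have h3 := Complex.abs_re_le_norm (tf V σ v z - 1)
  have h4 := tf_ball V hσ v hz
  rw [Complex.sub_re, Complex.one_re, abs_le] at h3
  linarith [h3.1]

/-- the logarithm of the random Euler product -/
noncomputable def RY (V : HeightOneSpectrum (𝓞 K) → WeierstrassCurve (𝓞 K)) (σ : ℝ) (Y : ℕ)
    (x : UnitAddTorus (Nat.primesBelow Y)) : ℂ :=
  ∑ v ∈ FV nm (hfin (K := K)) Y, -Complex.log (tf V σ v (Xn Y (nm v) x))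

lemma RY_cont (V : HeightOneSpectrum (𝓞 K) → WeierstrassCurve (𝓞 K)) {σ : ℝ} (hσ : 0 ≤ σ) (Y : ℕ) :
    Continuous (RY V σ Y) := by
  unfold RY
  refine continuous_finsetSum _ fun v _ => ?_
  have h1 : Continuous fun x => Xn Y (nm v) x := by
    unfold Xn
    exact (UnitAddTorus.mFourier (ch Y (nm v))).continuous
  have h2 : Continuous fun x => tf V σ v (Xn Y (nm v) x) := by
    unfold tf
    fun_prop
  exact (h2.clog fun x => tf_slit V hσ v (Xn_norm Y (nm v) x)).neg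

lemma RY_flow (V : HeightOneSpectrum (𝓞 K) → WeierstrassCurve (𝓞 K)) (σ : ℝ) (Y : ℕ) (t : ℝ) :
    RY V σ Y (pt fun p => t * om Y p) = Sx V Y ((σ:ℂ) + t * Complex.I) := by
  unfold RY Sx
  refine Finset.sum_congr rfl fun v hv => ?_
  rw [mem_FV] at hv
  rw [Xn_flow (nm_pos v) hv, tf_lf]
  rfl

/-- the mean of a function of the partial sums -/
theorem mean_Sx (V : HeightOneSpectrum (𝓞 K) → WeierstrassCurve (𝓞 K)) {σ : ℝ} (hσ : 0 ≤ σ) (Y : ℕ) {f : ℂ → ℝ}
    (hf : Continuous f) : Tendsto (fun H : ℕ => (1 / (H:ℝ)) * ∫ t in (0:ℝ)..H, f (Sx V Y ((σ:ℂ) + t * Complex.I))) atTop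
      (𝓝 (∫ θ, f (RY V σ Y (pt θ)) ∂(cube (Nat.primesBelow Y)))) := by
  set G : C(UnitAddTorus (Nat.primesBelow Y), ℂ) := ⟨fun x => ((f (RY V σ Y x) : ℝ) : ℂ),
    Complex.continuous_ofReal.comp (hf.comp (RY_cont V hσ Y))⟩ with hG
  have h1 := kw (om_indep Y) G
  have h2 : ∫ θ, G (pt θ) ∂(cube (Nat.primesBelow Y)) =
      ((∫ θ, f (RY V σ Y (pt θ)) ∂(cube (Nat.primesBelow Y)) : ℝ) : ℂ) := by
    rw [← integral_complex_ofReal]
    rfl
  have h3 : ∀ H : ℕ, avg (om Y) G H = (((1 / (H:ℝ)) * ∫ t in (0:ℝ)..H, f (Sx V Y ((σ:ℂ) + t * Complex.I)) : ℝ) : ℂ) := by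
    intro H
    unfold avg
    push_cast
    rw [← intervalIntegral.integral_ofReal]
    congr 1
    apply intervalIntegral.integral_congr
    intro t _
    show ((f (RY V σ Y (pt fun p => t * om Y p)) : ℝ) : ℂ) = _
    rw [RY_flow]
  rw [h2] at h1
  simp_rw [h3] at h1
  exact (Complex.continuous_re.tendsto _).comp h1

end

end Run7.h113.LE
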