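import Mathlib
import Pool.Agent.Run7.h113.LE.Law

/-!
The limit law.
-/

set_option autoImplicit false

open MeasureTheory Filter Topology
open scoped ENNReal CompactlySupported

namespace Run7.h113.LE

/-- the class of test functions -/
def Cls (κ : ℝ) (f : ℂ → ℝ) : Prop := Continuous f ∧ ∃ C : ℝ, ∀ z, |f z| ≤ C * Real.exp (κ / 2 * ‖z‖)

/-- averages -/
noncomputable def av (g : ℝ → ℂ) (f : ℂ → ℝ) (H : ℕ) : ℝ := (1 / (H:ℝ)) * ∫ t in (0:ℝ)..H, f (g t)

variable {κ B : ℝ} {g : ℝ → ℂ}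

lemma Cls.const (hκ : 0 < κ) (c : ℝ) : Cls κ fun _ => c := by
  refine ⟨continuous_const, |c|, fun z => ?_⟩
  exact le_mul_of_one_le_right (abs_nonneg _) (Real.one_le_exp (by positivity))

lemma Cls.add {f h : ℂ → ℝ} (hf : Cls κ f) (hh : Cls κ h) : Cls κ fun z => f z + h z := by
  obtain ⟨h1, C, h2⟩ := hf
  obtain ⟨h3, D, h4⟩ := hh
  refine ⟨h1.add h3, C + D, fun z => (abs_add_le _ _).trans ?_⟩
  rw [add_mul]
  exact add_le_add (h2 z) (h4 z)

lemma Cls.smul {f : ℂ → ℝ} (hf : Cls κ f) (c : ℝ) : Cls κ fun z => c * f z := by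
  obtain ⟨h1, C, h2⟩ := hf
  refine ⟨continuous_const.mul h1, |c| * C, fun z => ?_⟩
  rw [abs_mul, mul_assoc]
  exact mul_le_mul_of_nonneg_left (h2 z) (abs_nonneg _)

lemma Cls.abs {f : ℂ → ℝ} (hf : Cls κ f) : Cls κ fun z => |f z| := by
  obtain ⟨h1, C, h2⟩ := hf
  exact ⟨h1.abs, C, fun z => by rw [abs_abs]; exact h2 z⟩

lemma Cls.mul {f χ : ℂ → ℝ} (hf : Cls κ f) (hχ : Continuous χ) (hχ1 : ∀ z, |χ z| ≤ 1) : Cls κ fun z => f z * χ z := by
  obtain ⟨h1, C, h2⟩ := hf
  refine ⟨h1.mul hχ, C, fun z => ?_⟩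
  rw [abs_mul]
  exact (mul_le_of_le_one_right (abs_nonneg _) (hχ1 z)).trans (h2 z)

lemma Cls.cc (hκ : 0 < κ) (f : C_c(ℂ, ℝ)) : Cls κ f := by
  obtain ⟨C, hC⟩ := f.2.exists_bound_of_continuous f.1.2
  refine ⟨f.1.2, |C|, fun z => ?_⟩
  have h1 : |f z| ≤ C := hC z
  exact (h1.trans (le_abs_self C)).trans (le_mul_of_one_le_right (abs_nonneg _) (Real.one_le_exp (by positivity)))

lemma Cls.ii {f : ℂ → ℝ} (hf : Cls κ f) (hκ : 0 < κ) (hg : Good κ B g) (a b : ℝ) :
    IntervalIntegrable (fun t => f (g t)) volume a b := by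
  obtain ⟨h1, C, h2⟩ := hf
  exact loc_of_mu (fun T => hg.f_int h1 h2 hκ T) a b

lemma exp_ii (hg : Good κ B g) (a b : ℝ) : IntervalIntegrable (fun t => Real.exp (κ * ‖g t‖)) volume a b :=
  loc_of_mu (fun T => hg.intexp T) a b

lemma av_add {f h : ℂ → ℝ} (hf : Cls κ f) (hh : Cls κ h) (hκ : 0 < κ) (hg : Good κ B g) (H : ℕ) :
    av g (fun z => f z + h z) H = av g f H + av g h H := by
  unfold av
  rw [intervalIntegral.integral_add (hf.ii hκ hg _ _) (hh.ii hκ hg _ _)]
  ring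

lemma av_smul (f : ℂ → ℝ) (c : ℝ) (H : ℕ) : av g (fun z => c * f z) H = c * av g f H := by
  unfold av
  rw [intervalIntegral.integral_const_mul]
  ring

lemma av_mono {f h : ℂ → ℝ} (hf : Cls κ f) (hh : Cls κ h) (hκ : 0 < κ) (hg : Good κ B g) (hle : ∀ z, f z ≤ h z) (H : ℕ) :
    av g f H ≤ av g h H := by
  unfold av
  apply mul_le_mul_of_nonneg_left _ (by positivity)
  exact intervalIntegral.integral_mono_on (Nat.cast_nonneg H) (hf.ii hκ hg _ _) (hh.ii hκ hg _ _) fun t _ => hle _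

/-- the cutoff functions -/
noncomputable def cut (n : ℕ) (z : ℂ) : ℝ := max 0 (min 1 ((n:ℝ) + 1 - ‖z‖))

lemma cut_cont (n : ℕ) : Continuous (cut n) := by
  unfold cut
  fun_prop

lemma cut_nonneg (n : ℕ) (z : ℂ) : 0 ≤ cut n z := le_max_left _ _

lemma cut_le (n : ℕ) (z : ℂ) : cut n z ≤ 1 := max_le zero_le_one (min_le_left _ _)

lemma cut_one {n : ℕ} {z : ℂ} (h : ‖z‖ ≤ n) : cut n z = 1 := by
  unfold cut
  rw [min_eq_left (by linarith), max_eq_right zero_le_one]

lemma cut_zero {n : ℕ} {z : ℂ} (h : (n:ℝ) + 1 ≤ ‖z‖) : cut n z = 0 := by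
  unfold cut
  rw [min_eq_right (by linarith), max_eq_left (by linarith)]

lemma cut_mono {n m : ℕ} (h : n ≤ m) (z : ℂ) : cut n z ≤ cut m z := by
  unfold cut
  have : (n:ℝ) ≤ m := by exact_mod_cast h
  apply max_le_max le_rfl
  apply min_le_min le_rfl
  linarith

lemma cut_abs (n : ℕ) (z : ℂ) : |cut n z| ≤ 1 := by
  rw [abs_of_nonneg (cut_nonneg n z)]
  exact cut_le n z

/-- product with a cutoff function -/
noncomputable def ccut (f : ℂ → ℝ) (hf : Continuous f) (n : ℕ) : C_c(ℂ, ℝ) where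
  toFun := fun z => f z * cut n z
  continuous_toFun := hf.mul (cut_cont n)
  hasCompactSupport' := by
    apply HasCompactSupport.of_support_subset_isCompact (isCompact_closedBall (0:ℂ) ((n:ℝ) + 1))
    intro z hz
    rw [mem_closedBall_zero_iff]
    by_contra h
    apply hz
    show f z * cut n z = 0
    rw [cut_zero (by linarith), mul_zero]

/-- the error of a cutoff -/
lemma av_cut {f : ℂ → ℝ} (hf : Continuous f) {C : ℝ} (hC : ∀ z, |f z| ≤ C * Real.exp (κ / 2 * ‖z‖)) (hκ : 0 < κ)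
    (hB : 0 ≤ B) (hg : Good κ B g) (n H : ℕ) :
    |av g f H - av g (fun z => f z * cut n z) H| ≤ C * Real.exp (-(κ / 2 * n)) * B := by
  have hC0 : 0 ≤ C := by
    have := (abs_nonneg _).trans (hC 0)
    rwa [norm_zero, mul_zero, Real.exp_zero, mul_one] at this
  have hcl : Cls κ f := ⟨hf, C, hC⟩
  rcases Nat.eq_zero_or_pos H with h | h
  · subst h
    unfold av
    simp only [Nat.cast_zero, intervalIntegral.integral_same, mul_zero, sub_zero, abs_zero]
    positivity
  have hH : (0:ℝ) < H := by exact_mod_cast h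
  unfold av
  rw [← mul_sub, ← intervalIntegral.integral_sub (hcl.ii hκ hg _ _)
    ((hcl.mul (cut_cont n) (cut_abs n)).ii hκ hg _ _), abs_mul, abs_of_pos (by positivity)]
  have h1 : |∫ t in (0:ℝ)..H, (f (g t) - f (g t) * cut n (g t))| ≤
      ∫ t in (0:ℝ)..H, |f (g t) - f (g t) * cut n (g t)| := intervalIntegral.abs_integral_le_integral_abs hH.le
  have h2 : ∀ t, |f (g t) - f (g t) * cut n (g t)| ≤ C * Real.exp (-(κ / 2 * n)) * Real.exp (κ * ‖g t‖) := by
    intro t
    rcases le_total ‖g t‖ (n:ℝ) with h3 | h3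
    · rw [cut_one h3, mul_one, sub_self, abs_zero]
      positivity
    · have e : f (g t) - f (g t) * cut n (g t) = f (g t) * (1 - cut n (g t)) := by ring
      rw [e, abs_mul]
      have h4 : |1 - cut n (g t)| ≤ 1 := by
        rw [abs_le]
        have := cut_nonneg n (g t)
        have := cut_le n (g t)
        constructor <;> linarith
      refine (mul_le_of_le_one_right (abs_nonneg _) h4).trans ((hC _).trans ?_)
      rw [mul_assoc, ← Real.exp_add]
      apply mul_le_mul_of_nonneg_left _ hC0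
      apply Real.exp_le_exp.2
      have h5 : κ / 2 * n ≤ κ / 2 * ‖g t‖ := mul_le_mul_of_nonneg_left h3 (by positivity)
      linarith
  have h3 : ∫ t in (0:ℝ)..H, |f (g t) - f (g t) * cut n (g t)| ≤
      ∫ t in (0:ℝ)..H, C * Real.exp (-(κ / 2 * n)) * Real.exp (κ * ‖g t‖) :=
    intervalIntegral.integral_mono_on hH.le
      ((hcl.ii hκ hg _ _).sub ((hcl.mul (cut_cont n) (cut_abs n)).ii hκ hg _ _)).abs
      ((exp_ii hg _ _).const_mul _) fun t _ => h2 t
  have h4 : ∫ t in (0:ℝ)..H, Real.exp (κ * ‖g t‖) ≤ H * B := by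
    have h5 := win_nat (G := fun t => Real.exp (κ * ‖g t‖)) (exp_ii hg) (B := B) (fun T => by
      rw [int_mu]; exact hg.int_le hB T) 0 H
    rwa [zero_add] at h5
  rw [intervalIntegral.integral_const_mul] at h3
  have h5 : C * Real.exp (-(κ / 2 * n)) * ∫ t in (0:ℝ)..H, Real.exp (κ * ‖g t‖) ≤
      C * Real.exp (-(κ / 2 * n)) * (H * B) := mul_le_mul_of_nonneg_left h4 (by positivity)
  calc 1 / (H:ℝ) * |∫ t in (0:ℝ)..H, (f (g t) - f (g t) * cut n (g t))|
      ≤ 1 / (H:ℝ) * (C * Real.exp (-(κ / 2 * n)) * (H * B)) :=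
        mul_le_mul_of_nonneg_left ((h1.trans h3).trans h5) (by positivity)
    _ = _ := by field_simp

/-- **the limit law** -/
theorem exists_law (hκ : 0 < κ) (hB : 0 ≤ B) (hg : Good κ B g)
    (hm : ∀ f : ℂ → ℝ, Cls κ f → ∃ M : ℝ, Tendsto (av g f) atTop (𝓝 M)) :
    ∃ ν : Measure ℂ, IsProbabilityMeasure ν ∧ ∀ f : ℂ → ℝ, Cls κ f →
      Integrable f ν ∧ Tendsto (av g f) atTop (𝓝 (∫ z, f z ∂ν)) := by
  choose! M hM using hm
  have hMadd : ∀ f h : ℂ → ℝ, Cls κ f → Cls κ h → M (fun z => f z + h z) = M f + M h := by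
    intro f h hf hh
    refine tendsto_nhds_unique (hM _ (hf.add hh)) (((hM f hf).add (hM h hh)).congr fun H => ?_)
    exact (av_add hf hh hκ hg H).symm
  have hMsmul : ∀ (c : ℝ) (f : ℂ → ℝ), Cls κ f → M (fun z => c * f z) = c * M f := by
    intro c f hf
    refine tendsto_nhds_unique (hM _ (hf.smul c)) (((hM f hf).const_mul c).congr fun H => ?_)
    exact (av_smul f c H).symm
  have hMmono : ∀ f h : ℂ → ℝ, Cls κ f → Cls κ h → (∀ z, f z ≤ h z) → M f ≤ M h := fun f h hf hh hle =>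
    le_of_tendsto_of_tendsto' (hM f hf) (hM h hh) fun H => av_mono hf hh hκ hg hle H
  have hM0 : M (fun _ => 0) = 0 := by
    refine tendsto_nhds_unique (hM _ (Cls.const hκ 0)) (tendsto_const_nhds.congr fun H => ?_)
    unfold av
    simp
  have hM1 : M (fun _ => 1) = 1 := by
    refine tendsto_nhds_unique (hM _ (Cls.const hκ 1)) (tendsto_const_nhds.congr' ?_)
    filter_upwards [eventually_gt_atTop 0] with H hH
    have hH' : (H:ℝ) ≠ 0 := by exact_mod_cast hH.ne'
    unfold av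
    simp [hH']
  -- the functional
  let L0 : C_c(ℂ, ℝ) →ₗ[ℝ] ℝ :=
    { toFun := fun f => M f
      map_add' := fun f h => hMadd f h (Cls.cc hκ f) (Cls.cc hκ h)
      map_smul' := fun c f => hMsmul c f (Cls.cc hκ f) }
  let L : C_c(ℂ, ℝ) →ₚ[ℝ] ℝ := PositiveLinearMap.mk₀ L0 fun f hf => by
    show 0 ≤ M f
    rw [← hM0]
    exact hMmono _ _ (Cls.const hκ 0) (Cls.cc hκ f) fun z => hf z
  set ν : Measure ℂ := RealRMK.rieszMeasure L with hν
  have hint : ∀ f : C_c(ℂ, ℝ), ∫ z, f z ∂ν = M f := fun f => RealRMK.integral_rieszMeasure L f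
  -- nonnegative functions
  have hMcut : ∀ f : ℂ → ℝ, Cls κ f → Tendsto (fun n : ℕ => M (fun z => f z * cut n z)) atTop (𝓝 (M f)) := by
    intro f hf
    obtain ⟨hfc, C, hC⟩ := hf
    have h1 : ∀ n : ℕ, |M f - M (fun z => f z * cut n z)| ≤ C * Real.exp (-(κ / 2 * n)) * B := by
      intro n
      have h2 := ((hM f ⟨hfc, C, hC⟩).sub (hM _ (Cls.mul ⟨hfc, C, hC⟩ (cut_cont n) (cut_abs n)))).abs
      exact le_of_tendsto' h2 fun H => av_cut hfc hC hκ hB hg n H
    have h2 : Tendsto (fun n : ℕ => C * Real.exp (-(κ / 2 * n)) * B) atTop (𝓝 0) := by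
      have h3 : Tendsto (fun n : ℕ => Real.exp (-(κ / 2 * n))) atTop (𝓝 0) := by
        apply Real.tendsto_exp_neg_atTop_nhds_zero.comp
        exact tendsto_natCast_atTop_atTop.const_mul_atTop (by positivity)
      have := (h3.const_mul C).mul_const B
      rwa [mul_zero, zero_mul] at this
    rw [tendsto_iff_norm_sub_tendsto_zero]
    refine squeeze_zero (fun _ => norm_nonneg _) (fun n => ?_) h2
    rw [Real.norm_eq_abs, abs_sub_comm]
    exact h1 n
  have hcutlim : ∀ z : ℂ, ∀ᶠ n : ℕ in atTop, cut n z = 1 := by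
    intro z
    obtain ⟨N, hN⟩ := exists_nat_ge ‖z‖
    filter_upwards [eventually_ge_atTop N] with n hn
    apply cut_one
    have : (N:ℝ) ≤ n := by exact_mod_cast hn
    linarith
  have hlint : ∀ f : ℂ → ℝ, Cls κ f → (∀ z, 0 ≤ f z) → ∫⁻ z, ENNReal.ofReal (f z) ∂ν ≤ ENNReal.ofReal (M f) := by
    intro f hf hf0
    have h1 : ∀ n : ℕ, ∫⁻ z, ENNReal.ofReal (f z * cut n z) ∂ν ≤ ENNReal.ofReal (M f) := by
      intro n
      have hi : Integrable (fun z => f z * cut n z) ν := (ccut f hf.1 n).1.2.integrable_of_hasCompactSupport (ccut f hf.1 n).2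
      rw [← ofReal_integral_eq_lintegral_ofReal hi (Eventually.of_forall fun z => mul_nonneg (hf0 z) (cut_nonneg n z))]
      apply ENNReal.ofReal_le_ofReal
      have h2 := hint (ccut f hf.1 n)
      have h3 : ∫ z, f z * cut n z ∂ν = M (fun z => f z * cut n z) := h2
      rw [h3]
      exact hMmono _ _ (hf.mul (cut_cont n) (cut_abs n)) hf fun z => mul_le_of_le_one_right (hf0 z) (cut_le n z)
    have h2 : ∀ z, ENNReal.ofReal (f z) = ⨆ n : ℕ, ENNReal.ofReal (f z * cut n z) := by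
      intro z
      apply le_antisymm
      · obtain ⟨n, hn⟩ := (hcutlim z).exists
        refine le_trans (le_of_eq ?_) (le_iSup _ n)
        rw [hn, mul_one]
      · apply iSup_le
        intro n
        apply ENNReal.ofReal_le_ofReal
        exact mul_le_of_le_one_right (hf0 z) (cut_le n z)
    simp_rw [h2]
    rw [lintegral_iSup]
    · exact iSup_le h1
    · intro n
      exact ((hf.1.mul (cut_cont n)).measurable).ennreal_ofReal
    · intro n m hnm z
      apply ENNReal.ofReal_le_ofReal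
      exact mul_le_mul_of_nonneg_left (cut_mono hnm z) (hf0 z)
  have hintegrable : ∀ f : ℂ → ℝ, Cls κ f → Integrable f ν := by
    intro f hf
    refine ⟨hf.1.aestronglyMeasurable, ?_⟩
    have h1 := hlint _ hf.abs fun z => abs_nonneg _
    unfold HasFiniteIntegral
    have h2 : ∀ z, ‖f z‖ₑ = ENNReal.ofReal |f z| := fun z => by rw [← Real.norm_eq_abs, ofReal_norm]
    simp_rw [h2]
    exact h1.trans_lt ENNReal.ofReal_lt_top
  have heq : ∀ f : ℂ → ℝ, Cls κ f → ∫ z, f z ∂ν = M f := by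
    intro f hf
    have h1 : Tendsto (fun n : ℕ => ∫ z, f z * cut n z ∂ν) atTop (𝓝 (∫ z, f z ∂ν)) := by
      apply tendsto_integral_of_dominated_convergence (fun z => |f z|)
      · intro n
        exact (hf.1.mul (cut_cont n)).aestronglyMeasurable
      · exact (hintegrable f hf).abs
      · intro n
        refine Eventually.of_forall fun z => ?_
        rw [norm_mul, Real.norm_eq_abs, Real.norm_eq_abs]
        exact mul_le_of_le_one_right (abs_nonneg _) (cut_abs n z)
      · refine Eventually.of_forall fun z => ?_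
        refine tendsto_const_nhds.congr' ?_
        filter_upwards [hcutlim z] with n hn
        rw [hn, mul_one]
    have h2 : ∀ n : ℕ, ∫ z, f z * cut n z ∂ν = M (fun z => f z * cut n z) := fun n => hint (ccut f hf.1 n)
    simp_rw [h2] at h1
    exact tendsto_nhds_unique h1 (hMcut f hf)
  refine ⟨ν, ⟨?_⟩, fun f hf => ⟨hintegrable f hf, ?_⟩⟩
  · have h1 := heq _ (Cls.const hκ 1)
    have h2 := hlint _ (Cls.const hκ 1) fun _ => zero_le_one
    rw [hM1] at h1 h2
    simp only [ENNReal.ofReal_one, lintegral_const, one_mul] at h2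
    have h3 : ν Set.univ ≠ ∞ := (h2.trans_lt ENNReal.one_lt_top).ne
    simp only [integral_const, smul_eq_mul, mul_one] at h1
    rw [measureReal_def] at h1
    rw [← ENNReal.ofReal_toReal h3, h1, ENNReal.ofReal_one]
  · rw [heq f hf]
    exact hM f hf

end Run7.h113.LE
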