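import Mathlib
import Pool.Agent.Run7.h113.LE.Rmk
import Pool.Agent.Run7.h113.LE.Tw

/-!
Uniform distribution of the boundary values.
-/

set_option autoImplicit false

open MeasureTheory Filter Topology Finset NumberField IsDedekindDomain
open scoped ENNReal
open Pool.Agent.H921R2.TatePole (nm two_le_nm below deg nm_eq below_le_nm card_above)

namespace Run7.h113.LE

lemma int_of_eLp {m : Measure ℝ} {f : ℝ → ℂ} (hf : AEStronglyMeasurable f m) {ε : ℝ} (hε : 0 ≤ ε)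
    (h : eLpNorm f 1 m ≤ ENNReal.ofReal ε) : ∫ t, ‖f t‖ ∂m ≤ ε := by
  rw [integral_norm_eq_lintegral_enorm hf]
  rw [eLpNorm_one_eq_lintegral_enorm] at h
  exact ENNReal.toReal_le_of_le_ofReal hε h

/-- the common bound for the lengths -/
lemma common (d : ℕ) : ∃ ℓ : ℝ → ℝ, ∀ (K : Type) [Field K] [NumberField K], Module.finrank ℚ K ≤ d →
    ∀ (V : HeightOneSpectrum (𝓞 K) → WeierstrassCurve (𝓞 K)) (σ : ℝ), 0 ≤ σ → ∀ g : ℝ → ℂ, IsLim V σ g →
    Good (kap d) (Bd d) g ∧ SAP g ℓ := by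
  have h := fun ε : {ε : ℝ // 0 < ε} => ap_main d (r := 1) (by simp) ε.2
  choose S hS hmain using h
  choose l hl hS using hS
  refine ⟨fun ε => if hε : 0 < ε then l ⟨ε, hε⟩ else 0, ?_⟩
  intro K _ _ hd V σ hσ g hg
  have hgood : Good (kap d) (Bd d) g := ⟨hg.aesm hσ, fun T => exp_lim hd hσ hg T⟩
  refine ⟨hgood, fun ε hε => ⟨S ⟨ε, hε⟩, ?_, fun τ hτ T => ?_⟩⟩
  · simp only [dif_pos hε]
    exact hS ⟨ε, hε⟩
  · exact int_of_eLp (((hgood.shift τ).aem T).sub (hgood.aem T)) hε.le (hmain ⟨ε, hε⟩ K hd V σ hσ g hg τ hτ T)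

/-- comparison of averages -/
lemma av_diff {κ B : ℝ} {g h : ℝ → ℂ} {f : ℂ → ℝ} (hf : Cls κ f) (hκ : 0 < κ) (hg : Good κ B g) (hh : Good κ B h)
    {δ : ℝ} (hδ : ∀ T, ∫ t, |f (g t) - f (h t)| ∂(mu T) ≤ δ) {H : ℕ} (hH : 0 < H) : |av g f H - av h f H| ≤ δ := by
  have hH' : (0:ℝ) < H := by exact_mod_cast hH
  unfold av
  rw [← mul_sub, ← intervalIntegral.integral_sub (hf.ii hκ hg _ _) (hf.ii hκ hh _ _), abs_mul, abs_of_pos (by positivity)]
  have h1 : |∫ t in (0:ℝ)..H, (f (g t) - f (h t))| ≤ ∫ t in (0:ℝ)..H, |f (g t) - f (h t)| :=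
    intervalIntegral.abs_integral_le_integral_abs hH'.le
  have h2 := win_nat (G := fun t => |f (g t) - f (h t)|) (fun a b => ((hf.ii hκ hg a b).sub (hf.ii hκ hh a b)).abs)
    (B := δ) (fun T => by rw [int_mu]; exact hδ T) 0 H
  rw [zero_add] at h2
  calc 1 / (H:ℝ) * |∫ t in (0:ℝ)..H, (f (g t) - f (h t))| ≤ 1 / (H:ℝ) * (H * δ) :=
        mul_le_mul_of_nonneg_left (h1.trans h2) (by positivity)
    _ = δ := by field_simp

/-- **uniform distribution** -/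
theorem main_law (d : ℕ) {f : ℂ → ℝ} (hf : Cls (kap d) f) {ε : ℝ} (hε : 0 < ε) : ∃ (H₀ : ℝ) (Y₀ : ℕ), 0 < H₀ ∧
    ∀ (K : Type) [Field K] [NumberField K], Module.finrank ℚ K ≤ d →
    ∀ (V : HeightOneSpectrum (𝓞 K) → WeierstrassCurve (𝓞 K)) (σ : ℝ), 0 ≤ σ → ∀ g : ℝ → ℂ, IsLim V σ g →
    ∀ (H : ℝ), H₀ ≤ H → ∀ (T : ℝ) (Y : ℕ), Y₀ ≤ Y →
      |(1 / H) * (∫ t in T..(T + H), f (g t)) - ∫ θ, f (RY V σ Y (pt θ)) ∂(cube (Nat.primesBelow Y))| ≤ ε := by
  obtain ⟨ℓ, hℓ⟩ := common d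
  have hκ := kap_pos d
  have hB := Bd_nonneg d
  obtain ⟨hfc, C, hC⟩ := id hf
  have hC0 : 0 ≤ C := by
    have := (abs_nonneg _).trans (hC 0)
    rwa [norm_zero, mul_zero, Real.exp_zero, mul_one] at this
  obtain ⟨ℓ', hℓ'⟩ := good_APM hfc hC hκ hB ℓ
  -- the tails
  obtain ⟨A, hA0, hA⟩ := test_ineq hfc hC hκ (ε := ε / (8 * (Bd d + 1))) (by positivity)
  obtain ⟨Y0, hY0⟩ := tail_one d (ε := ε / (4 * (A + 1))) (by positivity)
  refine ⟨max 1 (H0 (ε / 2 / 2) (C * Bd d) ℓ'), max Y0 (4 ^ d), lt_of_lt_of_le one_pos (le_max_left _ _), ?_⟩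
  intro K _ _ hd V σ hσ g hg H hH T Y hY
  obtain ⟨hgood, hsap⟩ := hℓ K hd V σ hσ g hg
  have hapm := hℓ' g hgood hsap
  obtain ⟨M, hM⟩ := hapm.mean
  have hHp : 0 < H := lt_of_lt_of_le one_pos ((le_max_left _ _).trans hH)
  have h1 : |(1 / H) * (∫ t in T..(T + H), f (g t)) - M| ≤ ε / 2 := by
    have h2 := hM (ε / 2) (by positivity) H ((le_max_right _ _).trans hH) T
    have e : (1 / H) * (∫ t in T..(T + H), f (g t)) - M = (1 / H) * ((∫ t in T..(T + H), f (g t)) - M * H) := by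
      field_simp
    rw [e, abs_mul, abs_of_pos (by positivity)]
    calc 1 / H * |(∫ t in T..(T + H), f (g t)) - M * H| ≤ 1 / H * (ε / 2 * H) :=
          mul_le_mul_of_nonneg_left h2 (by positivity)
      _ = ε / 2 := by field_simp
  -- the averages tend to `M`
  have hav : Tendsto (av g f) atTop (𝓝 M) := by
    rw [Metric.tendsto_atTop]
    intro η hη
    obtain ⟨N, hN⟩ := exists_nat_ge (max 1 (H0 (η / 2 / 2) (C * Bd d) ℓ'))
    refine ⟨N, fun n hn => ?_⟩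
    have hn' : (N:ℝ) ≤ n := by exact_mod_cast hn
    have h2 := hM (η / 2) (by positivity) n (((le_max_right _ _).trans hN).trans hn') 0
    have hn0 : (0:ℝ) < n := lt_of_lt_of_le one_pos (((le_max_left _ _).trans hN).trans hn')
    rw [zero_add] at h2
    rw [Real.dist_eq]
    unfold av
    have e : (1 / (n:ℝ)) * (∫ t in (0:ℝ)..n, f (g t)) - M = (1 / (n:ℝ)) * ((∫ t in (0:ℝ)..n, f (g t)) - M * n) := by
      field_simp
    rw [e, abs_mul, abs_of_pos (by positivity)]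
    calc 1 / (n:ℝ) * |(∫ t in (0:ℝ)..n, f (g t)) - M * n| ≤ 1 / (n:ℝ) * (η / 2 * n) :=
          mul_le_mul_of_nonneg_left h2 (by positivity)
      _ = η / 2 := by field_simp
      _ < η := by linarith
  -- the partial sums
  have hY4 : 4 ^ d ≤ Y := (le_max_right _ _).trans hY
  set s : ℝ → ℂ := fun t => Sx V Y ((σ:ℂ) + t * Complex.I) with hs
  have hsgood : Good (kap d) (Bd d) s := ⟨(Sx_cont V Y hσ).aestronglyMeasurable, fun T => exp_Sx V hd hσ hY4 T⟩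
  have hdiff : ∀ T, ∫ t, |f (g t) - f (s t)| ∂(mu T) ≤ ε / 2 := by
    intro T
    have h2 := Good.diff hfc hC hκ hB hgood hsgood (ε := ε / (8 * (Bd d + 1))) (by positivity) hA0 hA T
    refine h2.trans ?_
    have h3 : ∫ t, ‖g t - s t‖ ∂(mu T) ≤ ε / (4 * (A + 1)) :=
      int_of_eLp ((hgood.aem T).sub (hsgood.aem T)) (by positivity) (hY0 K hd V σ hσ g hg T Y ((le_max_left _ _).trans hY))
    have h4 : 2 * (ε / (8 * (Bd d + 1))) * Bd d ≤ ε / 4 := by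
      have : 2 * (ε / (8 * (Bd d + 1))) * Bd d = ε / 4 * (Bd d / (Bd d + 1)) := by field_simp; ring
      rw [this]
      apply mul_le_of_le_one_right (by positivity)
      rw [div_le_one (by positivity)]
      linarith
    have h5 : A * ∫ t, ‖g t - s t‖ ∂(mu T) ≤ ε / 4 := by
      calc A * ∫ t, ‖g t - s t‖ ∂(mu T) ≤ A * (ε / (4 * (A + 1))) := mul_le_mul_of_nonneg_left h3 hA0
        _ = ε / 4 * (A / (A + 1)) := by field_simp
        _ ≤ ε / 4 := by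
          apply mul_le_of_le_one_right (by positivity)
          rw [div_le_one (by positivity)]
          linarith
    linarith
  have h2 : |M - ∫ θ, f (RY V σ Y (pt θ)) ∂(cube (Nat.primesBelow Y))| ≤ ε / 2 := by
    have h3 := (hav.sub (mean_Sx V hσ Y hfc)).abs
    refine le_of_tendsto h3 ?_
    filter_upwards [eventually_gt_atTop 0] with n hn
    exact av_diff hf hκ hgood hsgood hdiff hn
  have h3 : (1 / H) * (∫ t in T..(T + H), f (g t)) - ∫ θ, f (RY V σ Y (pt θ)) ∂(cube (Nat.primesBelow Y)) =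
      ((1 / H) * (∫ t in T..(T + H), f (g t)) - M) + (M - ∫ θ, f (RY V σ Y (pt θ)) ∂(cube (Nat.primesBelow Y))) := by ring
  rw [h3]
  refine (abs_add_le _ _).trans ?_
  linarith

/-- **the limit law** -/
theorem law_exists {K : Type} [Field K] [NumberField K] {d : ℕ} (hd : Module.finrank ℚ K ≤ d)
    (V : HeightOneSpectrum (𝓞 K) → WeierstrassCurve (𝓞 K)) {σ : ℝ} (hσ : 0 ≤ σ) {g : ℝ → ℂ} (hg : IsLim V σ g) :
    ∃ ν : Measure ℂ, IsProbabilityMeasure ν ∧ ∀ f : ℂ → ℝ, Cls (kap d) f →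
      Integrable f ν ∧ Tendsto (av g f) atTop (𝓝 (∫ z, f z ∂ν)) := by
  obtain ⟨ℓ, hℓ⟩ := common d
  have hκ := kap_pos d
  have hB := Bd_nonneg d
  obtain ⟨hgood, hsap⟩ := hℓ K hd V σ hσ g hg
  refine exists_law hκ hB hgood fun f hf => ?_
  obtain ⟨hfc, C, hC⟩ := id hf
  obtain ⟨ℓ', hℓ'⟩ := good_APM hfc hC hκ hB ℓ
  obtain ⟨M, hM⟩ := (hℓ' g hgood hsap).mean
  refine ⟨M, ?_⟩
  rw [Metric.tendsto_atTop]
  intro η hη
  obtain ⟨N, hN⟩ := exists_nat_ge (max 1 (H0 (η / 2 / 2) (C * Bd d) ℓ'))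
  refine ⟨N, fun n hn => ?_⟩
  have hn' : (N:ℝ) ≤ n := by exact_mod_cast hn
  have h2 := hM (η / 2) (by positivity) n (((le_max_right _ _).trans hN).trans hn') 0
  have hn0 : (0:ℝ) < n := lt_of_lt_of_le one_pos (((le_max_left _ _).trans hN).trans hn')
  rw [zero_add] at h2
  rw [Real.dist_eq]
  unfold av
  have e : (1 / (n:ℝ)) * (∫ t in (0:ℝ)..n, f (g t)) - M = (1 / (n:ℝ)) * ((∫ t in (0:ℝ)..n, f (g t)) - M * n) := by
    field_simp
  rw [e, abs_mul, abs_of_pos (by positivity)]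
  calc 1 / (n:ℝ) * |(∫ t in (0:ℝ)..n, f (g t)) - M * n| ≤ 1 / (n:ℝ) * (η / 2 * n) :=
        mul_le_mul_of_nonneg_left h2 (by positivity)
    _ = η / 2 := by field_simp
    _ < η := by linarith

end Run7.h113.LE
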